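import Pool.Agent.Helper81.RD.PingPong

set_option autoImplicit false
open Classical Filter

namespace Pool.Agent.Helper81

/-- A length function of tree type (0-hyperbolic) on a group. -/
structure TreeLen (G : Type*) [Group G] where
  len : G → ℕ
  len_one : len 1 = 0
  len_inv : ∀ g, len g⁻¹ = len g
  hyp : ∀ g h k : G,
    min ((len g : ℤ) + len k - len (g⁻¹ * k)) ((len k : ℤ) + len h - len (k⁻¹ * h)) ≤
      (len g : ℤ) + len h - len (g⁻¹ * h)

namespace TreeLen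

variable {G : Type*} [Group G] (T : TreeLen G)

/-- pull back along a hom -/
def comap {N : Type*} [Group N] (φ : N →* G) : TreeLen N where
  len n := T.len (φ n)
  len_one := by rw [map_one, T.len_one]
  len_inv g := by rw [map_inv, T.len_inv]
  hyp g h k := by
    have := T.hyp (φ g) (φ h) (φ k)
    simpa only [map_mul, map_inv] using this

/-- the distance -/
def d (p q : G) : ℤ := T.len (p⁻¹ * q)

theorem d_nonneg (p q : G) : 0 ≤ T.d p q := by unfold d; positivity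

theorem d_self (p : G) : T.d p p = 0 := by simp [d, T.len_one]

theorem d_comm (p q : G) : T.d p q = T.d q p := by
  unfold d
  rw [← T.len_inv (p⁻¹ * q)]
  simp

theorem d_smul (g p q : G) : T.d (g * p) (g * q) = T.d p q := by
  unfold d
  congr 2
  group

/-- four-point condition -/
theorem four (o p q r : G) :
    T.d o p + T.d o r - T.d p r ≤ T.d o p + T.d o q - T.d p q ∨
      T.d o r + T.d o q - T.d r q ≤ T.d o p + T.d o q - T.d p q := by
  rw [← min_le_iff]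
  have := T.hyp (o⁻¹ * p) (o⁻¹ * q) (o⁻¹ * r)
  have e1 : (o⁻¹ * p)⁻¹ * (o⁻¹ * r) = p⁻¹ * r := by group
  have e2 : (o⁻¹ * r)⁻¹ * (o⁻¹ * q) = r⁻¹ * q := by group
  have e3 : (o⁻¹ * p)⁻¹ * (o⁻¹ * q) = p⁻¹ * q := by group
  rw [e1, e2, e3] at this
  exact this

theorem d_tri (p q r : G) : T.d p r ≤ T.d p q + T.d q r := by
  have h := T.four q p r q
  have h1 := T.d_self q
  have h2 := T.d_comm q p
  have h3 := T.d_comm q r
  omega

theorem len_mul (a b : G) : T.len (a * b) ≤ T.len a + T.len b := by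
  have h := T.d_tri a⁻¹ 1 b
  unfold d at h
  simp only [inv_inv, mul_one, inv_one, one_mul] at h
  exact_mod_cast h

/-- `g` translates along the points `g ^ n * y` with step `τ` -/
def Axis (g y : G) (τ : ℕ) : Prop := ∀ n : ℕ, T.len (y⁻¹ * g ^ n * y) = n * τ

variable {T}

theorem Axis.inv {g y : G} {τ : ℕ} (h : T.Axis g y τ) : T.Axis g⁻¹ y τ := by
  intro n
  have := h n
  rw [← T.len_inv] at this
  rw [← this]
  congr 1
  simp [mul_assoc]

theorem Axis.d_pow {g y : G} {τ : ℕ} (h : T.Axis g y τ) (n : ℕ) :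
    T.d y (g ^ n * y) = n * τ := by
  have := h n
  unfold d
  rw [← mul_assoc, this]
  push_cast
  rfl

theorem Axis.d_pow' {g y : G} {τ : ℕ} (h : T.Axis g y τ) {m n : ℕ} (hmn : m ≤ n) :
    T.d (g ^ m * y) (g ^ n * y) = (n - m : ℕ) * τ := by
  obtain ⟨k, rfl⟩ := Nat.exists_eq_add_of_le hmn
  rw [pow_add, mul_assoc, d_smul, h.d_pow]
  simp

theorem Axis.d_pow_inv {g y : G} {τ : ℕ} (h : T.Axis g y τ) (m n : ℕ) :
    T.d (g⁻¹ ^ m * y) (g ^ n * y) = (m + n : ℕ) * τ := by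
  rw [← T.d_smul (g ^ m)]
  have e1 : g ^ m * (g⁻¹ ^ m * y) = y := by simp
  rw [e1, ← mul_assoc, ← pow_add, h.d_pow]

theorem Axis.antitone {g y : G} {τ : ℕ} (h : T.Axis g y τ) (x : G) {m n : ℕ} (hmn : m ≤ n) :
    T.d x (g ^ n * y) - n * τ ≤ T.d x (g ^ m * y) - m * τ := by
  have h1 := h.d_pow' hmn
  have h2 := T.d_tri x (g ^ m * y) (g ^ n * y)
  have h3 : (((n - m : ℕ) : ℤ)) = n - m := by push_cast [hmn]; ring
  rw [h1, h3] at h2
  linarith

theorem Axis.exists_bus {g y : G} {τ : ℕ} (h : T.Axis g y τ) (x : G) :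
    ∃ b : ℤ, ∀ᶠ n : ℕ in atTop, T.d x (g ^ n * y) - n * τ = b := by
  -- the sequence is antitone and bounded below
  have hb : ∀ n : ℕ, - T.d x y ≤ T.d x (g ^ n * y) - n * τ := by
    intro n
    have h1 := h.d_pow n
    have h2 := T.d_tri y x (g ^ n * y)
    have h3 := T.d_comm x y
    rw [h1] at h2
    linarith
  obtain ⟨n0, hn0⟩ : ∃ n0 : ℕ, ∀ n : ℕ, T.d x (g ^ n0 * y) - n0 * τ ≤ T.d x (g ^ n * y) - n * τ := by
    by_contra hcon
    push Not at hcon
    have : ∀ k : ℕ, ∃ n : ℕ, T.d x (g ^ n * y) - n * τ ≤ T.d x y - k := by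
      intro k
      induction k with
      | zero => exact ⟨0, by simp⟩
      | succ k ih =>
        obtain ⟨n, hn⟩ := ih
        obtain ⟨m, hm⟩ := hcon n
        exact ⟨m, by push_cast; linarith [Int.add_one_le_iff.mpr hm]⟩
    obtain ⟨n, hn⟩ := this (2 * T.d x y + 1).toNat
    have h1 := hb n
    have h2 := T.d_nonneg x y
    have h3 : (((2 * T.d x y + 1).toNat : ℕ) : ℤ) = 2 * T.d x y + 1 := Int.toNat_of_nonneg (by linarith)
    rw [h3] at hn
    linarith
  refine ⟨T.d x (g ^ n0 * y) - n0 * τ, ?_⟩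
  filter_upwards [eventually_ge_atTop n0] with n hn
  exact le_antisymm (h.antitone x hn) (hn0 n)

/-- Busemann function -/
noncomputable def Axis.bus {g y : G} {τ : ℕ} (h : T.Axis g y τ) (x : G) : ℤ :=
  Classical.choose (h.exists_bus x)

theorem Axis.bus_spec {g y : G} {τ : ℕ} (h : T.Axis g y τ) (x : G) :
    ∀ᶠ n : ℕ in atTop, T.d x (g ^ n * y) - n * τ = h.bus x :=
  Classical.choose_spec (h.exists_bus x)

theorem Axis.bus_eq {g y : G} {τ : ℕ} (h : T.Axis g y τ) (x : G) (b : ℤ)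
    (hb : ∃ᶠ n : ℕ in atTop, T.d x (g ^ n * y) - n * τ = b) : h.bus x = b := by
  obtain ⟨n, h1, h2⟩ := (hb.and_eventually (h.bus_spec x)).exists
  rw [← h2, h1]

theorem Axis.bus_base {g y : G} {τ : ℕ} (h : T.Axis g y τ) (j : ℕ) :
    h.bus (g ^ j * y) = - (j * τ) := by
  apply h.bus_eq
  apply Eventually.frequently
  filter_upwards [eventually_ge_atTop j] with n hn
  rw [h.d_pow' hn]
  push_cast [hn]
  ring

theorem Axis.abs_bus_le {g y : G} {τ : ℕ} (h : T.Axis g y τ) (x : G) :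
    |h.bus x| ≤ T.d x y := by
  obtain ⟨n, hn⟩ := (h.bus_spec x).exists
  rw [← hn, abs_le]
  have h1 := h.d_pow n
  have h2 := T.d_tri y x (g ^ n * y)
  have h3 := T.d_comm x y
  have h4 := T.d_tri x y (g ^ n * y)
  constructor <;> linarith

/-- Comparison of two axes whose rays are asymptotic up to translation by `h`. -/
theorem bus_compare {g g' y : G} {τ : ℕ} (ax : T.Axis g y τ) (ax' : T.Axis g' y τ) (h : G)
    (hfar : ∀ M : ℤ, ∃ n : ℕ, M + 2 * T.d y (h * y) < n * τ ∧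
      M < T.d y (g ^ n * y) + T.d y (h * (g' ^ n * y)) - T.d (g ^ n * y) (h * (g' ^ n * y))) :
    ∃ m : ℤ, |m| ≤ T.d y (h * y) ∧ ∀ x, ax.bus (h * x) = ax'.bus x + m := by
  -- first: eventually large
  have key : ∀ M : ℤ, ∀ᶠ n : ℕ in atTop,
      M < T.d y (g ^ n * y) + T.d y (h * (g' ^ n * y)) - T.d (g ^ n * y) (h * (g' ^ n * y)) := by
    intro M
    obtain ⟨n, hn1, hn2⟩ := hfar (max M 0)
    have hM0 : (0:ℤ) ≤ max M 0 := le_max_right _ _
    have hM1 : M ≤ max M 0 := le_max_left _ _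
    generalize hM' : max M 0 = M' at *
    filter_upwards [eventually_ge_atTop n] with k hk
    -- (p_k | p_n) = 2 n τ
    have a1 := ax.d_pow k
    have a2 := ax.d_pow n
    have a3 := ax.d_pow' hk
    have b1 := ax'.d_pow k
    have b2 := ax'.d_pow n
    have b3 := ax'.d_pow' hk
    have hkn : (((k - n : ℕ) : ℤ)) = k - n := by push_cast [hk]; ring
    rw [hkn] at a3 b3
    have c1 := T.d_smul h y (g' ^ k * y)
    have c2 := T.d_smul h y (g' ^ n * y)
    have c3 := T.d_smul h (g' ^ n * y) (g' ^ k * y)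
    -- four point conditions
    have f1 := T.four y (g ^ k * y) (h * (g' ^ k * y)) (g ^ n * y)
    have f2 := T.four y (g ^ n * y) (h * (g' ^ k * y)) (h * (g' ^ n * y))
    have t1 := T.d_tri (h * y) y (h * (g' ^ n * y))
    have t2 := T.d_tri (h * y) y (h * (g' ^ k * y))
    have s1 := T.d_comm (g ^ k * y) (g ^ n * y)
    have s2 := T.d_comm (h * y) y
    have D0 := T.d_nonneg y (h * y)
    have e : (k:ℤ) * τ = (k - n) * τ + n * τ := by ring
    have vpos : 0 ≤ ((k:ℤ) - n) * τ := by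
      apply mul_nonneg
      · have : (n:ℤ) ≤ k := by exact_mod_cast hk
        linarith
      · positivity
    rw [e] at a1 b1
    generalize (n:ℤ) * τ = u at *
    generalize ((k:ℤ) - n) * τ = v at *
    omega
  have hcomp : ∀ x : G, ∀ᶠ n : ℕ in atTop,
      T.d x (g ^ n * y) - n * τ = T.d x (h * (g' ^ n * y)) - T.d y (h * (g' ^ n * y)) := by
    intro x
    filter_upwards [key (2 * T.d x y)] with n hn
    have a1 := ax.d_pow n
    have t1 := T.d_tri x y (g ^ n * y)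
    have t2 := T.d_tri y x (g ^ n * y)
    have t3 := T.d_tri x y (h * (g' ^ n * y))
    have t4 := T.d_tri y x (h * (g' ^ n * y))
    have t5 := T.d_comm x y
    have f1 := T.four y x (g ^ n * y) (h * (g' ^ n * y))
    have f2 := T.four y x (h * (g' ^ n * y)) (g ^ n * y)
    have s1 := T.d_comm (g ^ n * y) (h * (g' ^ n * y))
    rw [← a1]
    omega
  refine ⟨- ax'.bus (h⁻¹ * y), ?_, ?_⟩
  · rw [abs_neg]
    refine (ax'.abs_bus_le _).trans (le_of_eq ?_)
    rw [← T.d_smul h, mul_inv_cancel_left]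
  · intro x
    obtain ⟨n, h1, h2, h3, h4⟩ := ((ax.bus_spec (h * x)).and ((ax'.bus_spec x).and
      ((ax'.bus_spec (h⁻¹ * y)).and (hcomp (h * x))))).exists
    rw [← h1, ← h2, ← h3, h4]
    have e1 : T.d (h * x) (h * (g' ^ n * y)) = T.d x (g' ^ n * y) := T.d_smul _ _ _
    have e2 : T.d y (h * (g' ^ n * y)) = T.d (h⁻¹ * y) (g' ^ n * y) := by
      rw [← T.d_smul h (h⁻¹ * y), mul_inv_cancel_left]
    rw [e1, e2]
    ring

/-- ping-pong from separated axes -/
theorem pp_of_bounded {g y : G} {τ : ℕ} (ax : T.Axis g y τ) (h : G) (n : ℕ) (M : ℤ) (hM : 0 ≤ M)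
    (hn : M + 2 * T.d y (h * y) < n * τ)
    (h1 : T.d y (g ^ n * y) + T.d y (h * (g ^ n * y)) - T.d (g ^ n * y) (h * (g ^ n * y)) ≤ M)
    (h2 : T.d y (g ^ n * y) + T.d y (h * (g⁻¹ ^ n * y)) - T.d (g ^ n * y) (h * (g⁻¹ ^ n * y)) ≤ M)
    (h3 : T.d y (g⁻¹ ^ n * y) + T.d y (h * (g ^ n * y)) - T.d (g⁻¹ ^ n * y) (h * (g ^ n * y)) ≤ M)
    (h4 : T.d y (g⁻¹ ^ n * y) + T.d y (h * (g⁻¹ ^ n * y)) - T.d (g⁻¹ ^ n * y) (h * (g⁻¹ ^ n * y)) ≤ M) :
    PP (g ^ n) (h * g ^ n * h⁻¹) := by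
  have ax' := ax.inv
  -- translation by g^n
  have trans : ∀ x : G, T.d y x + T.d y (g⁻¹ ^ n * y) - T.d x (g⁻¹ ^ n * y) ≤
        M + 2 * T.d y (h * y) →
      M + 2 * T.d y (h * y) < T.d y (g ^ n * x) + T.d y (g ^ n * y) - T.d (g ^ n * x) (g ^ n * y) := by
    intro x hx
    have a1 := ax.d_pow n
    have a2 := ax'.d_pow n
    have e1 : T.d y (g ^ n * x) = T.d x (g⁻¹ ^ n * y) := by
      rw [T.d_comm, ← T.d_smul (g ^ n) x]
      congr 1
      simp
    have e2 := T.d_smul (g ^ n) x y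
    have e3 := T.d_comm x y
    rw [e1, e2, a1, e3]
    rw [a2] at hx
    linarith
  have D0 := T.d_nonneg y (h * y)
  have pq : T.d (g⁻¹ ^ n * y) (g ^ n * y) = n * τ + n * τ := by
    rw [ax.d_pow_inv n n]; push_cast; ring
  have a1 := ax.d_pow n
  have a2 := ax'.d_pow n
  refine ⟨{x | M + 2 * T.d y (h * y) < T.d y x + T.d y (g ^ n * y) - T.d x (g ^ n * y)},
    {x | M + 2 * T.d y (h * y) < T.d y x + T.d y (g⁻¹ ^ n * y) - T.d x (g⁻¹ ^ n * y)},
    {x | M + 2 * T.d y (h * y) < T.d y (h⁻¹ * x) + T.d y (g ^ n * y) - T.d (h⁻¹ * x) (g ^ n * y)},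
    {x | M + 2 * T.d y (h * y) < T.d y (h⁻¹ * x) + T.d y (g⁻¹ ^ n * y) - T.d (h⁻¹ * x) (g⁻¹ ^ n * y)},
    ?_, ?_, ?_, ?_, ?_, ?_, ?_, ?_⟩
  · rw [Set.disjoint_left]
    intro x hx hx'
    rw [Set.mem_ofPred_eq] at hx hx'
    have f := T.four y (g⁻¹ ^ n * y) (g ^ n * y) x
    have s := T.d_comm x (g⁻¹ ^ n * y)
    omega
  · rw [Set.disjoint_left]
    intro x hx hx'
    rw [Set.mem_ofPred_eq] at hx hx'
    have f := T.four y (g⁻¹ ^ n * y) (g ^ n * y) (h⁻¹ * x)
    have s := T.d_comm (h⁻¹ * x) (g⁻¹ ^ n * y)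
    omega
  all_goals first
    | (rw [Set.disjoint_left]
       intro x hx hx'
       rw [Set.mem_ofPred_eq] at hx hx'
       have b1 : T.d y (h⁻¹ * x) = T.d (h * y) x := by
         rw [← T.d_smul h y, mul_inv_cancel_left]
       have b2 : T.d (h⁻¹ * x) (g ^ n * y) = T.d x (h * (g ^ n * y)) := by
         rw [← T.d_smul h (h⁻¹ * x), mul_inv_cancel_left]
       have b3 : T.d (h⁻¹ * x) (g⁻¹ ^ n * y) = T.d x (h * (g⁻¹ ^ n * y)) := by
         rw [← T.d_smul h (h⁻¹ * x), mul_inv_cancel_left]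
       have c1 := T.d_smul h y (g ^ n * y)
       have c2 := T.d_smul h y (g⁻¹ ^ n * y)
       have t1 := T.d_tri (h * y) y x
       have t2 := T.d_tri (h * y) y (h * (g ^ n * y))
       have t3 := T.d_tri (h * y) y (h * (g⁻¹ ^ n * y))
       have s1 := T.d_comm y (h * y)
       have s2 := T.d_comm x (g ^ n * y)
       have s3 := T.d_comm x (g⁻¹ ^ n * y)
       have f1 := T.four y (g ^ n * y) (h * (g ^ n * y)) x
       have f2 := T.four y (g ^ n * y) (h * (g⁻¹ ^ n * y)) x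
       have f3 := T.four y (g⁻¹ ^ n * y) (h * (g ^ n * y)) x
       have f4 := T.four y (g⁻¹ ^ n * y) (h * (g⁻¹ ^ n * y)) x
       omega)
    | skip
  · intro x hx
    rw [Set.mem_ofPred_eq, not_lt] at hx
    exact trans x hx
  · intro x hx
    rw [Set.mem_ofPred_eq, not_lt] at hx
    rw [Set.mem_ofPred_eq]
    have := trans _ hx
    have e : h⁻¹ * (h * g ^ n * h⁻¹ * x) = g ^ n * (h⁻¹ * x) := by group
    rw [e]
    exact this

/-- an element preserving the Busemann function fixes points of the axis -/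
theorem Axis.fix_of_bus {g y : G} {τ : ℕ} (ax : T.Axis g y τ) (k : G)
    (hk : ∀ x, ax.bus (k * x) = ax.bus x) (j : ℕ) (hj : T.d y (k * y) ≤ 2 * (j * τ)) :
    T.d (g ^ j * y) (k * (g ^ j * y)) = 0 := by
  have b1 := ax.bus_spec (k * (g ^ j * y))
  have b2 := ax.bus_spec (k * y)
  obtain ⟨n, hn1, hn2, hn⟩ := (b1.and (b2.and (eventually_ge_atTop j))).exists
  rw [hk, ax.bus_base] at hn1
  rw [hk] at hn2
  have hy : ax.bus y = 0 := by
    have := ax.bus_base 0
    simpa using this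
  rw [hy] at hn2
  have a1 := ax.d_pow n
  have a2 := ax.d_pow j
  have a3 := ax.d_pow' hn
  have hkn : (((n - j : ℕ) : ℤ)) = n - j := by push_cast [hn]; ring
  rw [hkn] at a3
  have e : (n:ℤ) * τ = (n - j) * τ + j * τ := by ring
  rw [e] at a1 hn1 hn2
  have c1 := T.d_smul k y (g ^ j * y)
  have f1 := T.four (g ^ n * y) (k * (g ^ j * y)) (g ^ j * y) y
  have f2 := T.four (g ^ n * y) (k * (g ^ j * y)) y (k * y)
  have s1 := T.d_comm (g ^ n * y) (k * (g ^ j * y))
  have s2 := T.d_comm (g ^ n * y) (g ^ j * y)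
  have s3 := T.d_comm (g ^ n * y) y
  have s4 := T.d_comm (g ^ n * y) (k * y)
  have s5 := T.d_comm (k * (g ^ j * y)) y
  have s6 := T.d_comm (k * (g ^ j * y)) (k * y)
  have s7 := T.d_comm (k * y) y
  have s8 := T.d_comm (k * (g ^ j * y)) (g ^ j * y)
  have p := T.d_nonneg (g ^ j * y) (k * (g ^ j * y))
  generalize (j:ℤ) * τ = u at *
  generalize ((n:ℤ) - j) * τ = v at *
  omega

end TreeLen

end Pool.Agent.Helper81
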