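import Pool.Agent.Helper81.RD.Busemann

set_option autoImplicit false
open Classical Filter

namespace Pool.Agent.Helper81

/-- A system of finite balls in a group. -/
structure BallSys {G : Type*} [Group G] (B : ℕ → Set G) : Prop where
  fin : ∀ r, (B r).Finite
  inv : ∀ r, ∀ x ∈ B r, x⁻¹ ∈ B r
  mul : ∀ r s x y, x ∈ B r → y ∈ B s → x * y ∈ B (r + s)

/-- Polynomial growth of a subset relative to a ball system. -/
def PolyIn {G : Type*} [Group G] (B : ℕ → Set G) (S : Set G) : Prop :=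
  ∃ C k : ℕ, ∀ r : ℕ, (S ∩ B r).ncard ≤ C * (1 + r) ^ k

namespace TreeLen

variable {G : Type*} [Group G] {T : TreeLen G}

/-- the stabilizer of a Busemann function -/
noncomputable def Axis.busStab {g y : G} {τ : ℕ} (ax : T.Axis g y τ) (H : Subgroup G) :
    Subgroup G where
  carrier := {k | k ∈ H ∧ ∀ x, ax.bus (k * x) = ax.bus x}
  mul_mem' := by
    rintro a b ⟨ha, ha'⟩ ⟨hb, hb'⟩
    refine ⟨H.mul_mem ha hb, fun x => ?_⟩
    rw [mul_assoc, ha', hb']
  one_mem' := ⟨H.one_mem, fun x => by rw [one_mul]⟩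
  inv_mem' := by
    rintro a ⟨ha, ha'⟩
    refine ⟨H.inv_mem ha, fun x => ?_⟩
    have := ha' (a⁻¹ * x)
    rw [mul_inv_cancel_left] at this
    exact this.symm

theorem Axis.busStab_le {g y : G} {τ : ℕ} (ax : T.Axis g y τ) (H : Subgroup G) :
    ax.busStab H ≤ H := fun _ hk => hk.1

theorem Axis.busStab_fix {g y : G} {τ : ℕ} (hτ : 1 ≤ τ) (ax : T.Axis g y τ) (H : Subgroup G)
    (k : G) (hk : k ∈ ax.busStab H) :
    ∃ p q : G, T.d p (k * p) = 0 ∧ T.d q (k * q) = 0 ∧ 1 ≤ T.d p q := by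
  obtain ⟨j, hj⟩ : ∃ j : ℕ, T.d y (k * y) ≤ j := ⟨(T.d y (k * y)).toNat, Int.self_le_toNat _⟩
  have hτ' : (1:ℤ) ≤ τ := by exact_mod_cast hτ
  have hj0 : (0:ℤ) ≤ j := by positivity
  refine ⟨g ^ j * y, g ^ (j + 1) * y, ax.fix_of_bus k hk.2 j ?_, ax.fix_of_bus k hk.2 (j+1) ?_, ?_⟩
  · nlinarith
  · push_cast
    nlinarith
  · rw [ax.d_pow' (Nat.le_succ j)]
    simpa using hτ

/-- sign choice of a generator of the axis -/
def sgn (g : G) (s : Bool) : G := if s then g else g⁻¹

theorem Axis.sgn {g y : G} {τ : ℕ} (ax : T.Axis g y τ) (s : Bool) : T.Axis (sgn g s) y τ := by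
  cases s
  · simpa [TreeLen.sgn] using ax.inv
  · simpa [TreeLen.sgn] using ax

/-- in a subgroup without ping-pong every element maps an end of the axis to an end of the axis -/
theorem exists_signs {H : Subgroup G} (hH : NPP H) {g y : G} (hg : g ∈ H) {τ : ℕ} (hτ : 1 ≤ τ)
    (ax : T.Axis g y τ) (h : G) (hh : h ∈ H) :
    ∃ s e : Bool, ∃ m : ℤ, |m| ≤ T.d y (h * y) ∧
      ∀ x, (ax.sgn s).bus (h * x) = (ax.sgn e).bus x + m := by
  -- for each M there is a pair of signs
  have key : ∀ M : ℕ, ∃ p : Bool × Bool, ∃ n : ℕ, (M:ℤ) + 2 * T.d y (h * y) < n * τ ∧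
      (M:ℤ) < T.d y ((TreeLen.sgn g p.1) ^ n * y) + T.d y (h * ((TreeLen.sgn g p.2) ^ n * y)) -
        T.d ((TreeLen.sgn g p.1) ^ n * y) (h * ((TreeLen.sgn g p.2) ^ n * y)) := by
    intro M
    by_contra hcon
    push Not at hcon
    obtain ⟨n, hn⟩ : ∃ n : ℕ, (M:ℤ) + 2 * T.d y (h * y) + 1 ≤ n :=
      ⟨((M:ℤ) + 2 * T.d y (h * y) + 1).toNat, Int.self_le_toNat _⟩
    have hτ' : (1:ℤ) ≤ τ := by exact_mod_cast hτ
    have hn0 : (0:ℤ) ≤ n := by positivity
    have hn' : (M:ℤ) + 2 * T.d y (h * y) < n * τ := by nlinarith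
    have c1 := hcon (true, true) n hn'
    have c2 := hcon (true, false) n hn'
    have c3 := hcon (false, true) n hn'
    have c4 := hcon (false, false) n hn'
    simp only [TreeLen.sgn, if_true, if_false, Bool.false_eq_true] at c1 c2 c3 c4
    exact hH (g ^ n) (H.pow_mem hg n) (h * g ^ n * h⁻¹)
      (H.mul_mem (H.mul_mem hh (H.pow_mem hg n)) (H.inv_mem hh))
      (pp_of_bounded ax h n M (by positivity) hn' c1 c2 c3 c4)
  choose p hp using key
  obtain ⟨q, hq⟩ := Finite.exists_infinite_fiber p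
  have hq' : (p ⁻¹' {q}).Infinite := Set.infinite_coe_iff.mp hq
  obtain ⟨m, hm1, hm2⟩ := bus_compare (ax.sgn q.1) (ax.sgn q.2) h (by
    intro M
    obtain ⟨M', hM', hlt⟩ := hq'.exists_gt M.toNat
    obtain ⟨n, h1, h2⟩ := hp M'
    have hM'' : p M' = q := hM'
    rw [hM''] at h2
    have : M ≤ M' := (Int.self_le_toNat M).trans (by exact_mod_cast hlt.le)
    exact ⟨n, by linarith, by linarith⟩)
  exact ⟨q.1, q.2, m, hm1, hm2⟩

/-- **Growth reduction**: a subgroup without ping-pong containing a translation and not of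
polynomial growth contains a subgroup, not of polynomial growth, all of whose elements fix two
distinct points. -/
theorem growth_reduction {B : ℕ → Set G} (hB : BallSys B)
    (hlen : ∀ r, ∀ x ∈ B r, T.len x ≤ r)
    {H : Subgroup G} (hH : NPP H) {g y : G} (hg : g ∈ H) {τ : ℕ} (hτ : 1 ≤ τ)
    (ax : T.Axis g y τ) (hbad : ¬ PolyIn B (H : Set G)) :
    ∃ K : Subgroup G, K ≤ H ∧ ¬ PolyIn B (K : Set G) ∧
      ∀ k ∈ K, ∃ p q : G, T.d p (k * p) = 0 ∧ T.d q (k * q) = 0 ∧ 1 ≤ T.d p q := by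
  by_contra hcon
  push Not at hcon
  have hpoly : ∀ e : Bool, PolyIn B ((ax.sgn e).busStab H : Set G) := by
    intro e
    by_contra hbad'
    obtain ⟨k, hk, hk'⟩ := hcon _ ((ax.sgn e).busStab_le H) hbad'
    obtain ⟨p, q, h1, h2, h3⟩ := (ax.sgn e).busStab_fix hτ H k hk
    exact absurd (hk' p q h1 h2) (not_lt.mpr h3)
  obtain ⟨C0, k0, hC0⟩ := hpoly false
  obtain ⟨C1, k1, hC1⟩ := hpoly true
  have hC : ∀ e : Bool, ∀ r : ℕ, (((ax.sgn e).busStab H : Set G) ∩ B r).ncard ≤
      (C0 + C1) * (1 + r) ^ (k0 + k1) := by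
    intro e r
    cases e
    · refine (hC0 r).trans ?_
      exact Nat.mul_le_mul (Nat.le_add_right _ _)
        (Nat.pow_le_pow_right (by omega) (Nat.le_add_right _ _))
    · refine (hC1 r).trans ?_
      exact Nat.mul_le_mul (Nat.le_add_left _ _)
        (Nat.pow_le_pow_right (by omega) (Nat.le_add_left _ _))
  apply hbad
  set ℓ := T.len y with hℓ
  refine ⟨4 * (4 * ℓ + 3) * ((C0 + C1) * 2 ^ (k0 + k1)), 1 + (k0 + k1), fun r => ?_⟩
  -- classes
  have hcls : ∀ h : G, ∃ c : Bool × Bool × ℤ, h ∈ (H : Set G) ∩ B r →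
      (c.2.2 ∈ Finset.Icc (-(2 * ℓ + r : ℤ)) (2 * ℓ + r) ∧
        ∀ x, (ax.sgn c.1).bus (h * x) = (ax.sgn c.2.1).bus x + c.2.2) := by
    intro h
    by_cases hh : h ∈ (H : Set G) ∩ B r
    · obtain ⟨s, e, m, hm, hx⟩ := exists_signs hH hg hτ ax h hh.1
      refine ⟨(s, e, m), fun _ => ⟨?_, hx⟩⟩
      have h1 : T.d y (h * y) ≤ 2 * ℓ + r := by
        have h2 : T.len h ≤ r := hlen r h hh.2
        have h3 := T.len_mul (y⁻¹ * h) y
        have h4 := T.len_mul y⁻¹ h
        rw [T.len_inv] at h4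
        unfold d
        rw [← mul_assoc]
        have : T.len (y⁻¹ * h * y) ≤ 2 * ℓ + r := by omega
        exact_mod_cast this
      rw [Finset.mem_Icc, ← abs_le]
      exact hm.trans h1
    · exact ⟨(true, true, 0), fun h' => absurd h' hh⟩
  choose c hc using hcls
  have hfinH : ((H : Set G) ∩ B r).Finite := (hB.fin r).subset Set.inter_subset_right
  set S := hfinH.toFinset with hS
  have hSmem : ∀ h, h ∈ S ↔ h ∈ (H : Set G) ∩ B r := fun h => Set.Finite.mem_toFinset _
  rw [Set.ncard_eq_toFinset_card _ hfinH, ← hS]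
  -- the target set of classes
  set Cl : Finset (Bool × Bool × ℤ) :=
    Finset.univ ×ˢ (Finset.univ ×ˢ Finset.Icc (-(2 * ℓ + r : ℤ)) (2 * ℓ + r)) with hCl
  have hmaps : ∀ h ∈ S, c h ∈ Cl := by
    intro h hh
    rw [hCl, Finset.mem_product, Finset.mem_product]
    exact ⟨Finset.mem_univ _, Finset.mem_univ _, (hc h ((hSmem h).mp hh)).1⟩
  have hfib : ∀ q ∈ Cl, (S.filter (fun h => c h = q)).card ≤
      (C0 + C1) * (1 + 2 * r) ^ (k0 + k1) := by
    intro q _
    rcases (S.filter (fun h => c h = q)).eq_empty_or_nonempty with hem | ⟨h0, hh0⟩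
    · rw [hem, Finset.card_empty]
      exact Nat.zero_le _
    · rw [Finset.mem_filter, hSmem] at hh0
      have hfinK : (((ax.sgn q.2.1).busStab H : Set G) ∩ B (2 * r)).Finite :=
        (hB.fin _).subset Set.inter_subset_right
      calc (S.filter (fun h => c h = q)).card
          = ((S.filter (fun h => c h = q)).image (fun h => h0⁻¹ * h)).card := by
            rw [Finset.card_image_of_injective]
            exact mul_right_injective _
        _ ≤ hfinK.toFinset.card := by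
            apply Finset.card_le_card
            intro z hz
            rw [Finset.mem_image] at hz
            obtain ⟨h, hh, rfl⟩ := hz
            rw [Finset.mem_filter, hSmem] at hh
            rw [Set.Finite.mem_toFinset]
            refine ⟨⟨H.mul_mem (H.inv_mem hh0.1.1) hh.1.1, fun x => ?_⟩, ?_⟩
            · have e1 := (hc h hh.1).2 x
              have e2 := (hc h0 hh0.1).2 (h0⁻¹ * h * x)
              rw [hh.2] at e1
              rw [hh0.2] at e2
              have e3 : h0 * (h0⁻¹ * h * x) = h * x := by group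
              rw [e3, e1] at e2
              linarith
            · have := hB.mul r r _ _ (hB.inv r _ hh0.1.2) hh.1.2
              rwa [← two_mul] at this
        _ = (((ax.sgn q.2.1).busStab H : Set G) ∩ B (2 * r)).ncard :=
            (Set.ncard_eq_toFinset_card _ hfinK).symm
        _ ≤ _ := hC _ _
  have hcount := Finset.card_le_mul_card_image_of_maps_to (f := c) (s := S) (t := Cl) hmaps
    _ hfib
  have hClcard : Cl.card = 4 * (4 * ℓ + 2 * r + 1) := by
    rw [hCl, Finset.card_product, Finset.card_product, Int.card_Icc]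
    simp only [Finset.card_univ, Fintype.card_bool]
    have : ((2 * ℓ + r : ℤ) + 1 - (-(2 * ℓ + r))).toNat = 4 * ℓ + 2 * r + 1 := by omega
    rw [this]
    ring
  rw [hClcard] at hcount
  refine hcount.trans ?_
  have e1 : (1 + 2 * r) ^ (k0 + k1) ≤ 2 ^ (k0 + k1) * (1 + r) ^ (k0 + k1) := by
    rw [← mul_pow]
    exact Nat.pow_le_pow_left (by omega) _
  have e2 : 4 * (4 * ℓ + 2 * r + 1) ≤ 4 * (4 * ℓ + 3) * (1 + r) := by nlinarith
  calc (C0 + C1) * (1 + 2 * r) ^ (k0 + k1) * (4 * (4 * ℓ + 2 * r + 1))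
      ≤ (C0 + C1) * (2 ^ (k0 + k1) * (1 + r) ^ (k0 + k1)) * (4 * (4 * ℓ + 3) * (1 + r)) := by
        exact Nat.mul_le_mul (Nat.mul_le_mul_left _ e1) e2
    _ = 4 * (4 * ℓ + 3) * ((C0 + C1) * 2 ^ (k0 + k1)) * (1 + r) ^ (1 + (k0 + k1)) := by
        rw [pow_add (1 + r) 1]
        ring

end TreeLen

end Pool.Agent.Helper81
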