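import Pool.Agent.Helper81.RD.RAAG
import Pool.Agent.Helper81.RD.Growth

set_option autoImplicit false
open Classical

namespace Pool.Agent.Helper81

/-- a translation has no fixed points -/
theorem TreeLen.Axis.not_elliptic {G : Type*} [Group G] {T : TreeLen G} {g y : G} {τ : ℕ}
    (hτ : 1 ≤ τ) (ax : T.Axis g y τ) (z : G) : T.len (z⁻¹ * g * z) ≠ 0 := by
  intro hz
  have h1 : T.d z (g * z) = 0 := by
    unfold TreeLen.d
    rw [← mul_assoc, hz]
    rfl
  have h2 : ∀ n : ℕ, T.d z (g ^ n * z) = 0 := by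
    intro n
    induction n with
    | zero => simpa using T.d_self z
    | succ n ih =>
      have e1 := T.d_tri z (g ^ n * z) (g ^ (n + 1) * z)
      have e2 : T.d (g ^ n * z) (g ^ (n + 1) * z) = 0 := by
        rw [pow_succ, mul_assoc, T.d_smul, h1]
      have e3 := T.d_nonneg z (g ^ (n + 1) * z)
      omega
  have h3 := ax.d_pow (2 * (T.d y z).toNat + 1)
  have h4 := h2 (2 * (T.d y z).toNat + 1)
  have h5 := T.d_tri y z (g ^ (2 * (T.d y z).toNat + 1) * y)
  have h6 := T.d_tri z (g ^ (2 * (T.d y z).toNat + 1) * z) (g ^ (2 * (T.d y z).toNat + 1) * y)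
  have h7 := T.d_smul (g ^ (2 * (T.d y z).toNat + 1)) z y
  have h8 := T.d_comm y z
  have h9 := T.d_nonneg y z
  have h10 : (((T.d y z).toNat : ℕ) : ℤ) = T.d y z := Int.toNat_of_nonneg h9
  push_cast at h3
  rw [h10] at h3
  have h11 : (1 : ℤ) ≤ τ := by exact_mod_cast hτ
  nlinarith

variable {V : Type*}

/-- no infinite clique -/
def NoInfClique (Γ : SimpleGraph V) : Prop :=
  ¬ ∃ f : ℕ → V, ∀ i j, i < j → Γ.Adj (f i) (f j)

/-- **Chain theorem** -/
theorem chain {G : Type*} [Group G] {B : ℕ → Set G} (hB : BallSys B) {Γ : SimpleGraph V}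
    (hΓ : NoInfClique Γ) (q : G →* RAAG Γ) (hsur : Function.Surjective q)
    (hq : ∀ r, ∀ x ∈ B r, ∀ v, (RAAG.len Γ v).len (q x) ≤ r)
    {H : Subgroup G} (hH : NPP H) (hbad : ¬ PolyIn B (H : Set G)) :
    ∃ K : Subgroup G, K ≤ H ∧ ¬ PolyIn B (K : Set G) ∧ K ≤ q.ker := by
  by_contra hcon
  push Not at hcon
  -- one step
  have step : ∀ K : {K : Subgroup G // K ≤ H ∧ ¬ PolyIn B (K : Set G)},
      ∃ (K' : {K : Subgroup G // K ≤ H ∧ ¬ PolyIn B (K : Set G)}) (v : V),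
        K'.1 ≤ K.1 ∧
        (∀ k ∈ K'.1, ∀ w, ¬ Γ.Adj v w → ∃ z, (RAAG.len Γ w).len (z⁻¹ * q k * z) = 0) ∧
        (∃ g ∈ K.1, ∀ z, (RAAG.len Γ v).len (z⁻¹ * q g * z) ≠ 0) := by
    rintro ⟨K, hK, hKbad⟩
    have hnot := hcon K hK hKbad
    rw [SetLike.not_le_iff_exists] at hnot
    obtain ⟨g, hg, hg'⟩ := hnot
    have hqg : q g ≠ 1 := hg'
    obtain ⟨v, y, τ, hτ, ax⟩ := RAAG.exists_translation (q g) hqg
    -- move the axis to the range: shift base point to one
    have ax0 : ∃ y0 : G, ∃ τ0 : ℕ, 1 ≤ τ0 ∧ ((RAAG.len Γ v).comap q).Axis g y0 τ0 := by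
      obtain ⟨y0, rfl⟩ := hsur y
      refine ⟨y0, τ, hτ, fun n => ?_⟩
      have := ax n
      simpa [TreeLen.comap] using this
    obtain ⟨y0, τ0, hτ0, ax0⟩ := ax0
    obtain ⟨K', hK', hbad', hfix⟩ := TreeLen.growth_reduction (T := (RAAG.len Γ v).comap q) hB
      (fun r x hx => hq r x hx v) (hH.mono hK) hg hτ0 ax0 hKbad
    refine ⟨⟨K', hK'.trans hK, hbad'⟩, v, hK', ?_, g, hg, fun z => ax.not_elliptic hτ z⟩
    intro k hk w hw
    obtain ⟨p, p', h1, h2, h3⟩ := hfix k hk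
    exact RAAG.elliptic_of_fix Γ v (k := q k) (p := q p) (q := q p')
      (by have := h1; unfold TreeLen.d at this ⊢; simpa [TreeLen.comap] using this)
      (by have := h2; unfold TreeLen.d at this ⊢; simpa [TreeLen.comap] using this)
      (by have := h3; unfold TreeLen.d at this ⊢; simpa [TreeLen.comap] using this) w hw
  choose nxt vtx h1 h2 h3 using step
  let s : ℕ → {K : Subgroup G // K ≤ H ∧ ¬ PolyIn B (K : Set G)} :=
    fun n => Nat.rec ⟨H, le_refl _, hbad⟩ (fun _ K => nxt K) n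
  have hs : ∀ n, s (n + 1) = nxt (s n) := fun n => rfl
  have hanti : ∀ i j, i ≤ j → (s j).1 ≤ (s i).1 := by
    intro i j hij
    induction j, hij using Nat.le_induction with
    | base => exact le_refl _
    | succ j _ ih =>
      rw [hs]
      exact (h1 (s j)).trans ih
  apply hΓ
  refine ⟨fun n => vtx (s n), fun i j hij => ?_⟩
  by_contra hadj
  obtain ⟨g, hg, hg'⟩ := h3 (s j)
  have hg2 : g ∈ (nxt (s i)).1 := by
    rw [← hs]
    exact hanti (i + 1) j hij hg
  obtain ⟨z, hz⟩ := h2 (s i) g hg2 _ hadj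
  exact hg' z hz

end Pool.Agent.Helper81
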