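import Pool.Agent.Helper81.RD.HNN2

set_option autoImplicit false
open Classical HNNExtension

namespace Pool.Agent.Helper81

/-- a conjugation invariant symmetric subset without infinite cliques -/
structure CliqueFree {G : Type*} [Group G] (C : Set G) : Prop where
  conj : ∀ x ∈ C, ∀ g, g * x * g⁻¹ ∈ C
  inv : ∀ x ∈ C, x⁻¹ ∈ C
  one : (1 : G) ∉ C
  nic : ¬ ∃ f : ℕ → G, ∀ i j, i < j → (f i)⁻¹ * f j ∈ C

namespace HNN

variable {G : Type*} [Group G] {A B : Subgroup G} {φ : A ≃* B}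

/-- conjugates of a subset of the base -/
def cls (φ : A ≃* B) (C : Set G) : Set (HNNExtension G A B φ) :=
  {x | ∃ g : HNNExtension G A B φ, ∃ c ∈ C, x = g * of c * g⁻¹}

theorem cls_of {C : Set G} {c : G} (hc : c ∈ C) : (of c : HNNExtension G A B φ) ∈ cls φ C :=
  ⟨1, c, hc, by simp⟩

theorem cls_conj {C : Set G} {x : HNNExtension G A B φ} (hx : x ∈ cls φ C)
    (g : HNNExtension G A B φ) : g * x * g⁻¹ ∈ cls φ C := by
  obtain ⟨h, c, hc, rfl⟩ := hx
  exact ⟨g * h, c, hc, by group⟩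

theorem cls_inv {C : Set G} (hC : ∀ x ∈ C, x⁻¹ ∈ C) {x : HNNExtension G A B φ}
    (hx : x ∈ cls φ C) : x⁻¹ ∈ cls φ C := by
  obtain ⟨h, c, hc, rfl⟩ := hx
  exact ⟨h, c⁻¹, hC c hc, by rw [map_inv]; group⟩

/-- elements of the class are elliptic -/
theorem cls_elliptic {C : Set G} {x : HNNExtension G A B φ} (hx : x ∈ cls φ C) :
    ∃ u : HNNExtension G A B φ, hl (u⁻¹ * x * u) = 0 := by
  obtain ⟨h, c, hc, rfl⟩ := hx
  refine ⟨h, ?_⟩
  have : h⁻¹ * (h * of c * h⁻¹) * h = of c := by group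
  rw [this, hl_of]

theorem t_conj_mem (u : ℤˣ) {C : Set G} (hα : ∀ a : A, (a : G) ∈ C ↔ (φ a : G) ∈ C)
    (b : G) (hb : b ∈ toSubgroup A B (-u)) (hbC : b ∈ C) :
    ∃ b' ∈ C, (t ^ (u : ℤ))⁻¹ * of b * t ^ (u : ℤ) = (of b' : HNNExtension G A B φ) := by
  rcases Int.units_eq_one_or u with rfl | rfl
  · -- b ∈ B
    have hb' : b ∈ B := hb
    refine ⟨(φ.symm ⟨b, hb'⟩ : A), ?_, ?_⟩
    · rw [hα, MulEquiv.apply_symm_apply]
      exact hbC
    · have := equiv_symm_eq_conj (φ := φ) ⟨b, hb'⟩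
      simpa using this.symm
  · have hb' : b ∈ A := by simpa using hb
    refine ⟨(φ ⟨b, hb'⟩ : B), ?_, ?_⟩
    · rw [← hα]
      exact hbC
    · have := equiv_eq_conj (φ := φ) ⟨b, hb'⟩
      simpa using this.symm

/-- the class meets the base in the original class -/
theorem cls_inter {C : Set G} (hconj : ∀ x ∈ C, ∀ g, g * x * g⁻¹ ∈ C)
    (hα : ∀ a : A, (a : G) ∈ C ↔ (φ a : G) ∈ C) {b : G}
    (hb : (of b : HNNExtension G A B φ) ∈ cls φ C) : b ∈ C := by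
  have key : ∀ n : ℕ, ∀ q : HNNExtension G A B φ, hl q = n → ∀ c ∈ C, ∀ b : G,
      q⁻¹ * of c * q = of b → b ∈ C := by
    intro n
    induction n with
    | zero =>
      intro q hq c hc b h
      rw [hl_eq_zero] at hq
      obtain ⟨q0, rfl⟩ := hq
      have h2 := hconj c hc q0⁻¹
      have h3 : (of (q0⁻¹ * c * q0⁻¹⁻¹) : HNNExtension G A B φ) = of b := by
        rw [← h]; simp
      rw [of_injective φ h3] at h2
      exact h2
    | succ n ih =>
      intro q hq c hc b h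
      obtain ⟨g0, b0, u, hb0, hw, hs1, hs2⟩ := edge_of_fix (of c) q (hl_of c) (by omega)
        (by rw [h]; exact hl_of b)
      have hc' : b0 ∈ C := by
        have h3 : (of c : HNNExtension G A B φ) = of (g0 * b0 * g0⁻¹) := by
          rw [hw]; simp
        have h4 := of_injective φ h3
        have h5 := hconj c hc g0⁻¹
        rw [h4] at h5
        have h6 : g0⁻¹ * (g0 * b0 * g0⁻¹) * g0⁻¹⁻¹ = b0 := by group
        rwa [h6] at h5
      obtain ⟨b1, hb1, hb1'⟩ := t_conj_mem u hα b0 hb0 hc'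
      set s : HNNExtension G A B φ := of g0 * t ^ (u : ℤ) with hs
      apply ih (s⁻¹ * q) (by omega) b1 hb1 b
      rw [← hb1', ← h, hw, hs]
      group
  obtain ⟨g, c, hc, h⟩ := hb
  exact key _ g⁻¹ rfl c hc b (by rw [inv_inv]; exact h.symm)

/-- **Claim X** -/
theorem claimX {d d1 u : HNNExtension G A B φ} (hd : hl d ≠ 0) (hu : hl (u⁻¹ * d * u) = 0)
    (hd1 : hl d1 = 0) (hell : ∃ p, hl (p⁻¹ * (d1⁻¹ * d) * p) = 0) :
    hl u ≠ 0 ∧ 2 ≤ (hl u : ℤ) + hl u - hl ((d1⁻¹ * u)⁻¹ * u) := by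
  have fixl : ∀ w q : HNNExtension G A B φ, hl w = 0 → hl (w * q) = hl q := by
    intro w q hw
    have h3 := (treeLen φ).len_mul w q
    have h4 := (treeLen φ).len_mul w⁻¹ (w * q)
    change hl (w * q) ≤ hl w + hl q at h3
    change hl (w⁻¹ * (w * q)) ≤ hl w⁻¹ + hl (w * q) at h4
    rw [inv_mul_cancel_left, hl_inv] at h4
    omega
  have fixr : ∀ w q : HNNExtension G A B φ, hl w = 0 → hl (q * w) = hl q := by
    intro w q hw
    rw [← hl_inv, mul_inv_rev, fixl _ _ (by rw [hl_inv]; exact hw), hl_inv]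
  have hu0 : hl u ≠ 0 := by
    intro h0
    apply hd
    have e : d = u * (u⁻¹ * d * u) * u⁻¹ := by group
    rw [e, fixr _ _ (by rw [hl_inv]; exact h0), fixl _ _ h0, hu]
  refine ⟨hu0, ?_⟩
  -- an element fixing p has product with p equal to its length
  have ell : ∀ q p : HNNExtension G A B φ, hl (p⁻¹ * q * p) = 0 →
      (hl q : ℤ) + hl p - hl (q⁻¹ * p) = hl q := by
    intro q p hp
    have e : q⁻¹ * p = p * (p⁻¹ * q * p)⁻¹ := by group
    rw [e, fixr _ _ (by rw [hl_inv]; exact hp)]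
    ring
  have ell' : ∀ q p : HNNExtension G A B φ, hl (p⁻¹ * q * p) = 0 →
      (hl q⁻¹ : ℤ) + hl p - hl (q⁻¹⁻¹ * p) = hl q := by
    intro q p hp
    rw [ell q⁻¹ p (by rw [← hl_inv]; rw [← hp]; congr 1; group), hl_inv]
  set e := d1⁻¹ * d with he
  have hle : hl e = hl d := fixl _ _ (by rw [hl_inv]; exact hd1)
  obtain ⟨p, hp⟩ := hell
  have f0 := hl_hyp e e⁻¹ p
  have g1 := ell e p hp
  have g2 := ell' e p hp
  have g2' : (hl p : ℤ) + hl e⁻¹ - hl (p⁻¹ * e⁻¹) = hl e := by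
    have : hl (p⁻¹ * e⁻¹) = hl (e⁻¹⁻¹ * p) := by
      rw [← hl_inv (e⁻¹⁻¹ * p)]; congr 1; group
    rw [this]
    linarith
  rw [g1, g2', min_self] at f0
  -- (d1⁻¹ u | e) = ℓ(d)
  have h1 : (hl (d1⁻¹ * u) : ℤ) + hl e - hl ((d1⁻¹ * u)⁻¹ * e) = hl d := by
    have := ell d u hu
    have e1 : hl ((d1⁻¹ * u)⁻¹ * e) = hl (d⁻¹ * u) := by
      rw [← hl_inv (d⁻¹ * u), he]; congr 1; group
    rw [e1, fixl _ _ (by rw [hl_inv]; exact hd1), hle]
    linarith
  -- (e⁻¹ | u) = ℓ(d)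
  have h2 : (hl e⁻¹ : ℤ) + hl u - hl (e⁻¹⁻¹ * u) = hl d := by
    have := ell' d u hu
    have e1 : hl (e⁻¹⁻¹ * u) = hl (d⁻¹⁻¹ * u) := by
      have : e⁻¹⁻¹ * u = d1⁻¹ * (d⁻¹⁻¹ * u) := by rw [he]; group
      rw [this, fixl _ _ (by rw [hl_inv]; exact hd1)]
    have e2 : hl e⁻¹ = hl d⁻¹ := by rw [hl_inv, hl_inv, hle]
    rw [e1, e2]
    linarith
  have f1 := hl_hyp (d1⁻¹ * u) e⁻¹ e
  have f2 := hl_hyp (d1⁻¹ * u) u e⁻¹
  have hpos : (1 : ℤ) ≤ hl d := by omega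
  have hdu : hl (d1⁻¹ * u) = hl u := fixl _ _ (by rw [hl_inv]; exact hd1)
  rw [h1] at f1
  rw [h2] at f2
  obtain ⟨c, hc⟩ := hl_parity (d1⁻¹ * u) u
  rw [hdu] at f1 f2 hc
  rw [min_le_iff] at f1 f2
  omega

/-- in the situation of claim X the element of the base fixes the first step -/
theorem fix_step {d d1 u : HNNExtension G A B φ} (hd : hl d ≠ 0) (hu : hl (u⁻¹ * d * u) = 0)
    (hd1 : hl d1 = 0) (hell : ∃ p, hl (p⁻¹ * (d1⁻¹ * d) * p) = 0) (s : HNNExtension G A B φ)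
    (hs1 : hl s = 1) (hs2 : hl (s⁻¹ * u) + 1 = hl u) : hl (s⁻¹ * d1 * s) = 0 := by
  obtain ⟨hu0, h2⟩ := claimX hd hu hd1 hell
  have fixl : ∀ w q : HNNExtension G A B φ, hl w = 0 → hl (w * q) = hl q := by
    intro w q hw
    have h3 := (treeLen φ).len_mul w q
    have h4 := (treeLen φ).len_mul w⁻¹ (w * q)
    change hl (w * q) ≤ hl w + hl q at h3
    change hl (w⁻¹ * (w * q)) ≤ hl w⁻¹ + hl (w * q) at h4
    rw [inv_mul_cancel_left, hl_inv] at h4
    omega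
  have hd1' : hl d1⁻¹ = 0 := by rw [hl_inv]; exact hd1
  have e1 : hl (d1⁻¹ * s) = 1 := by rw [fixl _ _ hd1', hs1]
  have e2 : hl (d1⁻¹ * u) = hl u := fixl _ _ hd1'
  have f1 := hl_hyp (d1⁻¹ * s) u (d1⁻¹ * u)
  have f2 := hl_hyp (d1⁻¹ * s) s u
  have e3 : hl ((d1⁻¹ * s)⁻¹ * (d1⁻¹ * u)) = hl (s⁻¹ * u) := by congr 1; group
  have e4 : hl (u⁻¹ * s) = hl (s⁻¹ * u) := by
    rw [← hl_inv (s⁻¹ * u)]; congr 1; group
  have e5 : hl ((d1⁻¹ * s)⁻¹ * s) = hl (s⁻¹ * d1 * s) := by congr 1; group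
  rw [e3, e1, e2] at f1
  rw [e4, e1, hs1, e5] at f2
  rw [min_le_iff] at f1 f2
  omega

/-- **No infinite cliques in HNN extensions** -/
theorem cliqueFree {C : Set G} (hC : CliqueFree C)
    (hα : ∀ a : A, (a : G) ∈ C ↔ (φ a : G) ∈ C)
    (hβ : ¬ ∃ a ∈ A, ∃ a' ∈ A, a ∈ C ∧ a' ∈ C ∧ a⁻¹ * a' ∈ C) :
    CliqueFree (cls φ C) := by
  have hβ' : ¬ ∃ b ∈ B, ∃ b' ∈ B, b ∈ C ∧ b' ∈ C ∧ b⁻¹ * b' ∈ C := by
    rintro ⟨b, hb, b', hb', h1, h2, h3⟩
    apply hβ
    refine ⟨(φ.symm ⟨b, hb⟩ : A), (φ.symm ⟨b, hb⟩).2, (φ.symm ⟨b', hb'⟩ : A),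
      (φ.symm ⟨b', hb'⟩).2, ?_, ?_, ?_⟩
    · rw [hα, MulEquiv.apply_symm_apply]; exact h1
    · rw [hα, MulEquiv.apply_symm_apply]; exact h2
    · have := (hα ((φ.symm ⟨b, hb⟩)⁻¹ * φ.symm ⟨b', hb'⟩)).2 (by
        rw [map_mul, map_inv, MulEquiv.apply_symm_apply, MulEquiv.apply_symm_apply]
        exact h3)
      exact this
  have hβu : ∀ u : ℤˣ, ¬ ∃ b ∈ toSubgroup A B u, ∃ b' ∈ toSubgroup A B u,
      b ∈ C ∧ b' ∈ C ∧ b⁻¹ * b' ∈ C := by
    intro u
    rcases Int.units_eq_one_or u with rfl | rfl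
    · exact hβ
    · exact hβ'
  refine ⟨fun x hx g => cls_conj hx g, fun x hx => cls_inv hC.inv hx, ?_, ?_⟩
  · rintro ⟨g, c, hc, h⟩
    have h2 : (of c : HNNExtension G A B φ) = 1 := by
      have : (of c : HNNExtension G A B φ) = g⁻¹ * (g * of c * g⁻¹) * g := by group
      rw [this, ← h]
      group
    have h3 : c = 1 := of_injective φ (h2.trans (map_one _).symm)
    rw [h3] at hc
    exact hC.one hc
  · rintro ⟨f, hf⟩
    -- two elements have a common fixed vertex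
    have N2 : ∀ n : ℕ, ∀ (u d1 d2 : HNNExtension G A B φ), hl u = n → hl d1 = 0 →
        hl (u⁻¹ * d2 * u) = 0 → (∃ p, hl (p⁻¹ * (d1⁻¹ * d2) * p) = 0) →
        ∃ v, hl (v⁻¹ * d1 * v) = 0 ∧ hl (v⁻¹ * d2 * v) = 0 := by
      intro n
      induction n with
      | zero =>
        intro u d1 d2 hu h1 h2 _
        refine ⟨1, by simpa using h1, ?_⟩
        rw [hl_eq_zero] at hu h2 ⊢
        obtain ⟨u0, rfl⟩ := hu
        obtain ⟨e0, he0⟩ := h2
        refine ⟨u0 * e0 * u0⁻¹, ?_⟩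
        rw [map_mul, map_mul, map_inv, he0]
        group
      | succ n ih =>
        intro u d1 d2 hu h1 h2 h3
        by_cases hd2 : hl d2 = 0
        · exact ⟨1, by simpa using h1, by simpa using hd2⟩
        · obtain ⟨g0, ε, hs1, hs2⟩ := exists_step u (by omega)
          set s : HNNExtension G A B φ := of g0 * t ^ (ε : ℤ) with hs
          have hfix := fix_step hd2 h2 h1 h3 s hs1 hs2
          obtain ⟨p, hp⟩ := h3
          obtain ⟨v, hv1, hv2⟩ := ih (s⁻¹ * u) (s⁻¹ * d1 * s) (s⁻¹ * d2 * s) (by omega) hfix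
            (by rw [← h2]; congr 1; group)
            ⟨s⁻¹ * p, by rw [← hp]; congr 1; group⟩
          refine ⟨s * v, ?_, ?_⟩
          · rw [← hv1]; congr 1; group
          · rw [← hv2]; congr 1; group
    -- normalise
    set d : ℕ → HNNExtension G A B φ := fun n => (f 0)⁻¹ * f n with hd
    have hdC : ∀ n, 0 < n → d n ∈ cls φ C := fun n hn => hf 0 n hn
    have hddC : ∀ m n, m < n → (d m)⁻¹ * d n ∈ cls φ C := by
      intro m n hmn
      have : (d m)⁻¹ * d n = (f m)⁻¹ * f n := by simp only [hd]; group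
      rw [this]
      exact hf m n hmn
    obtain ⟨w1, hw1⟩ := cls_elliptic (hdC 1 (by norm_num))
    obtain ⟨w2, hw2⟩ := cls_elliptic (hdC 2 (by norm_num))
    obtain ⟨w3, hw3⟩ := cls_elliptic (hddC 1 2 (by norm_num))
    obtain ⟨v, hv1, hv2⟩ := N2 _ (w1⁻¹ * w2) (w1⁻¹ * d 1 * w1) (w1⁻¹ * d 2 * w1) rfl hw1
      (by rw [← hw2]; congr 1; group) ⟨w1⁻¹ * w3, by rw [← hw3]; congr 1; group⟩
    -- conjugate so that the common fixed vertex is the base
    set V := w1 * v with hV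
    set e : ℕ → HNNExtension G A B φ := fun n => V⁻¹ * d n * V with he
    have heC : ∀ n, 0 < n → e n ∈ cls φ C := by
      intro n hn
      have := cls_conj (hdC n hn) V⁻¹
      rwa [inv_inv] at this
    have heeC : ∀ m n, m < n → (e m)⁻¹ * e n ∈ cls φ C := by
      intro m n hmn
      have := cls_conj (hddC m n hmn) V⁻¹
      have e1 : (e m)⁻¹ * e n = V⁻¹ * ((d m)⁻¹ * d n) * V⁻¹⁻¹ := by simp only [he]; group
      rwa [e1]
    have he1 : hl (e 1) = 0 := by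
      rw [← hv1]; simp only [he, hV]; congr 1; group
    have he2 : hl (e 2) = 0 := by
      rw [← hv2]; simp only [he, hV]; congr 1; group
    have hall : ∀ n, 3 ≤ n → hl (e n) = 0 := by
      intro n hn
      by_contra hne
      obtain ⟨u, hu⟩ := cls_elliptic (heC n (by omega))
      have hu0 := (claimX hne hu he1 (cls_elliptic (heeC 1 n (by omega)))).1
      obtain ⟨g0, ε, hs1, hs2⟩ := exists_step u hu0
      set s : HNNExtension G A B φ := of g0 * t ^ (ε : ℤ) with hs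
      have k1 := fix_step hne hu he1 (cls_elliptic (heeC 1 n (by omega))) s hs1 hs2
      have k2 := fix_step hne hu he2 (cls_elliptic (heeC 2 n (by omega))) s hs1 hs2
      rw [hl_eq_zero] at he1 he2
      obtain ⟨a1, ha1⟩ := he1
      obtain ⟨a2, ha2⟩ := he2
      have m1 : g0⁻¹ * a1 * g0 ∈ toSubgroup A B (-ε) := by
        apply britton (φ := φ)
        rw [← k1, ← ha1, hs]
        congr 1
        simp [mul_assoc]
      have m2 : g0⁻¹ * a2 * g0 ∈ toSubgroup A B (-ε) := by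
        apply britton (φ := φ)
        rw [← k2, ← ha2, hs]
        congr 1
        simp [mul_assoc]
      have c1 : a1 ∈ C := cls_inter hC.conj hα (by rw [ha1]; exact heC 1 (by norm_num))
      have c2 : a2 ∈ C := cls_inter hC.conj hα (by rw [ha2]; exact heC 2 (by norm_num))
      have c3 : a1⁻¹ * a2 ∈ C := cls_inter hC.conj hα (by
        rw [map_mul, map_inv, ha1, ha2]; exact heeC 1 2 (by norm_num))
      refine hβu (-ε) ⟨_, m1, _, m2, ?_, ?_, ?_⟩
      · have := hC.conj _ c1 g0⁻¹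
        rwa [inv_inv] at this
      · have := hC.conj _ c2 g0⁻¹
        rwa [inv_inv] at this
      · have := hC.conj _ c3 g0⁻¹
        have e1 : (g0⁻¹ * a1 * g0)⁻¹ * (g0⁻¹ * a2 * g0) = g0⁻¹ * (a1⁻¹ * a2) * g0⁻¹⁻¹ := by group
        rwa [e1]
    -- an infinite clique in the base
    have hall' : ∀ n, ∃ b : G, of b = e (n + 3) := fun n => (hl_eq_zero _).1 (hall (n + 3) (by omega))
    choose b hb using hall'
    apply hC.nic
    refine ⟨b, fun i j hij => ?_⟩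
    apply cls_inter (φ := φ) hC.conj hα
    rw [map_mul, map_inv, hb, hb]
    exact heeC _ _ (by omega)

end HNN

end Pool.Agent.Helper81
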