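import Pool.Agent.Helper81.RD.NonRDG

set_option autoImplicit false
open Classical

namespace Pool.Agent.Helper81

/-- the twenty-two relators as functions of eight group elements -/
def RL {H : Type*} [Group H] (x y z r1 r2 s u t : H) : List H :=
  [ r1 * x * r1⁻¹ * (x ^ 2)⁻¹,
    r1 * y * r1⁻¹ * y⁻¹,
    r1 * z ^ 2 * r1⁻¹ * z⁻¹,
    r2 * x * r2⁻¹ * x⁻¹,
    r2 * y * r2⁻¹ * (y ^ 2)⁻¹,
    r2 * z ^ 2 * r2⁻¹ * z⁻¹,
    s * x ^ 2 * s⁻¹ * ((x ^ 2) ^ 2)⁻¹,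
    s * (x * y ^ 2 * x⁻¹) * s⁻¹ * ((x * y ^ 2 * x⁻¹) ^ 2)⁻¹,
    s * z * s⁻¹ * z⁻¹,
    s * (y * x ^ 2 * y⁻¹) * s⁻¹ * ((y * x ^ 2 * y⁻¹) ^ 2)⁻¹,
    s * (y * z * y⁻¹) * s⁻¹ * (y * z * y⁻¹)⁻¹,
    u * x ^ 2 * u⁻¹ * (x ^ 2)⁻¹,
    u * (x * y ^ 2 * x⁻¹) * u⁻¹ * (x * y ^ 2 * x⁻¹)⁻¹,
    u * z * u⁻¹ * (z ^ 2)⁻¹,
    u * (y * x ^ 2 * y⁻¹) * u⁻¹ * (y * x ^ 2 * y⁻¹)⁻¹,
    u * (y * z * y⁻¹) * u⁻¹ * ((y * z * y⁻¹) ^ 2)⁻¹,
    cm t r1, cm t r2, cm t s, cm t (y⁻¹ * s * y), cm t u, cm t (y⁻¹ * u * y) ]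

/-- the base element -/
def cc {H : Type*} [Group H] (x y z : H) : H := (x * y ^ 2 * x⁻¹ * z)⁻¹ * (x ^ 2 * y * (x ^ 2)⁻¹ * z)

/-- the conjugacy class representative -/
def wc {H : Type*} [Group H] (x y z t : H) : H := t⁻¹ * cc x y z * t * (cc x y z)⁻¹

theorem map_RL {H H' : Type*} [Group H] [Group H'] (f : H →* H') (x y z r1 r2 s u t : H) :
    (RL x y z r1 r2 s u t).map f = RL (f x) (f y) (f z) (f r1) (f r2) (f s) (f u) (f t) := by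
  simp only [RL, List.map_cons, List.map_nil, map_mul, map_inv, map_pow, cm]

theorem map_wc {H H' : Type*} [Group H] [Group H'] (f : H →* H') (x y z t : H) :
    f (wc x y z t) = wc (f x) (f y) (f z) (f t) := by
  simp only [wc, cc, map_mul, map_inv, map_pow]

/-- generators of the free group of rank eight -/
abbrev o8 (i : Fin 8) : FreeGroup (Fin 8) := FreeGroup.of i

/-- relators of K -/
noncomputable def R8 : Finset (FreeGroup (Fin 8)) :=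
  (RL (o8 0) (o8 1) (o8 2) (o8 3) (o8 4) (o8 5) (o8 6) (o8 7)).toFinset

/-- class representative in the free group -/
def c8 : FreeGroup (Fin 8) := wc (o8 0) (o8 1) (o8 2) (o8 7)

/-- universal property of K -/
theorem exists_hom8 {H : Type*} [Group H] (x y z r1 r2 s u t : H)
    (h : ∀ a ∈ RL x y z r1 r2 s u t, a = 1) :
    ∃ f : KK 8 R8 →* H, f (pr R8 (o8 0)) = x ∧ f (pr R8 (o8 1)) = y ∧ f (pr R8 (o8 2)) = z ∧
      f (pr R8 (o8 3)) = r1 ∧ f (pr R8 (o8 4)) = r2 ∧ f (pr R8 (o8 5)) = s ∧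
      f (pr R8 (o8 6)) = u ∧ f (pr R8 (o8 7)) = t := by
  let g : Fin 8 → H := ![x, y, z, r1, r2, s, u, t]
  have hg : ∀ r ∈ (↑R8 : Set (FreeGroup (Fin 8))), FreeGroup.lift g r = 1 := by
    intro r hr
    rw [Finset.mem_coe, R8, List.mem_toFinset] at hr
    apply h
    have := List.mem_map_of_mem (f := FreeGroup.lift g) hr
    rw [map_RL] at this
    simpa [g, o8] using this
  refine ⟨PresentedGroup.toGroup hg, ?_⟩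
  refine ⟨?_, ?_, ?_, ?_, ?_, ?_, ?_, ?_⟩ <;>
  · exact (PresentedGroup.toGroup.of hg).trans rfl

/-- the relations hold in K -/
theorem RL_K : ∀ a ∈ RL (pr R8 (o8 0)) (pr R8 (o8 1)) (pr R8 (o8 2)) (pr R8 (o8 3)) (pr R8 (o8 4))
    (pr R8 (o8 5)) (pr R8 (o8 6)) (pr R8 (o8 7)), a = 1 := by
  intro a ha
  rw [← map_RL, List.mem_map] at ha
  obtain ⟨r, hr, rfl⟩ := ha
  apply PresentedGroup.one_of_mem
  rw [Finset.mem_coe, R8, List.mem_toFinset]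
  exact hr

section alg

variable {H : Type*} [Group H] {x y z r1 r2 s u t : H}

theorem conj_pow' {a b g : H} (h : g * a * g⁻¹ = b) (n : ℕ) : g * a ^ n * g⁻¹ = b ^ n := by
  rw [← h, conj_pow]

/-- repeated doubling -/
theorem conj_iter {a g : H} (h : g * a * g⁻¹ = a ^ 2) (n : ℕ) : g ^ n * a * (g ^ n)⁻¹ = a ^ 2 ^ n := by
  induction n with
  | zero => simp
  | succ n ih =>
    calc g ^ (n + 1) * a * (g ^ (n + 1))⁻¹ = g * (g ^ n * a * (g ^ n)⁻¹) * g⁻¹ := by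
          rw [pow_succ']; group
      _ = g * a ^ 2 ^ n * g⁻¹ := by rw [ih]
      _ = (a ^ 2) ^ 2 ^ n := conj_pow' h _
      _ = _ := by rw [← pow_mul, pow_succ, mul_comm]

/-- the words W(m,k) -/
def WW (x y z : H) (m k : ℕ) : H :=
  (z ^ 2 ^ k)⁻¹ * ((x * y ^ 2 * x⁻¹) ^ 2 ^ m)⁻¹ * (x ^ 2) ^ 2 ^ m * ((y * x ^ 2 * y⁻¹) ^ 2 ^ m)⁻¹ *
    (y * z * y⁻¹) ^ 2 ^ k

theorem WW_eq (x y z : H) (m k : ℕ) : WW x y z m k * y =
    (x * y ^ 2 ^ (m + 1) * x⁻¹ * z ^ 2 ^ k)⁻¹ * (x ^ 2 ^ (m + 1) * y * (x ^ 2 ^ (m + 1))⁻¹ *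
      z ^ 2 ^ k) := by
  have e1 : (x * y ^ 2 * x⁻¹) ^ 2 ^ m = x * y ^ 2 ^ (m + 1) * x⁻¹ := by
    rw [conj_pow, ← pow_mul, pow_succ 2 m, mul_comm (2 ^ m) 2]
  have e2 : (y * x ^ 2 * y⁻¹) ^ 2 ^ m = y * x ^ 2 ^ (m + 1) * y⁻¹ := by
    rw [conj_pow, ← pow_mul, pow_succ 2 m, mul_comm (2 ^ m) 2]
  have e3 : (x ^ 2) ^ 2 ^ m = x ^ 2 ^ (m + 1) := by
    rw [← pow_mul, pow_succ 2 m, mul_comm (2 ^ m) 2]
  have e4 : (y * z * y⁻¹) ^ 2 ^ k = y * z ^ 2 ^ k * y⁻¹ := conj_pow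
  unfold WW
  rw [e1, e2, e3, e4]
  group

theorem conj5 {g a1 a2 a3 a4 a5 b1 b2 b3 b4 b5 : H} (h1 : g * a1 * g⁻¹ = b1)
    (h2 : g * a2 * g⁻¹ = b2) (h3 : g * a3 * g⁻¹ = b3) (h4 : g * a4 * g⁻¹ = b4)
    (h5 : g * a5 * g⁻¹ = b5) :
    g * (a1⁻¹ * a2⁻¹ * a3 * a4⁻¹ * a5) * g⁻¹ = b1⁻¹ * b2⁻¹ * b3 * b4⁻¹ * b5 := by
  subst h1 h2 h3 h4 h5
  group

theorem pow_two_succ (a : H) (m : ℕ) : (a ^ 2) ^ 2 ^ m = a ^ 2 ^ (m + 1) := by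
  rw [← pow_mul, pow_succ 2 m, mul_comm (2 ^ m) 2]

theorem s_conj (h1 : s * x ^ 2 * s⁻¹ = (x ^ 2) ^ 2)
    (h2 : s * (x * y ^ 2 * x⁻¹) * s⁻¹ = (x * y ^ 2 * x⁻¹) ^ 2) (h3 : s * z * s⁻¹ = z)
    (h4 : s * (y * x ^ 2 * y⁻¹) * s⁻¹ = (y * x ^ 2 * y⁻¹) ^ 2)
    (h5 : s * (y * z * y⁻¹) * s⁻¹ = y * z * y⁻¹) (m k : ℕ) :
    s * WW x y z m k * s⁻¹ = WW x y z (m + 1) k := by
  unfold WW
  rw [conj5 (conj_pow' h3 (2 ^ k)) (conj_pow' h2 (2 ^ m)) (conj_pow' h1 (2 ^ m))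
    (conj_pow' h4 (2 ^ m)) (conj_pow' h5 (2 ^ k))]
  simp only [pow_two_succ]

theorem u_conj (h1 : u * x ^ 2 * u⁻¹ = x ^ 2)
    (h2 : u * (x * y ^ 2 * x⁻¹) * u⁻¹ = x * y ^ 2 * x⁻¹) (h3 : u * z * u⁻¹ = z ^ 2)
    (h4 : u * (y * x ^ 2 * y⁻¹) * u⁻¹ = y * x ^ 2 * y⁻¹)
    (h5 : u * (y * z * y⁻¹) * u⁻¹ = (y * z * y⁻¹) ^ 2) (m k : ℕ) :
    u * WW x y z m k * u⁻¹ = WW x y z m (k + 1) := by
  unfold WW
  rw [conj5 (conj_pow' h3 (2 ^ k)) (conj_pow' h2 (2 ^ m)) (conj_pow' h1 (2 ^ m))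
    (conj_pow' h4 (2 ^ m)) (conj_pow' h5 (2 ^ k))]
  simp only [pow_two_succ]

theorem WW_iter (hs : ∀ m k, s * WW x y z m k * s⁻¹ = WW x y z (m + 1) k)
    (hu : ∀ m k, u * WW x y z m k * u⁻¹ = WW x y z m (k + 1)) (m k : ℕ) :
    WW x y z m k = s ^ m * u ^ k * WW x y z 0 0 * (s ^ m * u ^ k)⁻¹ := by
  have h1 : ∀ k, WW x y z 0 k = u ^ k * WW x y z 0 0 * (u ^ k)⁻¹ := by
    intro k
    induction k with
    | zero => simp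
    | succ k ih =>
      rw [← hu, ih, pow_succ']
      group
  induction m with
  | zero =>
    rw [h1 k]
    simp
  | succ m ih =>
    rw [← hs, ih, pow_succ']
    group

/-- the elements p -/
def pp (x y z : H) (i j : ℕ) : H := x ^ 2 ^ i * y ^ 2 ^ j * (x ^ 2 ^ i)⁻¹ * z

theorem key_clique (h : ∀ a ∈ RL x y z r1 r2 s u t, a = 1) (i m l : ℕ) :
    ∃ g : H, (pp x y z i (m + 1 + l) * t * (pp x y z i (m + 1 + l))⁻¹)⁻¹ *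
      (pp x y z (i + m + 1) l * t * (pp x y z (i + m + 1) l)⁻¹) = g * wc x y z t * g⁻¹ := by
  simp only [RL, List.mem_cons, forall_eq_or_imp, List.not_mem_nil, false_imp_iff,
    forall_const, and_true, mul_inv_eq_one, cm_eq_one] at h
  obtain ⟨a1, a2, a3, b1, b2, b3, s1, s2, s3, s4, s5, u1, u2, u3, u4, u5, t1, t2, t3, t4, t5, t6⟩ :=
    h
  have hW := WW_iter (s_conj s1 s2 s3 s4 s5) (u_conj u1 u2 u3 u4 u5) m (i + l)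
  set A := s ^ m * u ^ (i + l) with hA
  -- conjugation by r1 and r2
  have X1 : r1 ^ i * x * (r1 ^ i)⁻¹ = x ^ 2 ^ i := conj_iter a1 i
  have Y1 : r1 ^ i * y * (r1 ^ i)⁻¹ = y := by
    have : Commute r1 y := by
      rw [mul_inv_eq_iff_eq_mul] at a2
      exact a2
    rw [mul_inv_eq_iff_eq_mul]
    exact (this.pow_left i).eq
  have X2 : r2 ^ l * x * (r2 ^ l)⁻¹ = x := by
    have : Commute r2 x := by
      rw [mul_inv_eq_iff_eq_mul] at b1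
      exact b1
    rw [mul_inv_eq_iff_eq_mul]
    exact (this.pow_left l).eq
  have Y2 : r2 ^ l * y * (r2 ^ l)⁻¹ = y ^ 2 ^ l := conj_iter b2 l
  have Zgen : ∀ (r : H), r * z ^ 2 * r⁻¹ = z → ∀ n, r ^ n * z ^ 2 ^ n * (r ^ n)⁻¹ = z := by
    intro r hr n
    induction n with
    | zero => simp
    | succ n ih =>
      calc r ^ (n + 1) * z ^ 2 ^ (n + 1) * (r ^ (n + 1))⁻¹
          = r ^ n * (r * (z ^ 2) ^ 2 ^ n * r⁻¹) * (r ^ n)⁻¹ := by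
            rw [pow_two_succ]; group
        _ = r ^ n * z ^ 2 ^ n * (r ^ n)⁻¹ := by rw [conj_pow' hr]
        _ = z := ih
  have Z1 := Zgen r1 a3 i
  have Z2 := Zgen r2 b3 l
  -- P and Q
  set g := r1 ^ i * r2 ^ l with hg
  have Zg : g * z ^ 2 ^ (i + l) * g⁻¹ = z := by
    have e : z ^ 2 ^ (i + l) = (z ^ 2 ^ l) ^ 2 ^ i := by rw [← pow_mul, pow_add, mul_comm]
    calc g * z ^ 2 ^ (i + l) * g⁻¹ = r1 ^ i * (r2 ^ l * (z ^ 2 ^ l) ^ 2 ^ i * (r2 ^ l)⁻¹) *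
          (r1 ^ i)⁻¹ := by rw [e, hg]; group
      _ = r1 ^ i * z ^ 2 ^ i * (r1 ^ i)⁻¹ := by rw [conj_pow' Z2]
      _ = z := Z1
  have Xg : g * x * g⁻¹ = x ^ 2 ^ i := by
    calc g * x * g⁻¹ = r1 ^ i * (r2 ^ l * x * (r2 ^ l)⁻¹) * (r1 ^ i)⁻¹ := by rw [hg]; group
      _ = _ := by rw [X2, X1]
  have Yg : g * y * g⁻¹ = y ^ 2 ^ l := by
    calc g * y * g⁻¹ = r1 ^ i * (r2 ^ l * y * (r2 ^ l)⁻¹) * (r1 ^ i)⁻¹ := by rw [hg]; group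
      _ = r1 ^ i * y ^ 2 ^ l * (r1 ^ i)⁻¹ := by rw [Y2]
      _ = _ := by rw [conj_pow' Y1]
  have hP : g * (x * y ^ 2 ^ (m + 1) * x⁻¹ * z ^ 2 ^ (i + l)) * g⁻¹ =
      pp x y z i (m + 1 + l) := by
    have e : g * (x * y ^ 2 ^ (m + 1) * x⁻¹ * z ^ 2 ^ (i + l)) * g⁻¹ =
        (g * x * g⁻¹) * (g * y ^ 2 ^ (m + 1) * g⁻¹) * (g * x * g⁻¹)⁻¹ *
          (g * z ^ 2 ^ (i + l) * g⁻¹) := by group
    rw [e, Xg, Zg, conj_pow' Yg, pp, ← pow_mul, ← pow_add, add_comm l]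
  have hQ : g * (x ^ 2 ^ (m + 1) * y * (x ^ 2 ^ (m + 1))⁻¹ * z ^ 2 ^ (i + l)) * g⁻¹ =
      pp x y z (i + m + 1) l := by
    have e : g * (x ^ 2 ^ (m + 1) * y * (x ^ 2 ^ (m + 1))⁻¹ * z ^ 2 ^ (i + l)) * g⁻¹ =
        (g * x ^ 2 ^ (m + 1) * g⁻¹) * (g * y * g⁻¹) * (g * x ^ 2 ^ (m + 1) * g⁻¹)⁻¹ *
          (g * z ^ 2 ^ (i + l) * g⁻¹) := by group
    rw [e, conj_pow' Xg, Zg, Yg, pp, ← pow_mul, ← pow_add, add_assoc]
  set P := pp x y z i (m + 1 + l)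
  set Q := pp x y z (i + m + 1) l
  have hcc : cc x y z = WW x y z 0 0 * y := by
    rw [WW_eq]
    simp [cc]
  -- P⁻¹ Q = g W y g⁻¹
  have hPQ : P⁻¹ * Q = (g * A) * cc x y z * (y⁻¹ * A⁻¹ * y * g⁻¹) := by
    rw [← hP, ← hQ]
    have e : (g * (x * y ^ 2 ^ (m + 1) * x⁻¹ * z ^ 2 ^ (i + l)) * g⁻¹)⁻¹ *
        (g * (x ^ 2 ^ (m + 1) * y * (x ^ 2 ^ (m + 1))⁻¹ * z ^ 2 ^ (i + l)) * g⁻¹) =
        g * (WW x y z m (i + l) * y) * g⁻¹ := by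
      rw [WW_eq]; group
    rw [e, hW, hcc]
    group
  have tg : Commute t g := (t1.pow_right i).mul_right (t2.pow_right l)
  have tA : Commute t A := (t3.pow_right m).mul_right (t5.pow_right (i + l))
  have tB : Commute t (y⁻¹ * A⁻¹ * y) := by
    have e : y⁻¹ * A⁻¹ * y = ((y⁻¹ * s * y) ^ m * (y⁻¹ * u * y) ^ (i + l))⁻¹ := by
      have c1 := conj_pow (a := y⁻¹) (b := s) (i := m)
      have c2 := conj_pow (a := y⁻¹) (b := u) (i := i + l)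
      rw [inv_inv] at c1 c2
      rw [c1, c2, hA]
      group
    rw [e]
    exact ((t4.pow_right m).mul_right (t6.pow_right _)).inv_right
  have tS : Commute t (g * A) := tg.mul_right tA
  have tS2 : Commute t (y⁻¹ * A⁻¹ * y * g⁻¹) := tB.mul_right tg.inv_right
  set S1 := g * A
  set S2 := y⁻¹ * A⁻¹ * y * g⁻¹
  refine ⟨P * S1, ?_⟩
  have hQ' : Q = P * S1 * cc x y z * S2 := by
    have : Q = P * (P⁻¹ * Q) := by group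
    rw [this, hPQ]
    group
  rw [hQ', wc]
  have f1 : t⁻¹ * S1 = S1 * t⁻¹ := (tS.inv_left).eq
  have f2 : S2 * t = t * S2 := tS2.eq.symm
  calc (P * t * P⁻¹)⁻¹ * (P * S1 * cc x y z * S2 * t * (P * S1 * cc x y z * S2)⁻¹)
      = P * (t⁻¹ * S1) * cc x y z * (S2 * t) * S2⁻¹ * (cc x y z)⁻¹ * S1⁻¹ * P⁻¹ := by group
    _ = P * (S1 * t⁻¹) * cc x y z * (t * S2) * S2⁻¹ * (cc x y z)⁻¹ * S1⁻¹ * P⁻¹ := by rw [f1, f2]
    _ = _ := by group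

/-- short words for p -/
def pw (x y z r1 r2 : H) (i j : ℕ) : H :=
  (r1 ^ i * x * (r1 ^ i)⁻¹) * (r2 ^ j * y * (r2 ^ j)⁻¹) * (r1 ^ i * x⁻¹ * (r1 ^ i)⁻¹) * z

theorem pw_eq_pp (h : ∀ a ∈ RL x y z r1 r2 s u t, a = 1) (i j : ℕ) :
    pw x y z r1 r2 i j = pp x y z i j := by
  simp only [RL, List.mem_cons, forall_eq_or_imp, List.not_mem_nil, false_imp_iff,
    forall_const, and_true, mul_inv_eq_one, cm_eq_one] at h
  obtain ⟨a1, a2, a3, b1, b2, b3, -⟩ := h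
  have X1 : r1 ^ i * x * (r1 ^ i)⁻¹ = x ^ 2 ^ i := conj_iter a1 i
  have Y2 : r2 ^ j * y * (r2 ^ j)⁻¹ = y ^ 2 ^ j := conj_iter b2 j
  have e : r1 ^ i * x⁻¹ * (r1 ^ i)⁻¹ = (r1 ^ i * x * (r1 ^ i)⁻¹)⁻¹ := by group
  unfold pw pp
  rw [e, X1, Y2]

end alg

theorem norm_pow_le {α : Type*} [DecidableEq α] (x : FreeGroup α) (hx : x.norm ≤ 1) (n : ℕ) :
    (x ^ n).norm ≤ n := by
  induction n with
  | zero => simp
  | succ n ih =>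
    rw [pow_succ]
    have := FreeGroup.norm_mul_le (x ^ n) x
    omega

theorem norm_pw_le {α : Type*} [DecidableEq α] (x y z r1 r2 : FreeGroup α) (hx : x.norm ≤ 1) (hy : y.norm ≤ 1)
    (hz : z.norm ≤ 1) (h1 : r1.norm ≤ 1) (h2 : r2.norm ≤ 1) (i j : ℕ) :
    (pw x y z r1 r2 i j).norm ≤ 4 * i + 2 * j + 4 := by
  have n1 := norm_pow_le r1 h1 i
  have n2 := norm_pow_le r2 h2 j
  have key : ∀ (g a : FreeGroup α) (k : ℕ), g.norm ≤ k → a.norm ≤ 1 →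
      (g * a * g⁻¹).norm ≤ 2 * k + 1 := by
    intro g a k hg ha
    have e1 := FreeGroup.norm_mul_le (g * a) g⁻¹
    have e2 := FreeGroup.norm_mul_le g a
    rw [FreeGroup.norm_inv_eq] at e1
    omega
  have k1 := key _ x i n1 hx
  have k2 := key _ y j n2 hy
  have k3 := key _ x⁻¹ i n1 (by rw [FreeGroup.norm_inv_eq]; exact hx)
  unfold pw
  have e1 := FreeGroup.norm_mul_le ((r1 ^ i * x * (r1 ^ i)⁻¹) * (r2 ^ j * y * (r2 ^ j)⁻¹) *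
    (r1 ^ i * x⁻¹ * (r1 ^ i)⁻¹)) z
  have e2 := FreeGroup.norm_mul_le ((r1 ^ i * x * (r1 ^ i)⁻¹) * (r2 ^ j * y * (r2 ^ j)⁻¹))
    (r1 ^ i * x⁻¹ * (r1 ^ i)⁻¹)
  have e3 := FreeGroup.norm_mul_le (r1 ^ i * x * (r1 ^ i)⁻¹) (r2 ^ j * y * (r2 ^ j)⁻¹)
  omega

/-- **Big cliques in K** -/
theorem bigCliques (hne : pr R8 c8 ≠ 1) : BigCliques R8 c8 := by
  refine ⟨20, fun N => ?_⟩
  -- word of the i-th vertex
  let W : ℕ → FreeGroup (Fin 8) := fun i =>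
    pw (o8 0) (o8 1) (o8 2) (o8 3) (o8 4) i (N - i) * o8 7 *
      (pw (o8 0) (o8 1) (o8 2) (o8 3) (o8 4) i (N - i))⁻¹
  have hadj : ∀ i j : ℕ, i < j → j ≤ N → (Gam R8 c8).Adj (pr R8 (W i)) (pr R8 (W j)) := by
    intro i j hij hj
    obtain ⟨m, rfl⟩ : ∃ m, j = i + m + 1 := ⟨j - i - 1, by omega⟩
    obtain ⟨l, rfl⟩ : ∃ l, N = i + m + 1 + l := ⟨N - (i + m + 1), by omega⟩
    have hpr : ∀ i j, pr R8 (pw (o8 0) (o8 1) (o8 2) (o8 3) (o8 4) i j) =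
        pp (pr R8 (o8 0)) (pr R8 (o8 1)) (pr R8 (o8 2)) i j := by
      intro i j
      rw [← pw_eq_pp RL_K]
      simp only [pw, map_mul, map_inv, map_pow]
    have e1 : i + m + 1 + l - i = m + 1 + l := by omega
    have e2 : i + m + 1 + l - (i + m + 1) = l := by omega
    obtain ⟨g, hg⟩ := key_clique RL_K i m l
    have hWi : pr R8 (W i) = pp (pr R8 (o8 0)) (pr R8 (o8 1)) (pr R8 (o8 2)) i (m + 1 + l) *
        pr R8 (o8 7) * (pp (pr R8 (o8 0)) (pr R8 (o8 1)) (pr R8 (o8 2)) i (m + 1 + l))⁻¹ := by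
      simp only [W, map_mul, map_inv, hpr, e1]
    have hWj : pr R8 (W (i + m + 1)) = pp (pr R8 (o8 0)) (pr R8 (o8 1)) (pr R8 (o8 2))
        (i + m + 1) l * pr R8 (o8 7) *
        (pp (pr R8 (o8 0)) (pr R8 (o8 1)) (pr R8 (o8 2)) (i + m + 1) l)⁻¹ := by
      simp only [W, map_mul, map_inv, hpr, e2]
    rw [← hWi, ← hWj, ← map_wc] at hg
    change (pr R8 (W i))⁻¹ * pr R8 (W (i + m + 1)) = g * pr R8 c8 * g⁻¹ at hg
    refine ⟨?_, g, Or.inl hg⟩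
    intro e
    rw [e, inv_mul_cancel] at hg
    apply hne
    have : pr R8 c8 = g⁻¹ * (g * pr R8 c8 * g⁻¹) * g := by group
    rw [this, ← hg]
    group
  refine ⟨fun i => W i, ?_, ?_⟩
  · intro i
    have ho : ∀ i : Fin 8, (o8 i).norm ≤ 1 := fun i => by simp [o8]
    have h1 := norm_pw_le (o8 0) (o8 1) (o8 2) (o8 3) (o8 4) (ho _) (ho _) (ho _) (ho _) (ho _)
      i (N - i)
    have h2 := FreeGroup.norm_mul_le (pw (o8 0) (o8 1) (o8 2) (o8 3) (o8 4) i (N - i) * o8 7)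
      (pw (o8 0) (o8 1) (o8 2) (o8 3) (o8 4) i (N - i))⁻¹
    have h3 := FreeGroup.norm_mul_le (pw (o8 0) (o8 1) (o8 2) (o8 3) (o8 4) i (N - i)) (o8 7)
    have h4 := ho 7
    rw [FreeGroup.norm_inv_eq] at h2
    have hi := i.2
    change FreeGroup.norm (W i) ≤ _
    simp only [W]
    omega
  · intro i j hij
    rcases Nat.lt_or_gt_of_ne (fun e => hij (Fin.ext e)) with h | h
    · exact hadj i j h j.2.le
    · exact (hadj j i h i.2.le).symm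

end Pool.Agent.Helper81
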