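import Pool.Agent.Helper81.RD.CliqueHNN

set_option autoImplicit false
open Classical

namespace Pool.Agent.Helper81

section basic

variable {X Y Z : Type*}

/-- functions -/
abbrev Fn (X : Type*) := Multiplicative (X →₀ ℤ)

/-- push forward of functions -/
noncomputable def push (e : X → Y) : Fn X →* Fn Y where
  toFun f := Multiplicative.ofAdd (Finsupp.mapDomain e (Multiplicative.toAdd f))
  map_one' := by
    change Multiplicative.ofAdd (Finsupp.mapDomain e (0 : X →₀ ℤ)) = 1
    rw [Finsupp.mapDomain_zero]
    rfl
  map_mul' f g := by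
    change Multiplicative.ofAdd (Finsupp.mapDomain e
      (Multiplicative.toAdd f + Multiplicative.toAdd g)) = _
    rw [Finsupp.mapDomain_add]
    rfl

/-- delta function -/
noncomputable def del (p : X) : Fn X := Multiplicative.ofAdd (Finsupp.single p (1 : ℤ))

theorem push_del (e : X → Y) (p : X) : push e (del p) = del (e p) := by
  change Multiplicative.ofAdd (Finsupp.mapDomain e (Finsupp.single p (1:ℤ))) = _
  rw [Finsupp.mapDomain_single]
  rfl

theorem push_comp (e : X → Y) (e' : Y → Z) (f : Fn X) : push (e' ∘ e) f = push e' (push e f) := by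
  change Multiplicative.ofAdd (Finsupp.mapDomain (e' ∘ e) (Multiplicative.toAdd f)) = _
  rw [Finsupp.mapDomain_comp]
  rfl

theorem push_id (f : Fn X) : push id f = f := by
  change Multiplicative.ofAdd (Finsupp.mapDomain id (Multiplicative.toAdd f)) = _
  rw [Finsupp.mapDomain_id]
  rfl

theorem push_injective {e : X → Y} (he : Function.Injective e) :
    Function.Injective (push e) := by
  intro f g h
  exact Finsupp.mapDomain_injective he h

/-- permutations acting on functions -/
noncomputable def permAct (X : Type*) : Equiv.Perm X →* MulAut (Fn X) where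
  toFun α :=
    { toFun := push α
      invFun := push (α⁻¹ : Equiv.Perm X)
      left_inv := fun f => by
        rw [← push_comp]
        have : ((α⁻¹ : Equiv.Perm X) : X → X) ∘ α = id := by
          funext x; simp
        rw [this, push_id]
      right_inv := fun f => by
        rw [← push_comp]
        have : (α : X → X) ∘ ((α⁻¹ : Equiv.Perm X) : X → X) = id := by
          funext x; simp
        rw [this, push_id]
      map_mul' := map_mul _ }
  map_one' := by
    ext1 f
    exact push_id f
  map_mul' α β := by
    ext1 f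
    exact push_comp β α f

theorem permAct_apply (α : Equiv.Perm X) (f : Fn X) : permAct X α f = push α f := rfl

variable {F F' F'' : Type*} [Group F] [Group F'] [Group F'']

/-- permutational wreath product with integers -/
abbrev WR (a : F →* Equiv.Perm X) := Fn X ⋊[(permAct X).comp a] F

/-- functoriality -/
noncomputable def WRmap (a : F →* Equiv.Perm X) (a' : F' →* Equiv.Perm Y) (e : X → Y) (φ : F →* F')
    (h : ∀ w x, e (a w x) = a' (φ w) (e x)) : WR a →* WR a' :=
  SemidirectProduct.map (push e) φ (by
    intro w
    refine MonoidHom.ext fun f => ?_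
    change push e (push (a w) f) = push (a' (φ w)) (push e f)
    rw [← push_comp, ← push_comp]
    congr 1
    congr 1
    funext x
    exact h w x)

theorem WRmap_inl (a : F →* Equiv.Perm X) (a' : F' →* Equiv.Perm Y) (e : X → Y) (φ : F →* F')
    (h : ∀ w x, e (a w x) = a' (φ w) (e x)) (f : Fn X) :
    WRmap a a' e φ h (SemidirectProduct.inl f) = SemidirectProduct.inl (push e f) := by
  simp [WRmap]

theorem WRmap_inr (a : F →* Equiv.Perm X) (a' : F' →* Equiv.Perm Y) (e : X → Y) (φ : F →* F')
    (h : ∀ w x, e (a w x) = a' (φ w) (e x)) (w : F) :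
    WRmap a a' e φ h (SemidirectProduct.inr w) = SemidirectProduct.inr (φ w) := by
  simp [WRmap]

theorem WRmap_injective (a : F →* Equiv.Perm X) (a' : F' →* Equiv.Perm Y) (e : X → Y) (φ : F →* F')
    (h : ∀ w x, e (a w x) = a' (φ w) (e x)) (he : Function.Injective e)
    (hφ : Function.Injective φ) : Function.Injective (WRmap a a' e φ h) := by
  intro s s' hs
  have h1 := congrArg SemidirectProduct.left hs
  have h2 := congrArg SemidirectProduct.right hs
  simp only [WRmap, SemidirectProduct.map_left, SemidirectProduct.map_right] at h1 h2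
  exact SemidirectProduct.ext (push_injective he h1) (hφ h2)

/-- the set of difference elements of adjacent points -/
def CW (a : F →* Equiv.Perm X) (E : X → X → Prop) : Set (WR a) :=
  {w | ∃ p q, E p q ∧ w = SemidirectProduct.inl ((del p)⁻¹ * del q)}

/-- evaluation of a difference of deltas -/
theorem toAdd_diff (p q x : X) : (Multiplicative.toAdd ((del p)⁻¹ * del q) : X →₀ ℤ) x =
    (if q = x then 1 else 0) - (if p = x then 1 else 0) := by
  change (-(Finsupp.single p (1:ℤ)) + Finsupp.single q 1 : X →₀ ℤ) x = _
  rw [Finsupp.add_apply, Finsupp.neg_apply, Finsupp.single_apply, Finsupp.single_apply]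
  ring

theorem WRmap_mem_CW (a : F →* Equiv.Perm X) (a' : F' →* Equiv.Perm Y) (e : X → Y) (φ : F →* F')
    (h : ∀ w x, e (a w x) = a' (φ w) (e x)) (he : Function.Injective e)
    (hφ : Function.Injective φ) (E : Y → Y → Prop) (hirr : ∀ p, ¬ E p p) (s : WR a) :
    WRmap a a' e φ h s ∈ CW a' E ↔ s ∈ CW a (fun p q => E (e p) (e q)) := by
  constructor
  · rintro ⟨p', q', hE, hs⟩
    have hne : p' ≠ q' := by rintro rfl; exact hirr _ hE
    have h1 := congrArg SemidirectProduct.left hs
    have h2 := congrArg SemidirectProduct.right hs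
    simp only [WRmap, SemidirectProduct.map_left, SemidirectProduct.map_right,
      SemidirectProduct.left_inl, SemidirectProduct.right_inl] at h1 h2
    have hw : s.right = 1 := hφ (by rw [h2, map_one])
    have hval : ∀ x, (Finsupp.mapDomain e (Multiplicative.toAdd s.left) : Y →₀ ℤ) x =
        (if q' = x then 1 else 0) - (if p' = x then 1 else 0) := by
      intro x
      rw [← toAdd_diff, ← h1]
      rfl
    have hrange : ∀ x, (Finsupp.mapDomain e (Multiplicative.toAdd s.left) : Y →₀ ℤ) x ≠ 0 →
        ∃ p, e p = x := by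
      intro x hx
      by_contra hcon
      apply hx
      exact Finsupp.mapDomain_of_notMem_range _ _ (by rintro ⟨p, hp⟩; exact hcon ⟨p, hp⟩)
    obtain ⟨p, rfl⟩ := hrange p' (by rw [hval, if_neg hne.symm, if_pos rfl]; norm_num)
    obtain ⟨q, rfl⟩ := hrange q' (by rw [hval, if_neg hne, if_pos rfl]; norm_num)
    refine ⟨p, q, hE, SemidirectProduct.ext ?_ ?_⟩
    · apply push_injective he
      rw [h1, SemidirectProduct.left_inl, map_mul, map_inv, push_del, push_del]
    · rw [hw, SemidirectProduct.right_inl]
  · rintro ⟨p, q, hE, rfl⟩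
    refine ⟨e p, e q, hE, ?_⟩
    rw [WRmap_inl, map_mul, map_inv, push_del, push_del]

/-- combinatorics of differences -/
theorem diff_cases (a : F →* Equiv.Perm X) (E : X → X → Prop) (hirr : ∀ p, ¬ E p p)
    (hsymm : ∀ p q, E p q → E q p) {p q p' q' : X} (h1 : E p q) (h2 : E p' q')
    (h3 : (SemidirectProduct.inl ((del p)⁻¹ * del q) : WR a)⁻¹ *
      SemidirectProduct.inl ((del p')⁻¹ * del q') ∈ CW a E) :
    (p = p' ∧ E q q') ∨ (q = q' ∧ E p p') := by
  obtain ⟨p'', q'', hE, hs⟩ := h3
  have n1 : p ≠ q := by rintro rfl; exact hirr _ h1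
  have n2 : p' ≠ q' := by rintro rfl; exact hirr _ h2
  have n3 : p'' ≠ q'' := by rintro rfl; exact hirr _ hE
  rw [← map_inv, ← map_mul] at hs
  have hs' := SemidirectProduct.inl_injective hs
  have hval : ∀ x, ((if q' = x then 1 else 0) - (if p' = x then 1 else 0) : ℤ) -
      ((if q = x then 1 else 0) - (if p = x then 1 else 0)) =
      (if q'' = x then 1 else 0) - (if p'' = x then 1 else 0) := by
    intro x
    rw [← toAdd_diff, ← toAdd_diff, ← toAdd_diff, ← hs']
    change _ = (-(Multiplicative.toAdd ((del p)⁻¹ * del q) : X →₀ ℤ) +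
      (Multiplicative.toAdd ((del p')⁻¹ * del q') : X →₀ ℤ)) x
    rw [Finsupp.add_apply, Finsupp.neg_apply]
    ring
  by_cases hpp : p = p'
  · left
    refine ⟨hpp, ?_⟩
    subst hpp
    by_cases hqq : q = q'
    · subst hqq
      exfalso
      have := hval q''
      rw [if_neg n3] at this
      simp at this
    · have e1 := hval q
      have e2 := hval q'
      have f1 : p'' = q := by
        by_contra hne
        rw [if_neg (Ne.symm hqq), if_neg n1, if_neg hne] at e1
        simp only [if_true] at e1
        split_ifs at e1 <;> omega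
      have f2 : q'' = q' := by
        by_contra hne
        rw [if_neg n2, if_neg hqq, if_neg hne] at e2
        simp only [if_true] at e2
        split_ifs at e2 <;> omega
      rw [← f1, ← f2]
      exact hE
  · right
    have e1 := hval p
    have e2 := hval p'
    have e3 := hval q'
    have f1 : q'' = p := by
      by_contra hne
      rw [if_neg (Ne.symm hpp), if_neg (Ne.symm n1), if_neg hne] at e1
      simp only [if_true] at e1
      split_ifs at e1 <;> omega
    have f2 : p'' = p' := by
      by_contra hne
      rw [if_neg (Ne.symm n2), if_neg hpp, if_neg hne] at e2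
      simp only [if_true] at e2
      split_ifs at e2 <;> omega
    subst f1 f2
    have f3 : q = q' := by
      by_contra hne
      rw [if_neg n2, if_neg hne] at e3
      simp only [if_true] at e3
      omega
    exact ⟨f3, hsymm _ _ hE⟩

/-- **no infinite cliques in the wreath product** -/
theorem CW_cliqueFree (a : F →* Equiv.Perm X) (E : X → X → Prop) (hirr : ∀ p, ¬ E p p)
    (hsymm : ∀ p q, E p q → E q p) (hinv : ∀ w p q, E p q → E (a w p) (a w q))
    (hnic : ¬ ∃ f : ℕ → X, ∀ i j, i < j → E (f i) (f j)) : CliqueFree (CW a E) := by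
  refine ⟨?_, ?_, ?_, ?_⟩
  · rintro _ ⟨p, q, hE, rfl⟩ g
    refine ⟨a g.right p, a g.right q, hinv _ _ _ hE, ?_⟩
    have hg : g = SemidirectProduct.inl g.left * SemidirectProduct.inr g.right :=
      (SemidirectProduct.inl_left_mul_inr_right g).symm
    have h1 : (SemidirectProduct.inr g.right : WR a) * SemidirectProduct.inl ((del p)⁻¹ * del q) *
        (SemidirectProduct.inr g.right)⁻¹ =
        SemidirectProduct.inl ((del (a g.right p))⁻¹ * del (a g.right q)) := by
      rw [← map_inv, ← SemidirectProduct.inl_aut]
      congr 1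
      change push (a g.right) ((del p)⁻¹ * del q) = _
      rw [map_mul, map_inv, push_del, push_del]
    calc g * SemidirectProduct.inl ((del p)⁻¹ * del q) * g⁻¹
        = SemidirectProduct.inl g.left * (SemidirectProduct.inr g.right *
          SemidirectProduct.inl ((del p)⁻¹ * del q) * (SemidirectProduct.inr g.right)⁻¹) *
          (SemidirectProduct.inl g.left)⁻¹ := by
            conv_lhs => rw [hg]
            group
      _ = SemidirectProduct.inl (g.left * ((del (a g.right p))⁻¹ * del (a g.right q)) *
          g.left⁻¹) := by rw [h1, ← map_inv, ← map_mul, ← map_mul]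
      _ = _ := by
          congr 1
          rw [mul_comm g.left, mul_assoc, mul_inv_cancel, mul_one]
  · rintro _ ⟨p, q, hE, rfl⟩
    refine ⟨q, p, hsymm _ _ hE, ?_⟩
    rw [← map_inv]
    congr 1
    rw [mul_inv_rev, inv_inv]
  · rintro ⟨p, q, hE, h⟩
    have n1 : p ≠ q := by rintro rfl; exact hirr _ hE
    have h1 : (1 : Fn X) = (del p)⁻¹ * del q := by
      apply SemidirectProduct.inl_injective (φ := (permAct X).comp a)
      rw [map_one]
      exact h
    have h2 := toAdd_diff p q q
    rw [← h1, if_pos rfl, if_neg n1] at h2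
    simp at h2
  · rintro ⟨f, hf⟩
    have h0 : ∀ n, ∃ pq : X × X, E pq.1 pq.2 ∧
        (f 0)⁻¹ * f (n + 1) = SemidirectProduct.inl ((del pq.1)⁻¹ * del pq.2) := by
      intro n
      obtain ⟨p, q, hE, h⟩ := hf 0 (n + 1) (by omega)
      exact ⟨(p, q), hE, h⟩
    choose r hrE hr using h0
    have hpair : ∀ m n, m < n → ((r m).1 = (r n).1 ∧ E (r m).2 (r n).2) ∨
        ((r m).2 = (r n).2 ∧ E (r m).1 (r n).1) := by
      intro m n hmn
      apply diff_cases a E hirr hsymm (hrE m) (hrE n)
      rw [← hr, ← hr]
      have := hf (m + 1) (n + 1) (by omega)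
      have e : ((f 0)⁻¹ * f (m + 1))⁻¹ * ((f 0)⁻¹ * f (n + 1)) = (f (m + 1))⁻¹ * f (n + 1) := by
        group
      rw [e]
      exact this
    -- pigeonhole
    obtain ⟨b, hb⟩ := Finite.exists_infinite_fiber (fun n : ℕ => decide ((r (n + 1)).1 = (r 0).1))
    have hb' := Set.infinite_coe_iff.mp hb
    let g := Nat.orderEmbeddingOfSet
      ((fun n : ℕ => decide ((r (n + 1)).1 = (r 0).1)) ⁻¹' {b})
    have hg : ∀ n, decide ((r (g n + 1)).1 = (r 0).1) = b := by
      intro n
      have : g n ∈ ((fun n : ℕ => decide ((r (n + 1)).1 = (r 0).1)) ⁻¹' {b}) := by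
        rw [← Nat.orderEmbeddingOfSet_range
          ((fun n : ℕ => decide ((r (n + 1)).1 = (r 0).1)) ⁻¹' {b})]
        exact ⟨n, rfl⟩
      exact this
    cases b
    · -- second coordinates agree
      apply hnic
      refine ⟨fun n => (r (g n + 1)).1, fun i j hij => ?_⟩
      have hlt : g i < g j := g.strictMono hij
      have hi : (r 0).2 = (r (g i + 1)).2 := by
        rcases hpair 0 (g i + 1) (by omega) with h | h
        · have := hg i
          simp only [decide_eq_false_iff_not] at this
          exact absurd h.1.symm this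
        · exact h.1
      have hj : (r 0).2 = (r (g j + 1)).2 := by
        rcases hpair 0 (g j + 1) (by omega) with h | h
        · have := hg j
          simp only [decide_eq_false_iff_not] at this
          exact absurd h.1.symm this
        · exact h.1
      rcases hpair (g i + 1) (g j + 1) (by omega) with h | h
      · exfalso
        rw [← hi, ← hj] at h
        exact hirr _ h.2
      · exact h.2
    · apply hnic
      refine ⟨fun n => (r (g n + 1)).2, fun i j hij => ?_⟩
      have hlt : g i < g j := g.strictMono hij
      have hi := hg i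
      have hj := hg j
      simp only [decide_eq_true_eq] at hi hj
      rcases hpair (g i + 1) (g j + 1) (by omega) with h | h
      · exact h.2
      · exfalso
        rw [hi, hj] at h
        exact hirr _ h.2

end basic

section stage

variable {G 𝒜 : Type*} [Group G] [Group 𝒜]

/-- the isomorphism between the ranges of two injective homs -/
noncomputable def eqv (i j : 𝒜 →* G) (hi : Function.Injective i) (hj : Function.Injective j) :
    i.range ≃* j.range :=
  (MonoidHom.ofInjective hi).symm.trans (MonoidHom.ofInjective hj)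

theorem eqv_apply (i j : 𝒜 →* G) (hi : Function.Injective i) (hj : Function.Injective j) (s : 𝒜) :
    (eqv i j hi hj ⟨i s, s, rfl⟩ : G) = j s := by
  unfold eqv
  rw [MulEquiv.trans_apply]
  have : (MonoidHom.ofInjective hi).symm ⟨i s, s, rfl⟩ = s := by
    rw [MulEquiv.symm_apply_eq]
    rfl
  rw [this]
  rfl

theorem stage_rel (i j : 𝒜 →* G) (hi : Function.Injective i) (hj : Function.Injective j) (s : 𝒜) :
    (HNNExtension.t * HNNExtension.of (i s) * HNNExtension.t⁻¹ :
      HNNExtension G i.range j.range (eqv i j hi hj)) = HNNExtension.of (j s) := by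
  have := HNNExtension.equiv_eq_conj (φ := eqv i j hi hj) ⟨i s, s, rfl⟩
  rw [eqv_apply] at this
  exact this.symm

theorem stage_cliqueFree (i j : 𝒜 →* G) (hi : Function.Injective i) (hj : Function.Injective j)
    {C : Set G} (hC : CliqueFree C) (hα : ∀ s, i s ∈ C ↔ j s ∈ C)
    (hβ : ¬ ∃ s s', i s ∈ C ∧ i s' ∈ C ∧ i (s⁻¹ * s') ∈ C) :
    CliqueFree (HNN.cls (eqv i j hi hj) C) := by
  apply HNN.cliqueFree hC
  · rintro ⟨_, s, rfl⟩
    rw [eqv_apply]
    exact hα s
  · rintro ⟨_, ⟨s, rfl⟩, _, ⟨s', rfl⟩, h1, h2, h3⟩
    refine hβ ⟨s, s', h1, h2, ?_⟩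
    rwa [map_mul, map_inv]

theorem stage_inter (i j : 𝒜 →* G) (hi : Function.Injective i) (hj : Function.Injective j)
    {C : Set G} (hC : CliqueFree C) (hα : ∀ s, i s ∈ C ↔ j s ∈ C) (b : G) :
    (HNNExtension.of b : HNNExtension G i.range j.range (eqv i j hi hj)) ∈
      HNN.cls (eqv i j hi hj) C ↔ b ∈ C := by
  constructor
  · apply HNN.cls_inter hC.conj
    rintro ⟨_, s, rfl⟩
    rw [eqv_apply]
    exact hα s
  · exact HNN.cls_of

end stage

end Pool.Agent.Helper81
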