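import Pool.Agent.Helper81.RD.Label
import Pool.Agent.Helper81.RD.Kgroup
import Pool.Agent.Helper81.RD.Wreath

set_option autoImplicit false
open Classical

namespace Pool.Agent.Helper81

/-- the words w(m,k) with natural exponents -/
def wN (m k : ℕ) : F5 :=
  (g5 2 ^ 2 ^ k)⁻¹ * (g5 1 ^ 2 ^ m)⁻¹ * g5 0 ^ 2 ^ m * (g5 3 ^ 2 ^ m)⁻¹ * g5 4 ^ 2 ^ k

theorem zpow_two_pow {G : Type*} [Group G] (g : G) (k : ℕ) : g ^ ((2:ℤ) ^ k) = g ^ 2 ^ k := by
  rw [← zpow_natCast]
  congr 1

theorem wmk_eq (m k : ℕ) : wmk m k = wN m k := by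
  simp only [wmk, wN, zpow_neg, zpow_two_pow, mul_assoc]

theorem emb_wN (m k : ℕ) : emb (wN m k) = WW X3 Y3 Z3 m k := by
  simp only [wN, map_mul, map_inv, map_pow, emb_0, emb_1, emb_2, emb_3, emb_4, WW]

theorem emQ_of_pow (i : Fin 3) (n : ℕ) : emQ (Fin 3) (FreeGroup.of i) ^ n = Lt i n := by
  have := Lt_nsmul i 1 n
  rw [mul_one] at this
  rw [this]
  simp [emQ]

theorem emQ_of (i : Fin 3) : emQ (Fin 3) (FreeGroup.of i) = Lt i 1 := by simp [emQ]

theorem wN_mem (m k : ℕ) : emQ (Fin 3) (emb (wN m k) * Y3) ∈ DD := by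
  rw [emb_wN, WW_eq]
  refine ⟨k, m + 1, 0, m + 1, by omega, ?_, ?_⟩
  · rw [zero_sub, abs_neg, abs_of_nonneg (by positivity)]
    have : (0:ℤ) ≤ k := by positivity
    linarith
  · simp only [map_mul, map_inv, map_pow]
    have e0 : emQ (Fin 3) X3 = Lt 0 1 := emQ_of 0
    have e1 : emQ (Fin 3) Y3 = Lt 1 1 := emQ_of 1
    have h1 : emQ (Fin 3) Y3 ^ 2 ^ (m + 1) = Lt 1 (p2 (m + 1)) := by
      rw [emQ_of_pow]; congr 1; push_cast; rw [p2]; exact_mod_cast rfl
    have h2 : emQ (Fin 3) X3 ^ 2 ^ (m + 1) = Lt 0 (p2 (m + 1)) := by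
      rw [emQ_of_pow]; congr 1; push_cast; rw [p2]; exact_mod_cast rfl
    have h3 : emQ (Fin 3) Z3 ^ 2 ^ k = Lt 2 (p2 k) := by
      rw [emQ_of_pow]; congr 1; push_cast; rw [p2]; exact_mod_cast rfl
    rw [h1, h2, h3, e0, e1]
    unfold vv3
    have p0 : p2 0 = 1 := by simp [p2]
    rw [sub_zero, sub_self, p0, Lt_neg, Lt_neg]

/-- membership characterization -/
theorem Dz_iff (w : F5) : emQ (Fin 3) (emb w * Y3) ∈ DD ↔ ∃ m k, w = wN m k := by
  constructor
  · intro h
    obtain ⟨m, k, h⟩ := fact_c w h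
    exact ⟨m, k, by rw [h, wmk_eq]⟩
  · rintro ⟨m, k, rfl⟩
    exact wN_mem m k

/-- the two doubling endomorphisms -/
def dS : F5 →* F5 := FreeGroup.lift ![g5 0 ^ 2, g5 1 ^ 2, g5 2, g5 3 ^ 2, g5 4]
def dT : F5 →* F5 := FreeGroup.lift ![g5 0, g5 1, g5 2 ^ 2, g5 3, g5 4 ^ 2]

theorem dS_0 : dS (g5 0) = g5 0 ^ 2 := by simp [dS]
theorem dS_1 : dS (g5 1) = g5 1 ^ 2 := by simp [dS]
theorem dS_2 : dS (g5 2) = g5 2 := by simp [dS]
theorem dS_3 : dS (g5 3) = g5 3 ^ 2 := by simp [dS]
theorem dS_4 : dS (g5 4) = g5 4 := by simp [dS]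
theorem dT_0 : dT (g5 0) = g5 0 := by simp [dT]
theorem dT_1 : dT (g5 1) = g5 1 := by simp [dT]
theorem dT_2 : dT (g5 2) = g5 2 ^ 2 := by simp [dT]
theorem dT_3 : dT (g5 3) = g5 3 := by simp [dT]
theorem dT_4 : dT (g5 4) = g5 4 ^ 2 := by simp [dT]

theorem dS_wN (m k : ℕ) : dS (wN m k) = wN (m + 1) k := by
  simp only [wN, map_mul, map_inv, map_pow, dS_0, dS_1, dS_2, dS_3, dS_4, pow_two_succ]

theorem dT_wN (m k : ℕ) : dT (wN m k) = wN m (k + 1) := by
  simp only [wN, map_mul, map_inv, map_pow, dT_0, dT_1, dT_2, dT_3, dT_4, pow_two_succ]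

theorem scl_inj {ι : Type} (c c' : ι → ℚ) (h : ∀ i, c' i * c i = 1) :
    Function.Injective (scl c) := by
  intro x y hxy
  rw [← scl_scl c' c h x, hxy, scl_scl c' c h y]

theorem dS_injective : Function.Injective dS := by
  have h : ∀ w, emQ (Fin 5) (dS w) = scl ![2, 2, 1, 2, 1] (emQ (Fin 5) w) := by
    intro w
    have : (emQ (Fin 5)).comp dS = (scl ![2, 2, 1, 2, 1]).comp (emQ (Fin 5)) := by
      apply FreeGroup.ext_hom
      intro i
      have h2 : ∀ i : Fin 5, Lt i 1 ^ 2 = Lt i 2 := by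
        intro i
        have := Lt_nsmul i 1 2
        rw [← this]; norm_num
      fin_cases i <;> simp [dS, emQ, scl_Lt, h2]
    exact DFunLike.congr_fun this w
  intro x y hxy
  apply emQ_injective (ι := Fin 5)
  apply scl_inj ![2, 2, 1, 2, 1] ![1/2, 1/2, 1, 1/2, 1]
  · intro i
    fin_cases i <;> simp
  · rw [← h, ← h, hxy]

theorem dT_injective : Function.Injective dT := by
  have h : ∀ w, emQ (Fin 5) (dT w) = scl ![1, 1, 2, 1, 2] (emQ (Fin 5) w) := by
    intro w
    have : (emQ (Fin 5)).comp dT = (scl ![1, 1, 2, 1, 2]).comp (emQ (Fin 5)) := by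
      apply FreeGroup.ext_hom
      intro i
      have h2 : ∀ i : Fin 5, Lt i 1 ^ 2 = Lt i 2 := by
        intro i
        have := Lt_nsmul i 1 2
        rw [← this]; norm_num
      fin_cases i <;> simp [dT, emQ, scl_Lt, h2]
    exact DFunLike.congr_fun this w
  intro x y hxy
  apply emQ_injective (ι := Fin 5)
  apply scl_inj ![1, 1, 2, 1, 2] ![1, 1, 1/2, 1, 1/2]
  · intro i
    fin_cases i <;> simp
  · rw [← h, ← h, hxy]

/-- parity of a generator -/
def par (i : Fin 5) : F5 →* Multiplicative (ZMod 2) :=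
  FreeGroup.lift fun j => if j = i then Multiplicative.ofAdd 1 else 1

theorem par_self (i : Fin 5) : par i (g5 i) = Multiplicative.ofAdd 1 := by simp [par]

theorem par_other {i j : Fin 5} (h : j ≠ i) : par i (g5 j) = 1 := by simp [par, h]

theorem sq_one (a : Multiplicative (ZMod 2)) : a ^ 2 = 1 := by
  revert a
  decide

theorem par_dS (w : F5) : par 0 (dS w) = 1 := by
  have : (par 0).comp dS = 1 := by
    apply FreeGroup.ext_hom
    intro i
    fin_cases i
    · change par 0 (dS (g5 0)) = 1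
      rw [dS_0, map_pow, sq_one]
    · change par 0 (dS (g5 1)) = 1
      rw [dS_1, map_pow, sq_one]
    · change par 0 (dS (g5 2)) = 1
      rw [dS_2, par_other (by decide)]
    · change par 0 (dS (g5 3)) = 1
      rw [dS_3, map_pow, sq_one]
    · change par 0 (dS (g5 4)) = 1
      rw [dS_4, par_other (by decide)]
  exact DFunLike.congr_fun this w

theorem par_dT (w : F5) : par 2 (dT w) = 1 := by
  have : (par 2).comp dT = 1 := by
    apply FreeGroup.ext_hom
    intro i
    fin_cases i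
    · change par 2 (dT (g5 0)) = 1
      rw [dT_0, par_other (by decide)]
    · change par 2 (dT (g5 1)) = 1
      rw [dT_1, par_other (by decide)]
    · change par 2 (dT (g5 2)) = 1
      rw [dT_2, map_pow, sq_one]
    · change par 2 (dT (g5 3)) = 1
      rw [dT_3, par_other (by decide)]
    · change par 2 (dT (g5 4)) = 1
      rw [dT_4, map_pow, sq_one]
  exact DFunLike.congr_fun this w

theorem Dz_dS (w : F5) : emQ (Fin 3) (emb (dS w) * Y3) ∈ DD ↔ emQ (Fin 3) (emb w * Y3) ∈ DD := by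
  rw [Dz_iff, Dz_iff]
  constructor
  · rintro ⟨m, k, h⟩
    cases m with
    | zero =>
      exfalso
      have h1 := par_dS w
      rw [h] at h1
      simp only [wN, map_mul, map_inv, map_pow, par_self, par_other (i := 0) (j := 1) (by decide),
        par_other (i := 0) (j := 2) (by decide), par_other (i := 0) (j := 3) (by decide),
        par_other (i := 0) (j := 4) (by decide), one_pow, inv_one, one_mul, mul_one, pow_zero,
        pow_one] at h1
      exact absurd h1 (by decide)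
    | succ m =>
      refine ⟨m, k, dS_injective ?_⟩
      rw [h, dS_wN]
  · rintro ⟨m, k, rfl⟩
    exact ⟨m + 1, k, dS_wN m k⟩

theorem Dz_dT (w : F5) : emQ (Fin 3) (emb (dT w) * Y3) ∈ DD ↔ emQ (Fin 3) (emb w * Y3) ∈ DD := by
  rw [Dz_iff, Dz_iff]
  constructor
  · rintro ⟨m, k, h⟩
    cases k with
    | zero =>
      exfalso
      have h1 := par_dT w
      rw [h] at h1
      simp only [wN, map_mul, map_inv, map_pow, par_self, par_other (i := 2) (j := 1) (by decide),
        par_other (i := 2) (j := 0) (by decide), par_other (i := 2) (j := 3) (by decide),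
        par_other (i := 2) (j := 4) (by decide), one_pow, inv_one, one_mul, mul_one, pow_zero,
        pow_one] at h1
      exact absurd h1 (by decide)
    | succ k =>
      refine ⟨m, k, dT_injective ?_⟩
      rw [h, dT_wN]
  · rintro ⟨m, k, rfl⟩
    exact ⟨m, k + 1, dT_wN m k⟩

end Pool.Agent.Helper81
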