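import Pool.Agent.Helper81.RD.Facts

set_option autoImplicit false
open Classical

namespace Pool.Agent.Helper81

/-- adjacency on the free product -/
def EE (p q : Q3) : Prop := p⁻¹ * q ∈ DD

theorem EE_irr (p : Q3) : ¬ EE p p := by
  unfold EE
  rw [inv_mul_cancel]
  exact DD_one

theorem EE_symm (p q : Q3) (h : EE p q) : EE q p := by
  unfold EE at h ⊢
  have := DD_inv h
  simpa using this

/-- automorphisms of the relation -/
def AutE : Subgroup (Equiv.Perm Q3) where
  carrier := {α | ∀ p q, EE (α p) (α q) ↔ EE p q}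
  mul_mem' := by
    intro α β hα hβ p q
    rw [Equiv.Perm.mul_apply, Equiv.Perm.mul_apply, hα, hβ]
  one_mem' := fun p q => Iff.rfl
  inv_mem' := by
    intro α hα p q
    have := hα ((α⁻¹ : Equiv.Perm Q3) p) ((α⁻¹ : Equiv.Perm Q3) q)
    simpa using this.symm

/-- left multiplications -/
def lm : Q3 →* AutE :=
  (MulAction.toPermHom Q3 Q3).codRestrict AutE (by
    intro g p q
    change EE (g * p) (g * q) ↔ EE p q
    unfold EE
    have : (g * p)⁻¹ * (g * q) = p⁻¹ * q := by group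
    rw [this])

theorem lm_apply (g p : Q3) : (lm g : Equiv.Perm Q3) p = g * p := rfl

theorem lm_injective : Function.Injective lm := by
  intro g g' h
  have := congrArg (fun α : AutE => (α : Equiv.Perm Q3) 1) h
  simpa [lm_apply] using this

/-- a group automorphism preserving the difference set -/
def autOf (f : Q3 ≃* Q3) (h1 : ∀ x ∈ DD, f x ∈ DD) (h2 : ∀ x ∈ DD, f.symm x ∈ DD) : AutE :=
  ⟨f.toEquiv, by
    intro p q
    change EE (f p) (f q) ↔ EE p q
    unfold EE
    rw [← map_inv, ← map_mul]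
    constructor
    · intro h
      have := h2 _ h
      rwa [MulEquiv.symm_apply_apply] at this
    · exact h1 _⟩

/-- the first torus element -/
def ρ1 : AutE := autOf (sclE ![2, 1, 1/2] ![1/2, 1, 2] (by
    intro i
    fin_cases i <;> simp)) (fun _ h => DD_scl1 h) (fun _ h => DD_scl1' h)

/-- the second torus element -/
def ρ2 : AutE := autOf (sclE ![1, 2, 1/2] ![1, 1/2, 2] (by
    intro i
    fin_cases i <;> simp)) (fun _ h => DD_scl2 h) (fun _ h => DD_scl2' h)

theorem ρ1_apply (x : Q3) : (ρ1 : Equiv.Perm Q3) x = scl ![2, 1, 1/2] x := rfl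
theorem ρ2_apply (x : Q3) : (ρ2 : Equiv.Perm Q3) x = scl ![1, 2, 1/2] x := rfl

theorem ρ1_conj (g : Q3) : ρ1 * lm g * ρ1⁻¹ = lm (scl ![2, 1, 1/2] g) := by
  rw [mul_inv_eq_iff_eq_mul]
  apply Subtype.ext
  apply Equiv.ext
  intro p
  change scl ![2, 1, 1/2] (g * p) = scl ![2, 1, 1/2] g * scl ![2, 1, 1/2] p
  rw [map_mul]

theorem ρ2_conj (g : Q3) : ρ2 * lm g * ρ2⁻¹ = lm (scl ![1, 2, 1/2] g) := by
  rw [mul_inv_eq_iff_eq_mul]
  apply Subtype.ext
  apply Equiv.ext
  intro p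
  change scl ![1, 2, 1/2] (g * p) = scl ![1, 2, 1/2] g * scl ![1, 2, 1/2] p
  rw [map_mul]

/-- base group -/
abbrev W := WR AutE.subtype

/-- the base class -/
def C0 : Set W := CW AutE.subtype EE

theorem C0_cliqueFree : CliqueFree C0 := by
  apply CW_cliqueFree _ _ EE_irr EE_symm
  · intro w p q h
    exact (w.2 p q).2 h
  · exact DD_nic

/-- the points of the small copies -/
def eY : F5 ⊕ F5 → Q3 := Sum.elim (fun w => emQ (Fin 3) (emb w)) (fun w => emQ (Fin 3) (emb w * Y3))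

theorem eY_injective : Function.Injective eY := by
  have hi := emQ_injective (ι := Fin 3)
  rintro (w | w) (w' | w') h
  · exact congrArg Sum.inl (emb_injective (hi h))
  · exact absurd (hi h) (emb_ne w w')
  · exact absurd (hi h).symm (emb_ne w' w)
  · have := hi h
    exact congrArg Sum.inr (emb_injective (mul_right_cancel this))

/-- action of F5 on two copies of itself -/
def a5 : F5 →* Equiv.Perm (F5 ⊕ F5) :=
  (Equiv.Perm.sumCongrHom F5 F5).comp
    (MonoidHom.prod (MulAction.toPermHom F5 F5) (MulAction.toPermHom F5 F5))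

theorem a5_inl (w u : F5) : a5 w (Sum.inl u) = Sum.inl (w * u) := rfl
theorem a5_inr (w u : F5) : a5 w (Sum.inr u) = Sum.inr (w * u) := rfl

/-- the acting hom -/
def φ5 : F5 →* AutE := lm.comp ((emQ (Fin 3)).comp emb)

theorem φ5_injective : Function.Injective φ5 :=
  lm_injective.comp ((emQ_injective (ι := Fin 3)).comp emb_injective)

theorem eY_equiv (w : F5) (x : F5 ⊕ F5) : eY (a5 w x) = AutE.subtype (φ5 w) (eY x) := by
  rcases x with u | u
  · rw [a5_inl]
    change emQ (Fin 3) (emb (w * u)) = emQ (Fin 3) (emb w) * emQ (Fin 3) (emb u)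
    rw [map_mul, map_mul]
  · rw [a5_inr]
    change emQ (Fin 3) (emb (w * u) * Y3) = emQ (Fin 3) (emb w) * emQ (Fin 3) (emb u * Y3)
    rw [← map_mul, map_mul emb, mul_assoc]

/-- the small wreath product -/
abbrev SW := WR a5

/-- its embedding -/
noncomputable def iW : SW →* W := WRmap a5 AutE.subtype eY φ5 eY_equiv

theorem iW_injective : Function.Injective iW :=
  WRmap_injective _ _ _ _ _ eY_injective φ5_injective

theorem dmap_equiv (d : F5 →* F5) (w : F5) (x : F5 ⊕ F5) :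
    Sum.map d d (a5 w x) = a5 (d w) (Sum.map d d x) := by
  rcases x with u | u
  · rw [a5_inl]
    simp [a5_inl]
  · rw [a5_inr]
    simp [a5_inr]

/-- doubling on the small wreath product -/
noncomputable def dmap (d : F5 →* F5) : SW →* SW := WRmap a5 a5 (Sum.map d d) d (dmap_equiv d)

theorem dmap_injective {d : F5 →* F5} (hd : Function.Injective d) :
    Function.Injective (dmap d) :=
  WRmap_injective _ _ _ _ _ (Sum.map_injective.mpr ⟨hd, hd⟩) hd

/-- relation on the two copies -/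
def E5 (p q : F5 ⊕ F5) : Prop := EE (eY p) (eY q)

theorem E5_irr (p : F5 ⊕ F5) : ¬ E5 p p := EE_irr _

theorem E5_symm (p q : F5 ⊕ F5) (h : E5 p q) : E5 q p := EE_symm _ _ h

theorem E5_ll (w w' : F5) : ¬ E5 (Sum.inl w) (Sum.inl w') := by
  intro h
  apply fact_a (w⁻¹ * w')
  rw [map_mul, map_mul, map_inv, map_inv]
  exact h

theorem E5_rr (w w' : F5) : ¬ E5 (Sum.inr w) (Sum.inr w') := by
  intro h
  apply fact_b (w⁻¹ * w')
  have e : (eY (Sum.inr w))⁻¹ * eY (Sum.inr w') = emQ (Fin 3) (Y3⁻¹ * emb (w⁻¹ * w') * Y3) := by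
    change (emQ (Fin 3) (emb w * Y3))⁻¹ * emQ (Fin 3) (emb w' * Y3) = _
    rw [← map_inv, ← map_mul, map_mul emb, map_inv emb]
    congr 1
    group
  rw [← e]
  exact h

theorem E5_lr (w w' : F5) : E5 (Sum.inl w) (Sum.inr w') ↔
    emQ (Fin 3) (emb (w⁻¹ * w') * Y3) ∈ DD := by
  have e : (eY (Sum.inl w))⁻¹ * eY (Sum.inr w') = emQ (Fin 3) (emb (w⁻¹ * w') * Y3) := by
    change (emQ (Fin 3) (emb w))⁻¹ * emQ (Fin 3) (emb w' * Y3) = _
    rw [← map_inv, ← map_mul, map_mul emb, map_inv emb, mul_assoc]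
  unfold E5 EE
  rw [e]

theorem E5_map (d : F5 →* F5) (hd : ∀ w, emQ (Fin 3) (emb (d w) * Y3) ∈ DD ↔
    emQ (Fin 3) (emb w * Y3) ∈ DD) (p q : F5 ⊕ F5) :
    E5 (Sum.map d d p) (Sum.map d d q) ↔ E5 p q := by
  rcases p with w | w <;> rcases q with w' | w'
  · exact iff_of_false (E5_ll _ _) (E5_ll _ _)
  · change E5 (Sum.inl (d w)) (Sum.inr (d w')) ↔ _
    rw [E5_lr, E5_lr, ← map_inv, ← map_mul, hd]
  · change E5 (Sum.inr (d w)) (Sum.inl (d w')) ↔ _
    have h1 : E5 (Sum.inr (d w)) (Sum.inl (d w')) ↔ E5 (Sum.inl (d w')) (Sum.inr (d w)) :=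
      ⟨E5_symm _ _, E5_symm _ _⟩
    have h2 : E5 (Sum.inr w) (Sum.inl w') ↔ E5 (Sum.inl w') (Sum.inr w) :=
      ⟨E5_symm _ _, E5_symm _ _⟩
    rw [h1, h2, E5_lr, E5_lr, ← map_inv, ← map_mul, hd]
  · exact iff_of_false (E5_rr _ _) (E5_rr _ _)

theorem E5_tri (p q r : F5 ⊕ F5) (h1 : E5 p q) (h2 : E5 p r) (h3 : E5 q r) : False := by
  rcases p with w | w <;> rcases q with w' | w' <;> rcases r with w'' | w''
  · exact E5_ll _ _ h1
  · exact E5_ll _ _ h1
  · exact E5_ll _ _ h2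
  · exact E5_rr _ _ h3
  · exact E5_ll _ _ h3
  · exact E5_rr _ _ h2
  · exact E5_rr _ _ h1
  · exact E5_rr _ _ h1

theorem iW_mem (s : SW) : iW s ∈ C0 ↔ s ∈ CW a5 E5 :=
  WRmap_mem_CW _ _ _ _ _ eY_injective φ5_injective EE EE_irr s

theorem dmap_mem {d : F5 →* F5} (hd : Function.Injective d)
    (hd' : ∀ w, emQ (Fin 3) (emb (d w) * Y3) ∈ DD ↔ emQ (Fin 3) (emb w * Y3) ∈ DD) (s : SW) :
    dmap d s ∈ CW a5 E5 ↔ s ∈ CW a5 E5 := by
  have h1 := WRmap_mem_CW a5 a5 (Sum.map d d) d (dmap_equiv d)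
    (Sum.map_injective.mpr ⟨hd, hd⟩) hd E5 E5_irr s
  have h2 : (fun p q => E5 (Sum.map d d p) (Sum.map d d q)) = E5 := by
    funext p q
    exact propext (E5_map d hd' p q)
  rw [h2] at h1
  exact h1

theorem alpha0 {d : F5 →* F5} (hd : Function.Injective d)
    (hd' : ∀ w, emQ (Fin 3) (emb (d w) * Y3) ∈ DD ↔ emQ (Fin 3) (emb w * Y3) ∈ DD) (s : SW) :
    iW s ∈ C0 ↔ iW (dmap d s) ∈ C0 := by
  rw [iW_mem, iW_mem, dmap_mem hd hd']

theorem beta0 : ¬ ∃ s s', iW s ∈ C0 ∧ iW s' ∈ C0 ∧ iW (s⁻¹ * s') ∈ C0 := by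
  rintro ⟨s, s', h1, h2, h3⟩
  rw [iW_mem] at h1 h2 h3
  obtain ⟨p, q, hE, rfl⟩ := h1
  obtain ⟨p', q', hE', rfl⟩ := h2
  rcases diff_cases a5 E5 E5_irr E5_symm hE hE' h3 with ⟨rfl, h⟩ | ⟨rfl, h⟩
  · exact E5_tri _ _ _ hE hE' h
  · exact E5_tri _ _ _ h hE hE'

/-- partner maps -/
noncomputable def jS : SW →* W := iW.comp (dmap dS)

theorem jS_injective : Function.Injective jS := iW_injective.comp (dmap_injective dS_injective)

/-- first HNN stage -/
abbrev G1 := HNNExtension W iW.range jS.range (eqv iW jS iW_injective jS_injective)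

/-- inclusion of the base -/
noncomputable def of1 : W →* G1 := HNNExtension.of

theorem of1_injective : Function.Injective of1 := HNNExtension.of_injective _

/-- class at the first stage -/
def C1 : Set G1 := HNN.cls (eqv iW jS iW_injective jS_injective) C0

theorem C1_cliqueFree : CliqueFree C1 :=
  stage_cliqueFree iW jS iW_injective jS_injective C0_cliqueFree (alpha0 dS_injective Dz_dS) beta0

theorem C1_inter (b : W) : of1 b ∈ C1 ↔ b ∈ C0 :=
  stage_inter iW jS iW_injective jS_injective C0_cliqueFree (alpha0 dS_injective Dz_dS) b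

/-- second stage maps -/
noncomputable def i2 : SW →* G1 := of1.comp iW
noncomputable def j2 : SW →* G1 := of1.comp (iW.comp (dmap dT))

theorem i2_injective : Function.Injective i2 := of1_injective.comp iW_injective

theorem j2_injective : Function.Injective j2 :=
  of1_injective.comp (iW_injective.comp (dmap_injective dT_injective))

/-- second HNN stage -/
abbrev G2 := HNNExtension G1 i2.range j2.range (eqv i2 j2 i2_injective j2_injective)

/-- class at the second stage -/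
def C2 : Set G2 := HNN.cls (eqv i2 j2 i2_injective j2_injective) C1

theorem C2_cliqueFree : CliqueFree C2 := by
  apply stage_cliqueFree i2 j2 i2_injective j2_injective C1_cliqueFree
  · intro s
    change of1 (iW s) ∈ C1 ↔ of1 (iW (dmap dT s)) ∈ C1
    rw [C1_inter, C1_inter]
    exact alpha0 dT_injective Dz_dT s
  · rintro ⟨s, s', h1, h2, h3⟩
    exact beta0 ⟨s, s', (C1_inter _).1 h1, (C1_inter _).1 h2, (C1_inter _).1 h3⟩

/-- inclusion of the base group -/
noncomputable def jj2 : W →* G2 := HNNExtension.of.comp of1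

/-- images of the elements of the free group -/
noncomputable def mF : F3 →* G2 :=
  jj2.comp (SemidirectProduct.inr.comp (lm.comp (emQ (Fin 3))))

/-- stable letters -/
noncomputable def tS : G2 := HNNExtension.of (HNNExtension.t : G1)
noncomputable def tT : G2 := HNNExtension.t

/-- image of a delta function -/
noncomputable def dl (p : Q3) : G2 := jj2 (SemidirectProduct.inl (del p))

theorem tS_rel (s : SW) : tS * jj2 (iW s) * tS⁻¹ = jj2 (iW (dmap dS s)) := by
  have h := stage_rel iW jS iW_injective jS_injective s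
  have h2 := congrArg (HNNExtension.of : G1 →* G2) h
  rw [map_mul, map_mul, map_inv] at h2
  exact h2

theorem tT_rel (s : SW) : tT * jj2 (iW s) * tT⁻¹ = jj2 (iW (dmap dT s)) :=
  stage_rel i2 j2 i2_injective j2_injective s

theorem mF_emb (w : F5) : mF (emb w) = jj2 (iW (SemidirectProduct.inr w)) := by
  unfold iW
  rw [WRmap_inr]
  rfl

theorem tS_emb (w : F5) : tS * mF (emb w) * tS⁻¹ = mF (emb (dS w)) := by
  rw [mF_emb, tS_rel, dmap, WRmap_inr, ← mF_emb]

theorem tT_emb (w : F5) : tT * mF (emb w) * tT⁻¹ = mF (emb (dT w)) := by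
  rw [mF_emb, tT_rel, dmap, WRmap_inr, ← mF_emb]

theorem dl_eY (p : F5 ⊕ F5) : dl (eY p) = jj2 (iW (SemidirectProduct.inl (del p))) := by
  unfold iW
  rw [WRmap_inl, push_del]
  rfl

theorem tS_dl (p : F5 ⊕ F5) : tS * dl (eY p) * tS⁻¹ = dl (eY (Sum.map dS dS p)) := by
  rw [dl_eY, tS_rel, dmap, WRmap_inl, push_del, ← dl_eY]

theorem tT_dl (p : F5 ⊕ F5) : tT * dl (eY p) * tT⁻¹ = dl (eY (Sum.map dT dT p)) := by
  rw [dl_eY, tT_rel, dmap, WRmap_inl, push_del, ← dl_eY]

theorem aut_dl (α : AutE) (p : Q3) :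
    jj2 (SemidirectProduct.inr α) * dl p * (jj2 (SemidirectProduct.inr α))⁻¹ =
      dl ((α : Equiv.Perm Q3) p) := by
  unfold dl
  rw [← map_inv, ← map_mul, ← map_mul, ← map_inv, ← SemidirectProduct.inl_aut]
  congr 2
  exact push_del _ _

theorem mF_dl (f : F3) (p : Q3) : mF f * dl p * (mF f)⁻¹ = dl (emQ (Fin 3) f * p) :=
  aut_dl (lm (emQ (Fin 3) f)) p

theorem eY_inl_one : eY (Sum.inl 1) = 1 := by
  change emQ (Fin 3) (emb 1) = 1
  rw [map_one, map_one]

theorem eY_inr_one : eY (Sum.inr 1) = emQ (Fin 3) Y3 := by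
  change emQ (Fin 3) (emb 1 * Y3) = _
  rw [map_one, one_mul]

theorem comm_of_conj {G : Type*} [Group G] {a b : G} (h : a * b * a⁻¹ = b) : Commute b a := by
  rw [mul_inv_eq_iff_eq_mul] at h
  exact h.symm

/-- the relations hold in the model -/
theorem model_rel : ∀ a ∈ RL (mF X3) (mF Y3) (mF Z3) (jj2 (SemidirectProduct.inr ρ1))
    (jj2 (SemidirectProduct.inr ρ2)) tS tT (dl 1), a = 1 := by
  have hemb : ∀ (t : G2) (d : F5 →* F5) (ht : ∀ w, t * mF (emb w) * t⁻¹ = mF (emb (d w)))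
      (w w' : F5) (hw : d w = w'), t * mF (emb w) * t⁻¹ = mF (emb w') := by
    intro t d ht w w' hw
    rw [ht, hw]
  have hρ1 : ∀ f : F3, jj2 (SemidirectProduct.inr ρ1) * mF f * (jj2 (SemidirectProduct.inr ρ1))⁻¹ =
      jj2 (SemidirectProduct.inr (lm (scl ![2, 1, 1/2] (emQ (Fin 3) f)))) := by
    intro f
    rw [← ρ1_conj, map_mul, map_mul, map_inv, map_mul, map_mul, map_inv]
    rfl
  have hρ2 : ∀ f : F3, jj2 (SemidirectProduct.inr ρ2) * mF f * (jj2 (SemidirectProduct.inr ρ2))⁻¹ =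
      jj2 (SemidirectProduct.inr (lm (scl ![1, 2, 1/2] (emQ (Fin 3) f)))) := by
    intro f
    rw [← ρ2_conj, map_mul, map_mul, map_inv, map_mul, map_mul, map_inv]
    rfl
  have hmF : ∀ f : F3, ∀ q : Q3, emQ (Fin 3) f = q →
      jj2 (SemidirectProduct.inr (lm q)) = mF f := by
    rintro f _ rfl
    rfl
  have L2 : ∀ i : Fin 3, Lt i 1 ^ 2 = Lt i 2 := by
    intro i
    have := Lt_nsmul i 1 2
    rw [← this]; norm_num
  have eX : emQ (Fin 3) X3 = Lt 0 1 := emQ_of 0
  have eY' : emQ (Fin 3) Y3 = Lt 1 1 := emQ_of 1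
  have eZ : emQ (Fin 3) Z3 = Lt 2 1 := emQ_of 2
  intro a ha
  simp only [RL, List.mem_cons, List.not_mem_nil, or_false] at ha
  rcases ha with rfl | rfl | rfl | rfl | rfl | rfl | rfl | rfl | rfl | rfl | rfl | rfl | rfl | rfl |
    rfl | rfl | rfl | rfl | rfl | rfl | rfl | rfl
  · rw [mul_inv_eq_one, hρ1, ← map_pow]
    apply hmF
    rw [map_pow, eX, scl_Lt, L2]
    simp
  · rw [mul_inv_eq_one, hρ1]
    apply hmF
    rw [eY', scl_Lt]
    simp
  · rw [mul_inv_eq_one, ← map_pow, hρ1]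
    apply hmF
    rw [map_pow, eZ, L2, scl_Lt]
    simp
  · rw [mul_inv_eq_one, hρ2]
    apply hmF
    rw [eX, scl_Lt]
    simp
  · rw [mul_inv_eq_one, hρ2, ← map_pow]
    apply hmF
    rw [map_pow, eY', scl_Lt, L2]
    simp
  · rw [mul_inv_eq_one, ← map_pow, hρ2]
    apply hmF
    rw [map_pow, eZ, L2, scl_Lt]
    simp
  · rw [mul_inv_eq_one]
    have := tS_emb (g5 0)
    rw [dS_0, map_pow, emb_0] at this
    simpa only [map_pow, map_mul, map_inv] using this
  · rw [mul_inv_eq_one]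
    have := tS_emb (g5 1)
    rw [dS_1, map_pow, emb_1] at this
    simpa only [map_pow, map_mul, map_inv] using this
  · rw [mul_inv_eq_one]
    have := tS_emb (g5 2)
    rw [dS_2, emb_2] at this
    simpa only [map_pow, map_mul, map_inv] using this
  · rw [mul_inv_eq_one]
    have := tS_emb (g5 3)
    rw [dS_3, map_pow, emb_3] at this
    simpa only [map_pow, map_mul, map_inv] using this
  · rw [mul_inv_eq_one]
    have := tS_emb (g5 4)
    rw [dS_4, emb_4] at this
    simpa only [map_pow, map_mul, map_inv] using this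
  · rw [mul_inv_eq_one]
    have := tT_emb (g5 0)
    rw [dT_0, emb_0] at this
    simpa only [map_pow, map_mul, map_inv] using this
  · rw [mul_inv_eq_one]
    have := tT_emb (g5 1)
    rw [dT_1, emb_1] at this
    simpa only [map_pow, map_mul, map_inv] using this
  · rw [mul_inv_eq_one]
    have := tT_emb (g5 2)
    rw [dT_2, map_pow, emb_2] at this
    simpa only [map_pow, map_mul, map_inv] using this
  · rw [mul_inv_eq_one]
    have := tT_emb (g5 3)
    rw [dT_3, emb_3] at this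
    simpa only [map_pow, map_mul, map_inv] using this
  · rw [mul_inv_eq_one]
    have := tT_emb (g5 4)
    rw [dT_4, map_pow, emb_4] at this
    simpa only [map_pow, map_mul, map_inv] using this
  · rw [cm_eq_one]
    apply comm_of_conj
    rw [aut_dl, ρ1_apply, map_one]
  · rw [cm_eq_one]
    apply comm_of_conj
    rw [aut_dl, ρ2_apply, map_one]
  · rw [cm_eq_one]
    apply comm_of_conj
    have := tS_dl (Sum.inl 1)
    rw [Sum.map_inl, map_one, eY_inl_one] at this
    exact this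
  · rw [cm_eq_one]
    apply comm_of_conj
    have h1 := tS_dl (Sum.inr 1)
    rw [Sum.map_inr, map_one, eY_inr_one] at h1
    have h2 := mF_dl Y3 1
    rw [mul_one] at h2
    rw [← h2] at h1
    have h3 : ((mF Y3)⁻¹ * tS * mF Y3) * dl 1 * ((mF Y3)⁻¹ * tS * mF Y3)⁻¹ =
        (mF Y3)⁻¹ * (tS * (mF Y3 * dl 1 * (mF Y3)⁻¹) * tS⁻¹) * mF Y3 := by group
    rw [h3, h1]
    group
  · rw [cm_eq_one]
    apply comm_of_conj
    have := tT_dl (Sum.inl 1)
    rw [Sum.map_inl, map_one, eY_inl_one] at this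
    exact this
  · rw [cm_eq_one]
    apply comm_of_conj
    have h1 := tT_dl (Sum.inr 1)
    rw [Sum.map_inr, map_one, eY_inr_one] at h1
    have h2 := mF_dl Y3 1
    rw [mul_one] at h2
    rw [← h2] at h1
    have h3 : ((mF Y3)⁻¹ * tT * mF Y3) * dl 1 * ((mF Y3)⁻¹ * tT * mF Y3)⁻¹ =
        (mF Y3)⁻¹ * (tT * (mF Y3 * dl 1 * (mF Y3)⁻¹) * tT⁻¹) * mF Y3 := by group
    rw [h3, h1]
    group

theorem cc_mem : emQ (Fin 3) (cc X3 Y3 Z3) ∈ DD := by
  have h := wN_mem 0 0
  rw [emb_wN, WW_eq] at h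
  simp only [zero_add, pow_one, pow_zero] at h
  exact h

/-- the distinguished element lies in the class -/
theorem model_wc : wc (mF X3) (mF Y3) (mF Z3) (dl 1) ∈ C2 := by
  have h1 : cc (mF X3) (mF Y3) (mF Z3) = mF (cc X3 Y3 Z3) := by
    simp only [cc, map_mul, map_inv, map_pow]
  have h2 := mF_dl (cc X3 Y3 Z3) 1
  rw [mul_one] at h2
  have h3 : wc (mF X3) (mF Y3) (mF Z3) (dl 1) =
      HNNExtension.of (of1 (SemidirectProduct.inl ((del 1)⁻¹ *
        del (emQ (Fin 3) (cc X3 Y3 Z3))))) := by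
    unfold wc
    rw [h1, map_mul (SemidirectProduct.inl : _ →* W), map_inv (SemidirectProduct.inl : _ →* W),
      map_mul of1, map_inv of1, map_mul, map_inv]
    have h4 : (dl 1)⁻¹ * mF (cc X3 Y3 Z3) * dl 1 * (mF (cc X3 Y3 Z3))⁻¹ =
        (dl 1)⁻¹ * (mF (cc X3 Y3 Z3) * dl 1 * (mF (cc X3 Y3 Z3))⁻¹) := by group
    rw [h4, h2]
    rfl
  rw [h3]
  apply HNN.cls_of
  rw [C1_inter]
  refine ⟨1, _, ?_, rfl⟩
  unfold EE
  rw [inv_one, one_mul]
  exact cc_mem

/-- the hom from K to the model -/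
theorem exists_theta : ∃ θ : KK 8 R8 →* G2, θ (pr R8 c8) ∈ C2 := by
  obtain ⟨f, h0, h1, h2, h3, h4, h5, h6, h7⟩ := exists_hom8 _ _ _ _ _ _ _ _ model_rel
  refine ⟨f, ?_⟩
  rw [c8, map_wc, map_wc, h0, h1, h2, h7]
  exact model_wc

theorem c8_ne : pr R8 c8 ≠ 1 := by
  obtain ⟨θ, hθ⟩ := exists_theta
  intro h
  rw [h, map_one] at hθ
  exact C2_cliqueFree.one hθ

theorem noInf8 : NoInfClique (Gam R8 c8) := by
  obtain ⟨θ, hθ⟩ := exists_theta
  rintro ⟨f, hf⟩
  apply C2_cliqueFree.nic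
  refine ⟨fun n => θ (f n), fun i j hij => ?_⟩
  obtain ⟨-, h, hh⟩ := hf i j hij
  rw [← map_inv, ← map_mul]
  rcases hh with hh | hh
  · rw [hh, map_mul, map_mul, map_inv]
    exact C2_cliqueFree.conj _ hθ _
  · rw [hh, map_mul, map_mul, map_inv, map_inv]
    exact C2_cliqueFree.conj _ (C2_cliqueFree.inv _ hθ) _

end Pool.Agent.Helper81
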