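import Pool.Agent.Helper81.RD.Model

set_option autoImplicit false
open Classical

namespace Pool.Agent.Helper81

/-- word balls in a presented group -/
def wball {m : ℕ} (S : Set (FreeGroup (Fin m))) (r : ℕ) : Set (PresentedGroup S) :=
  {x | ∃ w : FreeGroup (Fin m), w.toWord.length ≤ r ∧ PresentedGroup.mk S w = x}

theorem wball_sys {m : ℕ} (S : Set (FreeGroup (Fin m))) : BallSys (wball S) where
  fin r := by
    have h1 : {w : FreeGroup (Fin m) | w.toWord.length ≤ r}.Finite := by
      have h2 : {l : List (Fin m × Bool) | l.length ≤ r}.Finite := List.finite_length_le _ _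
      exact h2.preimage (f := FreeGroup.toWord) (FreeGroup.toWord_injective.injOn)
    have h3 : wball S r = PresentedGroup.mk S '' {w : FreeGroup (Fin m) | w.toWord.length ≤ r} := by
      ext x
      simp [wball]
    rw [h3]
    exact h1.image _
  inv r x := by
    rintro ⟨w, hw, rfl⟩
    refine ⟨w⁻¹, ?_, map_inv _ _⟩
    have := FreeGroup.norm_inv_eq (x := w)
    unfold FreeGroup.norm at this
    rw [this]
    exact hw
  mul r s x y := by
    rintro ⟨w, hw, rfl⟩ ⟨w', hw', rfl⟩
    refine ⟨w * w', ?_, map_mul _ _ _⟩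
    have := FreeGroup.norm_mul_le w w'
    unfold FreeGroup.norm at this
    omega

/-- induction along words, appending letters at the end -/
theorem word_induction {m : ℕ} {X : Type*} [Group X] (θ : FreeGroup (Fin m) →* X)
    (P : X → ℕ → Prop) (h1 : P 1 0)
    (hs : ∀ x k, P x k → ∀ i, P (x * θ (FreeGroup.of i)) (k + 1) ∧
      P (x * (θ (FreeGroup.of i))⁻¹) (k + 1)) (w : FreeGroup (Fin m)) :
    P (θ w) w.toWord.length := by
  have key : ∀ L : List (Fin m × Bool), P (θ (FreeGroup.mk L)) L.length := by
    intro L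
    induction L using List.reverseRecOn with
    | nil =>
      have : FreeGroup.mk ([] : List (Fin m × Bool)) = 1 := rfl
      rw [this, map_one]
      exact h1
    | append_singleton L a ih =>
      obtain ⟨i, b⟩ := a
      have e : FreeGroup.mk (L ++ [(i, b)]) = FreeGroup.mk L * FreeGroup.mk [(i, b)] := by
        rw [FreeGroup.mul_mk]
      rw [e, map_mul, List.length_append, List.length_singleton]
      cases b
      · have e2 : FreeGroup.mk [(i, false)] = (FreeGroup.of i)⁻¹ := rfl
        rw [e2, map_inv]
        exact (hs _ _ ih i).2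
      · exact (hs _ _ ih i).1
  have := key w.toWord
  rwa [FreeGroup.mk_toWord] at this

section

variable {n : ℕ} (R : Finset (FreeGroup (Fin n))) (c : FreeGroup (Fin n))

theorem act_g_len (p : FreeGroup (Fin n) × FreeGroup (Fin n)) (k v : KK n R) :
    (RAAG.len (Gam R c) v).len (act R c p (RAAG.g k)) ≤ 1 := by
  rw [act_g]
  exact RAAG.len_g_le _ _ _

theorem left_len (v : KK n R) (x : GG n R c) (r : ℕ)
    (hx : x ∈ wball (↑(GRels n R c) : Set (FreeGroup (Fin (n + n + 1)))) r) :
    (RAAG.len (Gam R c) v).len (Phi R c x).left ≤ r := by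
  obtain ⟨w, hw, rfl⟩ := hx
  refine le_trans ?_ hw
  have := word_induction ((Phi R c).comp (PresentedGroup.mk _))
    (fun y k => (RAAG.len (Gam R c) v).len y.left ≤ k) (by
      change (RAAG.len (Gam R c) v).len 1 ≤ 0
      rw [TreeLen.len_one]) (by
      intro y k hy i
      have hstep : ∀ z : Mod R c, (z.left = 1 ∨ z.left = RAAG.g 1 ∨ z.left = (RAAG.g 1)⁻¹) →
          (RAAG.len (Gam R c) v).len (y * z).left ≤ k + 1 := by
        intro z hz
        rw [SemidirectProduct.mul_left]
        refine (TreeLen.len_mul _ _ _).trans (Nat.add_le_add hy ?_)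
        rcases hz with hz | hz | hz
        · rw [hz, map_one, TreeLen.len_one]; exact Nat.zero_le _
        · rw [hz]; exact act_g_len R c _ _ _
        · rw [hz, map_inv, TreeLen.len_inv]; exact act_g_len R c _ _ _
      have hgen : ∀ i, ((Phi R c).comp (PresentedGroup.mk _) (FreeGroup.of i)).left = 1 ∨
          (((Phi R c).comp (PresentedGroup.mk _) (FreeGroup.of i)).left = RAAG.g 1 ∧
          ((Phi R c).comp (PresentedGroup.mk _) (FreeGroup.of i)).right = 1) := by
        apply gen_cases
        · intro i
          left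
          have := Phi_A R c i
          change (Phi R c (PresentedGroup.of (iA n i))).left = 1
          rw [this]
          rfl
        · intro i
          left
          have := Phi_B R c i
          change (Phi R c (PresentedGroup.of (iB n i))).left = 1
          rw [this]
          rfl
        · right
          have := Phi_V R c
          change (Phi R c (PresentedGroup.of (iV n))).left = _ ∧
            (Phi R c (PresentedGroup.of (iV n))).right = _
          rw [this]
          exact ⟨rfl, rfl⟩
      refine ⟨hstep _ ?_, hstep _ ?_⟩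
      · rcases hgen i with h | h
        · exact Or.inl h
        · exact Or.inr (Or.inl h.1)
      · rw [SemidirectProduct.inv_left]
        rcases hgen i with h | h
        · left
          rw [h, inv_one, map_one]
        · right; right
          rw [h.1, h.2, inv_one, map_one]
          rfl) w
  exact this

/-- the free group as a RAAG -/
def toBot (α : Type*) : FreeGroup α →* RAAG (⊥ : SimpleGraph α) := PresentedGroup.mk _

theorem toBot_surjective (α : Type*) : Function.Surjective (toBot α) :=
  PresentedGroup.mk_surjective _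

theorem toBot_ker (α : Type*) (x : FreeGroup α) (hx : toBot α x = 1) : x = 1 := by
  have : x ∈ Subgroup.normalClosure (raagRels (⊥ : SimpleGraph α)) := by
    rw [← PresentedGroup.mk_eq_one_iff]
    exact hx
  have h2 : raagRels (⊥ : SimpleGraph α) = ∅ := by
    ext r
    simp [raagRels]
  rw [h2] at this
  simpa using this

theorem noInf_bot (α : Type*) : NoInfClique (⊥ : SimpleGraph α) := by
  rintro ⟨f, hf⟩
  exact hf 0 1 (by norm_num)

/-- projection to the first free factor -/
noncomputable def q1 : GG n R c →* RAAG (⊥ : SimpleGraph (Fin n)) :=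
  (toBot (Fin n)).comp ((MonoidHom.fst _ _).comp (SemidirectProduct.rightHom.comp (Phi R c)))

/-- projection to the second free factor -/
noncomputable def q2 : GG n R c →* RAAG (⊥ : SimpleGraph (Fin n)) :=
  (toBot (Fin n)).comp ((MonoidHom.snd _ _).comp (SemidirectProduct.rightHom.comp (Phi R c)))

theorem q1_surjective : Function.Surjective (q1 R c) := by
  intro x
  obtain ⟨w, rfl⟩ := toBot_surjective _ x
  refine ⟨ga R c w, ?_⟩
  simp [q1, Phi_ga]

theorem Phi_gb (w : FreeGroup (Fin n)) : Phi R c (gb R c w) = SemidirectProduct.inr (1, w) := by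
  have : (Phi R c).comp (gb R c) =
      (SemidirectProduct.inr : _ →* Mod R c).comp (MonoidHom.inr _ _) := by
    apply FreeGroup.ext_hom
    intro i
    simp [gb, Phi_B]
  exact DFunLike.congr_fun this w

theorem q2_surjective : Function.Surjective (q2 R c) := by
  intro x
  obtain ⟨w, rfl⟩ := toBot_surjective _ x
  refine ⟨gb R c w, ?_⟩
  simp [q2, Phi_gb]

theorem hom_len {Γ : SimpleGraph (Fin n)} (q : GG n R c →* RAAG Γ)
    (hq : ∀ i : Fin (n + n + 1), q (PresentedGroup.of i) = 1 ∨
      ∃ j, q (PresentedGroup.of i) = RAAG.g j) (v : Fin n) (x : GG n R c) (r : ℕ)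
    (hx : x ∈ wball (↑(GRels n R c) : Set (FreeGroup (Fin (n + n + 1)))) r) :
    (RAAG.len Γ v).len (q x) ≤ r := by
  obtain ⟨w, hw, rfl⟩ := hx
  refine le_trans ?_ hw
  refine word_induction (q.comp (PresentedGroup.mk _))
    (fun y k => (RAAG.len Γ v).len y ≤ k) (by rw [TreeLen.len_one]) ?_ w
  intro y k hy i
  have h1 : (RAAG.len Γ v).len (q.comp (PresentedGroup.mk _) (FreeGroup.of i)) ≤ 1 := by
    change (RAAG.len Γ v).len (q (PresentedGroup.of i)) ≤ 1
    rcases hq i with h | ⟨j, h⟩
    · rw [h, TreeLen.len_one]; exact Nat.zero_le _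
    · rw [h]; exact RAAG.len_g_le _ _ _
  constructor
  · exact (TreeLen.len_mul _ _ _).trans (Nat.add_le_add hy h1)
  · refine (TreeLen.len_mul _ _ _).trans (Nat.add_le_add hy ?_)
    rw [TreeLen.len_inv]
    exact h1

theorem q1_gen : ∀ i : Fin (n + n + 1), q1 R c (PresentedGroup.of i) = 1 ∨
      ∃ j, q1 R c (PresentedGroup.of i) = RAAG.g j := by
  apply gen_cases
  · intro i
    right
    refine ⟨i, ?_⟩
    simp only [q1, MonoidHom.comp_apply, Phi_A, SemidirectProduct.rightHom_inr]
    rfl
  · intro i
    left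
    simp only [q1, MonoidHom.comp_apply, Phi_B, SemidirectProduct.rightHom_inr]
    simp
  · left
    simp only [q1, MonoidHom.comp_apply, Phi_V, SemidirectProduct.rightHom_inl]
    simp

theorem q2_gen : ∀ i : Fin (n + n + 1), q2 R c (PresentedGroup.of i) = 1 ∨
      ∃ j, q2 R c (PresentedGroup.of i) = RAAG.g j := by
  apply gen_cases
  · intro i
    left
    simp only [q2, MonoidHom.comp_apply, Phi_A, SemidirectProduct.rightHom_inr]
    simp
  · intro i
    right
    refine ⟨i, ?_⟩
    simp only [q2, MonoidHom.comp_apply, Phi_B, SemidirectProduct.rightHom_inr]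
    rfl
  · left
    simp only [q2, MonoidHom.comp_apply, Phi_V, SemidirectProduct.rightHom_inl]
    simp

theorem polyIn_bot {G : Type*} [Group G] (B : ℕ → Set G) : PolyIn B ((⊥ : Subgroup G) : Set G) := by
  refine ⟨1, 0, fun r => ?_⟩
  rw [pow_zero, mul_one]
  calc (((⊥ : Subgroup G) : Set G) ∩ B r).ncard ≤ ({1} : Set G).ncard := by
        apply Set.ncard_le_ncard
        · intro x hx
          exact hx.1
        · exact Set.finite_singleton _
    _ = 1 := Set.ncard_singleton _

theorem eq_jj_of_ker {x : GG n R c} (h1 : q1 R c x = 1) (h2 : q2 R c x = 1) :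
    x = jj R c (Phi R c x).left := by
  have h3 := toBot_ker _ _ h1
  have h4 := toBot_ker _ _ h2
  have h5 : (Phi R c x).right = 1 := Prod.ext h3 h4
  have h6 : Phi R c x = SemidirectProduct.inl (Phi R c x).left :=
    SemidirectProduct.ext (by simp) (by rw [h5]; rfl)
  rw [← Psi_inl, ← h6, Psi_Phi]

theorem npp_comap {K : Subgroup (GG n R c)} (hK : NPP K) : NPP (K.comap (jj R c)) := by
  intro a ha b hb hPP
  refine hK (jj R c a) ha (jj R c b) hb ?_
  refine PP.pullback (jj R c) (fun x => (Phi R c x).left) ?_ hPP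
  intro m x
  have : (Phi R c (jj R c m * x)).left = m * (Phi R c x).left := by
    rw [map_mul, Phi_jj]
    exact SemidirectProduct.mul_left _ _ |>.trans (by simp)
  exact this

/-- balls of the RAAG -/
def jball (r : ℕ) : Set (RAAG (Gam R c)) :=
  jj R c ⁻¹' (wball (↑(GRels n R c) : Set (FreeGroup (Fin (n + n + 1)))) r)

theorem jball_sys : BallSys (jball R c) := by
  have hB := wball_sys (↑(GRels n R c) : Set (FreeGroup (Fin (n + n + 1))))
  refine ⟨fun r => (hB.fin r).preimage (jj_injective R c).injOn, fun r x hx => ?_,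
      fun r s x y hx hy => ?_⟩
  · have := hB.inv r _ hx
    rw [← map_inv] at this
    exact this
  · have := hB.mul r s _ _ hx hy
    rw [← map_mul] at this
    exact this

theorem jball_len (r : ℕ) (x : RAAG (Gam R c)) (hx : x ∈ jball R c r) (v : KK n R) :
    (RAAG.len (Gam R c) v).len x ≤ r := by
  have := left_len R c v (jj R c x) r hx
  rw [Phi_jj] at this
  exact this

theorem mem_jball (r : ℕ) (x : RAAG (Gam R c)) : x ∈ jball R c r ↔
    jj R c x ∈ wball (↑(GRels n R c) : Set (FreeGroup (Fin (n + n + 1)))) r := Iff.rfl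

theorem inter_eq_image {K : Subgroup (GG n R c)} (hK : ∀ x ∈ K, x = jj R c (Phi R c x).left)
    (r : ℕ) :
    (K : Set (GG n R c)) ∩ wball (↑(GRels n R c) : Set (FreeGroup (Fin (n + n + 1)))) r =
      jj R c '' (((K.comap (jj R c) : Subgroup (RAAG (Gam R c))) : Set (RAAG (Gam R c))) ∩
        jball R c r) := by
  apply Set.Subset.antisymm
  · intro x hx
    have h1 := hK x hx.1
    rw [Set.mem_image]
    refine ⟨(Phi R c x).left, Set.mem_inter ?_ ?_, h1.symm⟩
    · rw [SetLike.mem_coe, Subgroup.mem_comap, ← h1]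
      exact hx.1
    · rw [mem_jball, ← h1]
      exact hx.2
  · rw [Set.image_subset_iff]
    intro y hy
    exact ⟨hy.1, hy.2⟩

theorem poly_comap {K : Subgroup (GG n R c)} (hK : ∀ x ∈ K, x = jj R c (Phi R c x).left)
    (h : PolyIn (jball R c) ((K.comap (jj R c) : Subgroup (RAAG (Gam R c))) :
      Set (RAAG (Gam R c)))) :
    PolyIn (wball (↑(GRels n R c) : Set (FreeGroup (Fin (n + n + 1))))) (K : Set (GG n R c)) := by
  obtain ⟨C, k, hC⟩ := h
  refine ⟨C, k, fun r => ?_⟩
  have h1 := hC r
  rw [inter_eq_image R c hK r, Set.ncard_image_of_injective _ (jj_injective R c)]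
  exact h1

/-- growth for the RAAG with the induced balls -/
theorem growth_raag (hΓ : NoInfClique (Gam R c)) (H : Subgroup (RAAG (Gam R c))) (hH : NPP H) :
    PolyIn (jball R c) (H : Set (RAAG (Gam R c))) := by
  by_contra hbad
  obtain ⟨K4, hK4, hbad4, hker4⟩ := chain (jball_sys R c) hΓ (MonoidHom.id _)
    Function.surjective_id (fun r x hx v => jball_len R c r x hx v) hH hbad
  apply hbad4
  have : K4 = ⊥ := by
    rw [eq_bot_iff]
    intro x hx
    exact hker4 hx
  rw [this]
  exact polyIn_bot _

/-- **Growth theorem** -/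
theorem growth (hΓ : NoInfClique (Gam R c)) (H : Subgroup (GG n R c)) (hH : NPP H) :
    PolyIn (wball (↑(GRels n R c) : Set (FreeGroup (Fin (n + n + 1))))) (H : Set (GG n R c)) := by
  by_contra hbad
  have hB := wball_sys (↑(GRels n R c) : Set (FreeGroup (Fin (n + n + 1))))
  obtain ⟨K1, hK1, hbad1, hker1⟩ := chain hB (noInf_bot (Fin n)) (q1 R c) (q1_surjective R c)
    (fun r x hx v => hom_len R c _ (q1_gen R c) v x r hx) hH hbad
  obtain ⟨K2, hK2, hbad2, hker2⟩ := chain hB (noInf_bot (Fin n)) (q2 R c) (q2_surjective R c)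
    (fun r x hx v => hom_len R c _ (q2_gen R c) v x r hx) (hH.mono hK1) hbad1
  apply hbad2
  apply poly_comap R c
  · intro x hx
    exact eq_jj_of_ker R c (hker1 (hK2 hx)) (hker2 hx)
  · exact growth_raag R c hΓ _ (npp_comap R c (hH.mono (hK2.trans hK1)))

end

end Pool.Agent.Helper81
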