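import Pool.Agent.Helper81.RD.Busemann

set_option autoImplicit false
open Classical HNNExtension HNNExtension.NormalWord

namespace Pool.Agent.Helper81.HNN

variable {G : Type*} [Group G] {A B : Subgroup G} {φ : A ≃* B}

/-- chain condition for reduced words -/
abbrev Ch (A B : Subgroup G) (l : List (ℤˣ × G)) : Prop :=
  l.IsChain (fun a b => a.2 ∈ toSubgroup A B a.1 → a.1 = b.1)

/-- product of a word -/
def P (φ : A ≃* B) (h : G) (l : List (ℤˣ × G)) : HNNExtension G A B φ :=
  of h * (l.map (fun x => t ^ (x.1 : ℤ) * of x.2)).prod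

theorem P_nil (h : G) : P φ h [] = of h := by simp [P]

theorem P_cons (h : G) (u : ℤˣ) (g : G) (l : List (ℤˣ × G)) :
    P φ h ((u, g) :: l) = of h * t ^ (u : ℤ) * P φ g l := by
  simp [P, mul_assoc]

theorem of_mul_P (g h : G) (l : List (ℤˣ × G)) : of g * P φ h l = P φ (g * h) l := by
  simp [P, mul_assoc]

/-- the length: number of stable letters in a reduced form -/
noncomputable def hl (x : HNNExtension G A B φ) : ℕ :=
  ((NormalWord.equiv φ (Classical.choice (TransversalPair.nonempty G A B)) x).toList).length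

theorem hl_P {h : G} {l : List (ℤˣ × G)} (hc : Ch A B l) : hl (P φ h l) = l.length := by
  obtain ⟨w', h1, h2, -⟩ := ReducedWord.exists_normalWord_prod_eq φ
    (Classical.choice (TransversalPair.nonempty G A B)) ⟨h, l, hc⟩
  have h3 : P φ h l = w'.prod φ := h1.symm
  unfold hl
  rw [h3]
  have h4 : (NormalWord.equiv φ (Classical.choice (TransversalPair.nonempty G A B)))
      (w'.prod φ) = w' :=
    (NormalWord.equiv φ (Classical.choice (TransversalPair.nonempty G A B))).apply_symm_apply w'
  rw [h4]
  have := congrArg List.length h2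
  simpa using this

theorem exists_P (x : HNNExtension G A B φ) : ∃ h l, Ch A B l ∧ P φ h l = x := by
  let d := Classical.choice (TransversalPair.nonempty G A B)
  let w := NormalWord.equiv φ d x
  refine ⟨w.head, w.toList, w.chain, ?_⟩
  exact (NormalWord.equiv φ d).symm_apply_apply x

theorem t_zpow_mul_of (u : ℤˣ) (b : G) (hb : b ∈ toSubgroup A B u) :
    ∃ b' : G, b' ∈ toSubgroup A B (-u) ∧
      (t ^ (u : ℤ) * of b : HNNExtension G A B φ) = of b' * t ^ (u : ℤ) := by
  rcases Int.units_eq_one_or u with rfl | rfl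
  · refine ⟨φ ⟨b, hb⟩, (φ ⟨b, hb⟩).2, ?_⟩
    have := t_mul_of (φ := φ) ⟨b, hb⟩
    simpa using this
  · refine ⟨φ.symm ⟨b, hb⟩, (φ.symm ⟨b, hb⟩).2, ?_⟩
    have := inv_t_mul_of (φ := φ) ⟨b, hb⟩
    simpa using this

theorem t_inv_conj (u : ℤˣ) (b : G) (hb : b ∈ toSubgroup A B (-u)) :
    ∃ b' : G, (t ^ (u : ℤ))⁻¹ * of b * t ^ (u : ℤ) = (of b' : HNNExtension G A B φ) := by
  obtain ⟨b', -, h⟩ := t_zpow_mul_of (φ := φ) (-u) b hb
  refine ⟨b', ?_⟩
  have e : (t ^ ((-u : ℤˣ) : ℤ) : HNNExtension G A B φ) = (t ^ (u : ℤ))⁻¹ := by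
    rw [Units.val_neg, zpow_neg]
  rw [e] at h
  rw [h]
  simp

/-- **Junction lemma** -/
theorem hl_junction (l' : List (ℤˣ × G)) : ∀ (h' : G), Ch A B l' →
    ∀ (h : G) (l : List (ℤˣ × G)), Ch A B l →
    (∀ u' ∈ l'.head?.map Prod.fst, ∀ u ∈ l.head?.map Prod.fst,
      u = u' → h'⁻¹ * h ∉ toSubgroup A B (-u')) →
    hl ((P φ h' l')⁻¹ * P φ h l) = l'.length + l.length := by
  induction l' with
  | nil =>
    intro h' _ h l hl hj
    have : (P φ h' [])⁻¹ * P φ h l = P φ (h'⁻¹ * h) l := by
      rw [P_nil, ← map_inv, of_mul_P]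
    rw [this, hl_P hl]
    simp
  | cons a l' ih =>
    obtain ⟨u', g'⟩ := a
    intro h' hl' h l hl hj
    have hc' := (List.isChain_cons.1 hl').2
    have hc1 := (List.isChain_cons.1 hl').1
    have hnew : Ch A B ((-u', h'⁻¹ * h) :: l) := by
      refine List.isChain_cons.2 ⟨?_, hl⟩
      rintro ⟨u, g⟩ hu hmem
      simp only at hmem ⊢
      by_contra hne
      have huu : u = u' := by
        rcases Int.units_eq_one_or u with rfl | rfl <;>
          rcases Int.units_eq_one_or u' with rfl | rfl <;> simp_all
      refine hj u' (by simp) u ?_ huu hmem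
      rw [Option.mem_def] at hu ⊢
      rw [hu]
      rfl
    have e : (P φ h' ((u', g') :: l'))⁻¹ * P φ h l =
        (P φ g' l')⁻¹ * P φ 1 ((-u', h'⁻¹ * h) :: l) := by
      rw [P_cons, P_cons, Units.val_neg, zpow_neg, ← of_mul_P]
      simp [mul_assoc]
    rw [e, ih g' hc' 1 _ hnew]
    · simp only [List.length_cons]
      omega
    · intro u2 hu2 u hu huu
      simp only [List.head?_cons, Option.map_some, Option.mem_def, Option.some.injEq] at hu
      subst hu
      rw [mul_one]
      intro hmem
      rw [← huu, neg_neg] at hmem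
      have hmem' : g' ∈ toSubgroup A B u' := by
        simpa using inv_mem hmem
      -- chain condition
      obtain ⟨y, hy, rfl⟩ : ∃ y ∈ l'.head?, y.1 = u2 := by
        rw [Option.mem_def, Option.map_eq_some_iff] at hu2
        obtain ⟨y, hy, hy'⟩ := hu2
        exact ⟨y, hy, hy'⟩
      have h3 := hc1 y hy hmem'
      simp only at h3
      rw [← h3] at huu
      rcases Int.units_eq_one_or u' with rfl | rfl <;> simp at huu

/-- **Comparison of two reduced words** -/
theorem hl_compare (l' : List (ℤˣ × G)) : ∀ (h' : G), Ch A B l' →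
    ∀ (h : G) (l : List (ℤˣ × G)), Ch A B l →
    ∃ c : ℕ, c ≤ l.length ∧ c ≤ l'.length ∧
      hl ((P φ h' l')⁻¹ * P φ h l) + 2 * c = l'.length + l.length ∧
      ∀ k : ℕ, k ≤ l.length → k ≤ l'.length →
        (k ≤ c ↔ hl ((P φ h' (l'.take k))⁻¹ * P φ h (l.take k)) = 0) := by
  induction l' with
  | nil =>
    intro h' hl' h l hl
    refine ⟨0, Nat.zero_le _, le_refl _, ?_, ?_⟩
    · have := hl_junction (φ := φ) [] h' hl' h l hl (by simp)
      rw [this, mul_zero, add_zero]
    · intro k _ hk
      have hk0 : k = 0 := by simpa using hk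
      subst hk0
      simp only [le_refl, List.take_zero, true_iff]
      have := hl_junction (φ := φ) [] h' hl' h [] (by simp) (by simp)
      simpa using this
  | cons a l' ih =>
    obtain ⟨u', g'⟩ := a
    intro h' hl' h l hl
    have hl'2 := (List.isChain_cons.1 hl').2
    cases l with
    | nil =>
      refine ⟨0, Nat.zero_le _, Nat.zero_le _, ?_, ?_⟩
      · have := hl_junction (φ := φ) _ h' hl' h [] hl (by simp)
        rw [this, mul_zero, add_zero]
      · intro k hk _
        have hk0 : k = 0 := by simpa using hk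
        subst hk0
        simp only [le_refl, List.take_zero, true_iff]
        have := hl_junction (φ := φ) [] h' (by simp) h [] (by simp) (by simp)
        simpa using this
    | cons a l =>
      obtain ⟨u, g⟩ := a
      have hl2 := (List.isChain_cons.1 hl).2
      by_cases hcan : u = u' ∧ h'⁻¹ * h ∈ toSubgroup A B (-u')
      · obtain ⟨rfl, hmem⟩ := hcan
        obtain ⟨b, hb⟩ := t_inv_conj (φ := φ) u _ hmem
        have key : ∀ m m' : List (ℤˣ × G), (P φ h' ((u, g') :: m'))⁻¹ * P φ h ((u, g) :: m) =
            (P φ g' m')⁻¹ * P φ (b * g) m := by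
          intro m m'
          rw [P_cons, P_cons, ← of_mul_P, ← hb]
          simp [mul_assoc]
        obtain ⟨c, hc1, hc2, hc3, hc4⟩ := ih g' hl'2 (b * g) l hl2
        refine ⟨c + 1, by simpa using hc1, by simpa using hc2, ?_, ?_⟩
        · rw [key]
          simp only [List.length_cons]
          omega
        · intro k hk hk'
          cases k with
          | zero =>
            simp only [List.take_zero]
            have := hl_junction (φ := φ) [] h' (by simp) h [] (by simp) (by simp)
            simpa using this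
          | succ k =>
            rw [List.take_succ_cons, List.take_succ_cons, key]
            rw [← hc4 k (by simpa using hk) (by simpa using hk')]
            omega
      · have hjun : ∀ v' ∈ ((u', g') :: l').head?.map Prod.fst,
            ∀ v ∈ ((u, g) :: l).head?.map Prod.fst, v = v' → h'⁻¹ * h ∉ toSubgroup A B (-v') := by
          intro v' hv' v hv hvv hmem
          simp only [List.head?_cons, Option.map_some, Option.mem_def, Option.some.injEq] at hv hv'
          subst hv hv'
          exact hcan ⟨hvv, hmem⟩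
        refine ⟨0, Nat.zero_le _, Nat.zero_le _, ?_, ?_⟩
        · have := hl_junction (φ := φ) _ h' hl' h _ hl hjun
          rw [this, mul_zero, add_zero]
        · intro k hk hk'
          cases k with
          | zero =>
            simp only [le_refl, List.take_zero, true_iff]
            have := hl_junction (φ := φ) [] h' (by simp) h [] (by simp) (by simp)
            simpa using this
          | succ k =>
            have hjun' : ∀ v' ∈ ((u', g') :: (l'.take k)).head?.map Prod.fst,
              ∀ v ∈ ((u, g) :: (l.take k)).head?.map Prod.fst, v = v' →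
                h'⁻¹ * h ∉ toSubgroup A B (-v') := by
              intro v' hv' v hv
              exact hjun v' (by simpa using hv') v (by simpa using hv)
            have c1 : Ch A B ((u', g') :: (l'.take k)) := by
              have := List.IsChain.take (n := k + 1) hl'
              simpa using this
            have c2 : Ch A B ((u, g) :: (l.take k)) := by
              have := List.IsChain.take (n := k + 1) hl
              simpa using this
            have := hl_junction (φ := φ) _ h' c1 h _ c2 hjun'
            rw [List.take_succ_cons, List.take_succ_cons, this]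
            simp

theorem hl_one : hl (1 : HNNExtension G A B φ) = 0 := by
  have := hl_P (φ := φ) (h := 1) (l := []) (by simp)
  simpa [P_nil] using this

theorem hl_of (g : G) : hl (of g : HNNExtension G A B φ) = 0 := by
  have := hl_P (φ := φ) (h := g) (l := []) (by simp)
  simpa [P_nil] using this

theorem hl_inv (x : HNNExtension G A B φ) : hl x⁻¹ = hl x := by
  obtain ⟨h, l, hl', rfl⟩ := exists_P x
  have := hl_junction (φ := φ) l h hl' 1 [] (by simp) (by simp)
  rw [P_nil, map_one, mul_one] at this
  rw [this, hl_P hl']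
  simp

theorem hl_eq_zero (x : HNNExtension G A B φ) : hl x = 0 ↔ ∃ g : G, of g = x := by
  constructor
  · intro hx
    obtain ⟨h, l, hl', rfl⟩ := exists_P x
    rw [hl_P hl', List.length_eq_zero_iff] at hx
    subst hx
    exact ⟨h, (P_nil h).symm⟩
  · rintro ⟨g, rfl⟩
    exact hl_of g

theorem hl_mem_of {x : HNNExtension G A B φ} (hx : hl x = 0) (g : G) :
    hl (x * of g) = 0 := by
  rw [hl_eq_zero] at hx ⊢
  obtain ⟨g', rfl⟩ := hx
  exact ⟨g' * g, by rw [map_mul]⟩

theorem hl_hyp (x y z : HNNExtension G A B φ) :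
    min ((hl x : ℤ) + hl z - hl (x⁻¹ * z)) ((hl z : ℤ) + hl y - hl (z⁻¹ * y)) ≤
      (hl x : ℤ) + hl y - hl (x⁻¹ * y) := by
  obtain ⟨hx, lx, cx, rfl⟩ := exists_P x
  obtain ⟨hy, ly, cy, rfl⟩ := exists_P y
  obtain ⟨hz, lz, cz, rfl⟩ := exists_P z
  obtain ⟨a, a1, a2, a3, a4⟩ := hl_compare (φ := φ) lx hx cx hz lz cz
  obtain ⟨b, b1, b2, b3, b4⟩ := hl_compare (φ := φ) lz hz cz hy ly cy
  obtain ⟨c, c1, c2, c3, c4⟩ := hl_compare (φ := φ) lx hx cx hy ly cy
  rw [hl_P cx, hl_P cy, hl_P cz]
  have key : min a b ≤ c := by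
    set k := min a b with hk
    have ka : k ≤ a := min_le_left _ _
    have kb : k ≤ b := min_le_right _ _
    rw [c4 k (by omega) (by omega)]
    have e1 := (a4 k (by omega) (by omega)).1 ka
    have e2 := (b4 k (by omega) (by omega)).1 kb
    rw [hl_eq_zero] at e1 e2 ⊢
    obtain ⟨g1, h1⟩ := e1
    obtain ⟨g2, h2⟩ := e2
    refine ⟨g1 * g2, ?_⟩
    rw [map_mul, h1, h2]
    group
  omega

/-- the tree length of an HNN extension -/
noncomputable def treeLen (φ : A ≃* B) : TreeLen (HNNExtension G A B φ) where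
  len := hl
  len_one := hl_one
  len_inv := hl_inv
  hyp := hl_hyp

theorem hl_parity (x y : HNNExtension G A B φ) :
    ∃ c : ℕ, hl (x⁻¹ * y) + 2 * c = hl x + hl y := by
  obtain ⟨hx, lx, cx, rfl⟩ := exists_P x
  obtain ⟨hy, ly, cy, rfl⟩ := exists_P y
  obtain ⟨c, c1, c2, c3, c4⟩ := hl_compare (φ := φ) lx hx cx hy ly cy
  rw [hl_P cx, hl_P cy]
  exact ⟨c, c3⟩

/-- first step towards `x` -/
theorem exists_step (x : HNNExtension G A B φ) (hx : hl x ≠ 0) :
    ∃ (g : G) (u : ℤˣ), hl (of g * t ^ (u : ℤ) : HNNExtension G A B φ) = 1 ∧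
      hl ((of g * t ^ (u : ℤ))⁻¹ * x) + 1 = hl x := by
  obtain ⟨h, l, hl', rfl⟩ := exists_P x
  rw [hl_P hl'] at hx ⊢
  cases l with
  | nil => simp at hx
  | cons a l =>
    obtain ⟨u, g⟩ := a
    refine ⟨h, u, ?_, ?_⟩
    · have := hl_P (φ := φ) (h := h) (l := [(u, 1)]) (by simp)
      rw [P_cons, P_nil] at this
      simpa using this
    · rw [P_cons]
      have e : (of h * t ^ (u:ℤ))⁻¹ * (of h * t ^ (u:ℤ) * P φ g l) = P φ g l := by group
      rw [e, hl_P (List.isChain_cons.1 hl').2]
      simp

/-- Britton: conjugating by the stable letter back into the base -/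
theorem britton (u : ℤˣ) (b : G)
    (h : hl ((t ^ (u : ℤ))⁻¹ * of b * t ^ (u : ℤ) : HNNExtension G A B φ) = 0) :
    b ∈ toSubgroup A B (-u) := by
  by_contra hb
  have hc : Ch A B [(-u, b), (u, 1)] := by
    simp [hb]
  have := hl_P (φ := φ) (h := 1) hc
  rw [P_cons, P_cons, P_nil] at this
  simp only [map_one, one_mul, mul_one, Units.val_neg, zpow_neg, List.length_cons,
    List.length_nil] at this
  rw [← mul_assoc, h] at this
  omega

end Pool.Agent.Helper81.HNN
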