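import Pool.Agent.Helper81.RD.HNN

set_option autoImplicit false
open Classical HNNExtension HNNExtension.NormalWord

namespace Pool.Agent.Helper81.HNN

variable {G : Type*} [Group G] {A B : Subgroup G} {φ : A ≃* B}

/-- exponent sum of the stable letter -/
def expo (φ : A ≃* B) : HNNExtension G A B φ →* Multiplicative ℤ :=
  HNNExtension.lift 1 (Multiplicative.ofAdd 1) (by intro a; simp)

theorem expo_of (g : G) : expo φ (of g) = 1 := by simp [expo]

theorem expo_t_zpow (u : ℤˣ) : expo φ (t ^ (u : ℤ)) = Multiplicative.ofAdd (u : ℤ) := by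
  simp [expo, ← ofAdd_zsmul]

theorem expo_eq {x y : HNNExtension G A B φ} (h : hl (x⁻¹ * y) = 0) : expo φ x = expo φ y := by
  rw [hl_eq_zero] at h
  obtain ⟨g, hg⟩ := h
  have : y = x * of g := by rw [hg]; group
  rw [this, map_mul, expo_of, mul_one]

/-- an element conjugate to no element of the base has a translation axis -/
theorem exists_axis (g : HNNExtension G A B φ) (hg : ∀ y, hl (y⁻¹ * g * y) ≠ 0) :
    ∃ (y : HNNExtension G A B φ) (τ : ℕ), 1 ≤ τ ∧ (treeLen φ).Axis g y τ := by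
  obtain ⟨y, hy⟩ : ∃ y, ∀ z, hl (y⁻¹ * g * y) ≤ hl (z⁻¹ * g * z) := by
    have hne : (Set.range fun z => hl (z⁻¹ * g * z)).Nonempty := ⟨_, ⟨1, rfl⟩⟩
    obtain ⟨y, hy⟩ := Nat.sInf_mem hne
    refine ⟨y, fun z => ?_⟩
    simp only at hy
    rw [hy]
    exact Nat.sInf_le ⟨z, rfl⟩
  set g' := y⁻¹ * g * y with hg'
  set τ := hl g' with hτ
  have hτ1 : 1 ≤ τ := Nat.one_le_iff_ne_zero.mpr (hg y)
  have hmin : ∀ z, τ ≤ hl (z⁻¹ * g' * z) := by
    intro z
    have := hy (y * z)
    have e : (y * z)⁻¹ * g * (y * z) = z⁻¹ * g' * z := by rw [hg']; group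
    rwa [e] at this
  have hinv : hl g'⁻¹ = τ := by rw [hl_inv]
  -- step one
  have h2 : hl (g' * g') = 2 * τ := by
    obtain ⟨c, hc⟩ := hl_parity g'⁻¹ g'
    rw [inv_inv, hinv] at hc
    by_contra hne
    have hc1 : 1 ≤ c := by omega
    obtain ⟨h, u, hs1, hs2⟩ := exists_step g' (by omega)
    set s : HNNExtension G A B φ := of h * t ^ (u : ℤ) with hs
    -- (s | g'⁻¹) ≥ 2
    have f1 := hl_hyp s g'⁻¹ g'
    have e1 : hl (g'⁻¹ * g'⁻¹) = hl (g' * g') := by
      rw [← hl_inv (g' * g')]; congr 1; group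
    have e2 : hl (s⁻¹ * g'⁻¹) = hl (g' * s) := by
      rw [← hl_inv (g' * s)]; congr 1; group
    rw [hs1, hinv, e1, e2] at f1
    have hgs : hl (g' * s) ≤ τ - 1 := by
      rw [min_le_iff] at f1
      omega
    have hgs' : τ ≤ hl (g' * s) + 1 := by
      have := (treeLen φ).len_mul (g' * s) s⁻¹
      have e3 : g' * s * s⁻¹ = g' := by group
      change hl (g' * s * s⁻¹) ≤ hl (g' * s) + hl s⁻¹ at this
      rw [e3, hl_inv, hs1] at this
      exact this
    rcases Nat.lt_or_ge 1 τ with h1 | h1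
    · have f2 := hl_hyp s (g' * s) g'
      have e4 : hl (g'⁻¹ * (g' * s)) = 1 := by rw [inv_mul_cancel_left, hs1]
      rw [e4, hs1] at f2
      have := hmin s
      rw [mul_assoc] at this
      rw [min_le_iff] at f2
      omega
    · have hτ' : τ = 1 := by omega
      have e5 : hl (s⁻¹ * g') = 0 := by omega
      have e6 : hl (s⁻¹ * g'⁻¹) = 0 := by omega
      have e7 := expo_eq e5
      have e8 := expo_eq e6
      rw [map_inv, ← e7] at e8
      have e9 : expo φ s = Multiplicative.ofAdd (u : ℤ) := by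
        rw [hs, map_mul, expo_of, one_mul, expo_t_zpow]
      rw [e9, ← ofAdd_neg] at e8
      have e10 : (u : ℤ) = -u := Multiplicative.ofAdd.injective e8
      have e11 : (u : ℤ) ≠ 0 := by
        rcases Int.units_eq_one_or u with rfl | rfl <;> simp
      omega
  have hpow : ∀ n : ℕ, hl (g' ^ n) = n * τ ∧ hl (g' ^ (n + 1)) = (n + 1) * τ := by
    intro n
    induction n with
    | zero => simp [hl_one, hτ]
    | succ n ih =>
      refine ⟨ih.2, ?_⟩
      -- (g'⁻¹ | g'^(n+1)) = 0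
      have f := hl_hyp g'⁻¹ g' (g' ^ (n + 1))
      have e1 : hl (g'⁻¹⁻¹ * g' ^ (n + 1)) = hl (g' ^ (n + 1 + 1)) := by
        congr 1; rw [inv_inv]; group
      have e2 : hl ((g' ^ (n + 1))⁻¹ * g') = hl (g' ^ n) := by
        rw [← hl_inv (g' ^ n)]; congr 1; group
      have e3 : hl (g'⁻¹⁻¹ * g') = 2 * τ := by rw [inv_inv, h2]
      rw [e1, e2, e3, hinv, ih.1, ih.2, ← hτ] at f
      have t1 := (treeLen φ).len_mul g' (g' ^ (n + 1))
      change hl (g' * g' ^ (n + 1)) ≤ hl g' + hl (g' ^ (n + 1)) at t1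
      rw [← pow_succ', ih.2, ← hτ] at t1
      have e4 : ((n + 1 + 1 : ℕ)) * τ = (n + 1) * τ + τ := by ring
      have e5 : ((n + 1 : ℕ)) * τ = n * τ + τ := by ring
      change hl (g' ^ (n + 1 + 1)) = (n + 1 + 1) * τ
      rw [e4]
      have hnτ : 0 ≤ n * τ := Nat.zero_le _
      push_cast at f
      rw [min_le_iff] at f
      have e6 : ((n : ℤ) + 1) * τ = n * τ + τ := by ring
      rw [e6] at f
      have e7 : ((n:ℤ) * τ) = ((n * τ : ℕ) : ℤ) := by push_cast; ring
      rw [e7] at f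
      omega
  refine ⟨y, τ, hτ1, fun n => ?_⟩
  change hl (y⁻¹ * g ^ n * y) = n * τ
  have : y⁻¹ * g ^ n * y = g' ^ n := by
    rw [hg']
    have := conj_pow (a := y⁻¹) (b := g) (i := n)
    rw [inv_inv] at this
    exact this.symm
  rw [this]
  exact (hpow n).1

/-- an element of the base fixing another vertex fixes the first step, so lies in an edge group -/
theorem edge_of_fix (w : HNNExtension G A B φ) (x : HNNExtension G A B φ) (hw : hl w = 0)
    (hx : hl x ≠ 0) (hfix : hl (x⁻¹ * w * x) = 0) :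
    ∃ (h b : G) (u : ℤˣ), b ∈ toSubgroup A B (-u) ∧ w = of h * of b * (of h)⁻¹ ∧
      hl (of h * t ^ (u : ℤ) : HNNExtension G A B φ) = 1 ∧
      hl ((of h * t ^ (u : ℤ))⁻¹ * x) + 1 = hl x := by
  obtain ⟨h, u, hs1, hs2⟩ := exists_step x hx
  rw [hl_eq_zero] at hw
  obtain ⟨w0, rfl⟩ := hw
  set s : HNNExtension G A B φ := of h * t ^ (u : ℤ) with hs
  set w : HNNExtension G A B φ := of w0 with hw
  refine ⟨h, h⁻¹ * w0 * h, u, ?_, ?_, hs1, hs2⟩
  · apply britton (φ := φ)
    -- s⁻¹ w s has length 0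
    have f := hl_hyp s (w * s) x
    have f2 := hl_hyp x (w * s) (w * x)
    have hw0 : hl w = 0 := hl_of w0
    have e1 : hl (w * s) = 1 := by
      have := (treeLen φ).len_mul w s
      have := (treeLen φ).len_mul w⁻¹ (w * s)
      change hl (w⁻¹ * (w * s)) ≤ hl w⁻¹ + hl (w * s) at this
      rw [inv_mul_cancel_left, hl_inv, hw0] at this
      rename_i h3
      change hl (w * s) ≤ hl w + hl s at h3
      omega
    have e2 : hl (w * x) = hl x := by
      have h3 := (treeLen φ).len_mul w x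
      have := (treeLen φ).len_mul w⁻¹ (w * x)
      change hl (w⁻¹ * (w * x)) ≤ hl w⁻¹ + hl (w * x) at this
      rw [inv_mul_cancel_left, hl_inv, hw0] at this
      change hl (w * x) ≤ hl w + hl x at h3
      omega
    have e3 : hl ((w * x)⁻¹ * (w * s)) = hl (s⁻¹ * x) := by
      rw [← hl_inv (s⁻¹ * x)]; congr 1; group
    have e4 : hl (x⁻¹ * (w * x)) = 0 := by rw [← mul_assoc]; exact hfix
    rw [hs1, e1] at f
    rw [e1, e2, e3, e4] at f2
    rw [min_le_iff] at f f2
    have : hl (s⁻¹ * (w * s)) = 0 := by omega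
    rw [← this, hs, hw]
    congr 1
    simp [mul_assoc]
  · rw [hw]
    simp [mul_assoc]

end Pool.Agent.Helper81.HNN
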