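import Pool.Agent.Helper81.RD.Tri

set_option autoImplicit false
open Classical

namespace Pool.Agent.Helper81

abbrev F5 := FreeGroup (Fin 5)
abbrev F3 := FreeGroup (Fin 3)

/-- state space of the labelled action -/
abbrev St := ℤ × ℤ × F5

/-- generators of the free group of rank five -/
abbrev g5 (i : Fin 5) : F5 := FreeGroup.of i

/-- label of the first generator -/
def labx (n : ℤ) : F5 := if n = 0 then g5 0 else g5 3

/-- action of x -/
noncomputable def px : Equiv.Perm St where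
  toFun p := if p.1 = 0 ∨ p.1 = -1 then
      (if p.2.1 = 0 then (p.1, 1, labx p.1 * p.2.2) else
        if p.2.1 = 1 then (p.1, 0, p.2.2) else p)
    else (p.1, p.2.1 + 1, p.2.2)
  invFun p := if p.1 = 0 ∨ p.1 = -1 then
      (if p.2.1 = 0 then (p.1, 1, p.2.2) else
        if p.2.1 = 1 then (p.1, 0, (labx p.1)⁻¹ * p.2.2) else p)
    else (p.1, p.2.1 - 1, p.2.2)
  left_inv p := by
    obtain ⟨n, j, u⟩ := p
    by_cases h1 : n = 0 ∨ n = -1
    · by_cases h2 : j = 0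
      · simp [h1, h2]
      · by_cases h3 : j = 1
        · simp [h1, h3]
        · simp [h1, h2, h3]
    · simp [h1]
  right_inv p := by
    obtain ⟨n, j, u⟩ := p
    by_cases h1 : n = 0 ∨ n = -1
    · by_cases h2 : j = 0
      · simp [h1, h2]
      · by_cases h3 : j = 1
        · simp [h1, h3]
        · simp [h1, h2, h3]
    · simp [h1]

/-- action of y -/
noncomputable def py : Equiv.Perm St where
  toFun p := if p.2.1 = 0 then (p.1 + 1, 0, p.2.2) else
      if p.1 = 0 ∧ p.2.1 = 1 then (0, 2, p.2.2) else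
        if p.1 = 0 ∧ p.2.1 = 2 then (0, 1, g5 1 * p.2.2) else p
  invFun p := if p.2.1 = 0 then (p.1 - 1, 0, p.2.2) else
      if p.1 = 0 ∧ p.2.1 = 2 then (0, 1, p.2.2) else
        if p.1 = 0 ∧ p.2.1 = 1 then (0, 2, (g5 1)⁻¹ * p.2.2) else p
  left_inv p := by
    obtain ⟨n, j, u⟩ := p
    by_cases h1 : j = 0
    · simp [h1]
    · by_cases h2 : n = 0 ∧ j = 1
      · simp [h2.1, h2.2]
      · by_cases h3 : n = 0 ∧ j = 2
        · simp [h3.1, h3.2]
        · simp [h1, h2, h3]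
  right_inv p := by
    obtain ⟨n, j, u⟩ := p
    by_cases h1 : j = 0
    · simp [h1]
    · by_cases h2 : n = 0 ∧ j = 1
      · simp [h2.1, h2.2]
      · by_cases h3 : n = 0 ∧ j = 2
        · simp [h3.1, h3.2]
        · simp [h1, h2, h3]

/-- action of z -/
noncomputable def pz : Equiv.Perm St where
  toFun p := if p.1 = 0 ∧ p.2.1 = 0 then (p.1, p.2.1, g5 2 * p.2.2) else
      if p.1 = -1 ∧ p.2.1 = 0 then (p.1, p.2.1, g5 4 * p.2.2) else p
  invFun p := if p.1 = 0 ∧ p.2.1 = 0 then (p.1, p.2.1, (g5 2)⁻¹ * p.2.2) else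
      if p.1 = -1 ∧ p.2.1 = 0 then (p.1, p.2.1, (g5 4)⁻¹ * p.2.2) else p
  left_inv p := by
    obtain ⟨n, j, u⟩ := p
    by_cases h1 : n = 0 ∧ j = 0
    · simp [h1.1, h1.2]
    · by_cases h2 : n = -1 ∧ j = 0
      · simp [h2.1, h2.2]
      · simp [h1, h2]
  right_inv p := by
    obtain ⟨n, j, u⟩ := p
    by_cases h1 : n = 0 ∧ j = 0
    · simp [h1.1, h1.2]
    · by_cases h2 : n = -1 ∧ j = 0
      · simp [h2.1, h2.2]
      · simp [h1, h2]

theorem perm_iter {S : Type*} (p : Equiv.Perm S) (h : ℤ → S) (hh : ∀ k, p (h k) = h (k + 1))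
    (m k : ℤ) : (p ^ m) (h k) = h (k + m) := by
  have h1 : ∀ m : ℕ, ∀ k, (p ^ m) (h k) = h (k + m) := by
    intro m
    induction m with
    | zero => intro k; simp
    | succ m ih =>
      intro k
      rw [pow_succ, Equiv.Perm.mul_apply, hh, ih]
      congr 1
      push_cast
      ring
  rcases Int.eq_nat_or_neg m with ⟨n, rfl | rfl⟩
  · exact_mod_cast h1 n k
  · have h2 := h1 n (k + -n)
    rw [neg_add_cancel_right] at h2
    rw [zpow_neg, zpow_natCast, Equiv.Perm.inv_eq_iff_eq]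
    exact h2.symm

theorem px_far {n : ℤ} (h0 : n ≠ 0) (h1 : n ≠ -1) (j : ℤ) (u : F5) (k : ℤ) :
    (px ^ k) (n, j, u) = (n, j + k, u) := by
  have := perm_iter px (fun k => (n, j + k, u)) (by
    intro k
    simp [px, h0, h1, add_assoc]) k 0
  simpa using this

theorem px_even {n : ℤ} (h : n = 0 ∨ n = -1) (u : F5) (k : ℤ) :
    (px ^ (2 * k)) (n, 0, u) = (n, 0, labx n ^ k * u) := by
  have := perm_iter (px ^ 2) (fun k => (n, 0, labx n ^ k * u)) (by
    intro k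
    rw [pow_two, Equiv.Perm.mul_apply]
    simp [px, h, zpow_one_add, add_comm k 1, mul_assoc]) k 0
  rw [zpow_mul]
  simpa using this

theorem px_inv_zero {n : ℤ} (h : n = 0 ∨ n = -1) (u : F5) : (px ^ (-1 : ℤ)) (n, 0, u) = (n, 1, u) := by
  rw [zpow_neg_one, Equiv.Perm.inv_eq_iff_eq]
  simp [px, h]

theorem px_one {n : ℤ} (h : n = 0 ∨ n = -1) (u : F5) : px (n, 1, u) = (n, 0, u) := by
  simp [px, h]

theorem py_zero (n : ℤ) (u : F5) (k : ℤ) : (py ^ k) (n, 0, u) = (n + k, 0, u) := by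
  have := perm_iter py (fun k => (n + k, 0, u)) (by
    intro k
    simp [py, add_assoc]) k 0
  simpa using this

theorem py_even (u : F5) (k : ℤ) : (py ^ (2 * k)) (0, 1, u) = (0, 1, g5 1 ^ k * u) := by
  have := perm_iter (py ^ 2) (fun k => (0, 1, g5 1 ^ k * u)) (by
    intro k
    rw [pow_two, Equiv.Perm.mul_apply]
    simp [py, zpow_one_add, add_comm k 1, mul_assoc]) k 0
  rw [zpow_mul]
  simpa using this

theorem py_fix {n j : ℤ} (hn : n ≠ 0) (hj : j ≠ 0) (u : F5) (k : ℤ) :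
    (py ^ k) (n, j, u) = (n, j, u) := by
  have := perm_iter py (fun _ => (n, j, u)) (by
    intro k
    simp [py, hn, hj]) k 0
  simpa using this

theorem pz_zero (u : F5) (k : ℤ) : (pz ^ k) (0, 0, u) = (0, 0, g5 2 ^ k * u) := by
  have := perm_iter pz (fun k => (0, 0, g5 2 ^ k * u)) (by
    intro k
    simp [pz, zpow_one_add, add_comm k 1, mul_assoc]) k 0
  simpa using this

theorem pz_neg (u : F5) (k : ℤ) : (pz ^ k) (-1, 0, u) = (-1, 0, g5 4 ^ k * u) := by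
  have := perm_iter pz (fun k => (-1, 0, g5 4 ^ k * u)) (by
    intro k
    simp [pz, zpow_one_add, add_comm k 1, mul_assoc]) k 0
  simpa using this

theorem pz_fix {n j : ℤ} (h : ¬ (n = 0 ∧ j = 0)) (h' : ¬ (n = -1 ∧ j = 0)) (u : F5) (k : ℤ) :
    (pz ^ k) (n, j, u) = (n, j, u) := by
  have := perm_iter pz (fun _ => (n, j, u)) (by
    intro k
    simp [pz, h, h']) k 0
  simpa using this

theorem pz_fst (p : St) (k : ℤ) : ((pz ^ k) p).1 = p.1 := by
  obtain ⟨n, j, u⟩ := p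
  by_cases h1 : n = 0 ∧ j = 0
  · rw [h1.1, h1.2, pz_zero]
  · by_cases h2 : n = -1 ∧ j = 0
    · rw [h2.1, h2.2, pz_neg]
    · rw [pz_fix h1 h2]

/-- the integral seven letter element, evaluated in permutations -/
noncomputable def qq {H : Type*} [Group H] (x y z : H) (G A A' S S' : ℕ) : H :=
  z ^ (-(2:ℤ) ^ G) * (x ^ ((2:ℤ) ^ A) * (y ^ (-(2:ℤ) ^ S) * (x ^ (-(2:ℤ) ^ A) * (x ^ ((2:ℤ) ^ A') *
    (y ^ ((2:ℤ) ^ S') * (x ^ (-(2:ℤ) ^ A') * z ^ ((2:ℤ) ^ G)))))))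

theorem two_pow_pos (A : ℕ) : (1 : ℤ) ≤ 2 ^ A := one_le_pow₀ (by norm_num)

theorem pow_ne {A A' : ℕ} (h : A ≠ A') : (2:ℤ) ^ A ≠ 2 ^ A' := by
  intro e
  exact h (Nat.pow_right_injective (le_refl 2) (by exact_mod_cast e))

/-- evaluation at the base vertex -/
theorem eval_zero {G A A' S S' : ℕ} (hne : A ≠ A') (hs : A + S = A' + S') (u : F5) :
    (qq px py pz G A A' S S' (0, 0, u)).1 ≠ 0 := by
  unfold qq
  simp only [Equiv.Perm.mul_apply]
  rw [pz_zero]
  cases A' with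
  | zero =>
    obtain ⟨A1, rfl⟩ : ∃ A1, A = A1 + 1 := ⟨A - 1, by omega⟩
    obtain ⟨S1, rfl⟩ : ∃ S1, S' = S1 + 1 := ⟨S' - 1, by omega⟩
    have e1 : (2:ℤ) ^ (S1 + 1) = 2 * 2 ^ S1 := by rw [pow_succ]; ring
    have e2 : -(2:ℤ) ^ (A1 + 1) = 2 * (-2 ^ A1) := by rw [pow_succ]; ring
    rw [pow_zero, px_inv_zero (Or.inl rfl), zpow_one, e1, py_even, px_one (Or.inl rfl), e2,
      px_even (Or.inl rfl), py_zero, zero_add, pz_fst]
    cases S with
    | zero =>
      have e3 : (2:ℤ) ^ (A1 + 1) = 2 * 2 ^ A1 := by rw [pow_succ]; ring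
      rw [pow_zero, e3, px_even (Or.inr rfl)]
      norm_num
    | succ S =>
      have h1 := two_pow_pos S
      have e4 : (2:ℤ) ^ (S + 1) = 2 * 2 ^ S := by rw [pow_succ]; ring
      rw [px_far (by omega) (by omega)]
      simp only
      omega
  | succ A1' =>
    have e2 : -(2:ℤ) ^ (A1' + 1) = 2 * (-2 ^ A1') := by rw [pow_succ]; ring
    have h1 := two_pow_pos S'
    have h2 := pow_ne hne
    have n0 : (2:ℤ) ^ S' ≠ 0 := by omega
    have n1 : (2:ℤ) ^ S' ≠ -1 := by omega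
    have j0 : (0:ℤ) + 2 ^ (A1' + 1) + -2 ^ A ≠ 0 := by omega
    rw [e2, px_even (Or.inl rfl), py_zero, zero_add, px_far n0 n1,
      px_far n0 n1, py_fix n0 j0, px_far n0 n1, pz_fst]
    exact n0

/-- the words w(m,k) -/
def wmk (m k : ℕ) : F5 :=
  g5 2 ^ (-(2:ℤ) ^ k) * (g5 1 ^ (-(2:ℤ) ^ m) * (g5 0 ^ ((2:ℤ) ^ m) * (g5 3 ^ (-(2:ℤ) ^ m) *
    g5 4 ^ ((2:ℤ) ^ k))))

/-- evaluation at the other vertex -/
theorem eval_neg {G A A' S S' : ℕ} (hne : A ≠ A') (hs : A + S = A' + S') (u : F5) :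
    (qq px py pz G A A' S S' (-1, 0, u)).1 ≠ -1 ∧
    ((qq px py pz G A A' S S' (-1, 0, u)).1 = 0 → ∃ m,
      qq px py pz G A A' S S' (-1, 0, u) = (0, 0, wmk m G * u)) := by
  unfold qq
  simp only [Equiv.Perm.mul_apply]
  rw [pz_neg]
  cases A' with
  | zero =>
    obtain ⟨A1, rfl⟩ : ∃ A1, A = A1 + 1 := ⟨A - 1, by omega⟩
    have e2 : -(2:ℤ) ^ (A1 + 1) = 2 * (-2 ^ A1) := by rw [pow_succ]; ring
    have h1 := two_pow_pos S
    have n0 : (-1:ℤ) + -2 ^ S ≠ 0 := by omega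
    have n1 : (-1:ℤ) + -2 ^ S ≠ -1 := by omega
    rw [pow_zero, px_inv_zero (Or.inr rfl), zpow_one, py_fix (n := -1) (j := 1) (by norm_num)
      (by norm_num), px_one (Or.inr rfl), e2, px_even (Or.inr rfl), py_zero, px_far n0 n1, pz_fst]
    exact ⟨n1, fun h => absurd h n0⟩
  | succ A1' =>
    have e2 : -(2:ℤ) ^ (A1' + 1) = 2 * (-2 ^ A1') := by rw [pow_succ]; ring
    have e3 : (2:ℤ) ^ (A1' + 1) = 2 * 2 ^ A1' := by rw [pow_succ]; ring
    rw [e2, px_even (Or.inr rfl), py_zero]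
    cases S' with
    | zero =>
      rw [pow_zero, neg_add_cancel, e3, px_even (Or.inl rfl)]
      cases A with
      | zero =>
        obtain rfl : S = A1' + 1 := by omega
        rw [pow_zero, px_inv_zero (Or.inl rfl), zpow_one, e2, py_even, px_one (Or.inl rfl),
          pz_zero]
        constructor
        · norm_num
        · intro _
          refine ⟨A1', ?_⟩
          simp [wmk, labx, mul_assoc]
      | succ A1 =>
        obtain ⟨S1, rfl⟩ : ∃ S1, S = S1 + 1 := ⟨S - 1, by omega⟩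
        have e4 : -(2:ℤ) ^ (A1 + 1) = 2 * (-2 ^ A1) := by rw [pow_succ]; ring
        have e5 : (2:ℤ) ^ (S1 + 1) = 2 * 2 ^ S1 := by rw [pow_succ]; ring
        have h1 := two_pow_pos S1
        have n0 : (0:ℤ) + -2 ^ (S1 + 1) ≠ 0 := by omega
        have n1 : (0:ℤ) + -2 ^ (S1 + 1) ≠ -1 := by omega
        rw [e4, px_even (Or.inl rfl), py_zero, px_far n0 n1, pz_fst]
        exact ⟨n1, fun h => absurd h n0⟩
    | succ S1' =>
      have e5 : (2:ℤ) ^ (S1' + 1) = 2 * 2 ^ S1' := by rw [pow_succ]; ring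
      have h1 := two_pow_pos S1'
      have h2 := pow_ne hne
      have n0 : (-1:ℤ) + 2 ^ (S1' + 1) ≠ 0 := by omega
      have n1 : (-1:ℤ) + 2 ^ (S1' + 1) ≠ -1 := by omega
      have j0 : (0:ℤ) + 2 ^ (A1' + 1) + -2 ^ A ≠ 0 := by omega
      rw [px_far n0 n1, px_far n0 n1, py_fix n0 j0, px_far n0 n1, pz_fst]
      exact ⟨n1, fun h => absurd h n0⟩

/-- the action of the free group of rank three -/
noncomputable def act3 : F3 →* Equiv.Perm St := FreeGroup.lift ![px, py, pz]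

/-- generators of rank three -/
abbrev X3 : F3 := FreeGroup.of 0
abbrev Y3 : F3 := FreeGroup.of 1
abbrev Z3 : F3 := FreeGroup.of 2

theorem act3_X : act3 X3 = px := by simp [act3]
theorem act3_Y : act3 Y3 = py := by simp [act3]
theorem act3_Z : act3 Z3 = pz := by simp [act3]

theorem map_qq {H H' : Type*} [Group H] [Group H'] (f : H →* H') (x y z : H)
    (G A A' S S' : ℕ) : f (qq x y z G A A' S S') = qq (f x) (f y) (f z) G A A' S S' := by
  simp only [qq, map_mul, map_zpow]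

/-- the embedding of the free group of rank five -/
def emb : F5 →* F3 := FreeGroup.lift ![X3 ^ 2, X3 * Y3 ^ 2 * X3⁻¹, Z3, Y3 * X3 ^ 2 * Y3⁻¹,
  Y3 * Z3 * Y3⁻¹]

theorem emb_0 : emb (g5 0) = X3 ^ 2 := by simp [emb]
theorem emb_1 : emb (g5 1) = X3 * Y3 ^ 2 * X3⁻¹ := by simp [emb]
theorem emb_2 : emb (g5 2) = Z3 := by simp [emb]
theorem emb_3 : emb (g5 3) = Y3 * X3 ^ 2 * Y3⁻¹ := by simp [emb]
theorem emb_4 : emb (g5 4) = Y3 * Z3 * Y3⁻¹ := by simp [emb]

theorem act_emb (w u : F5) : act3 (emb w) (0, 0, u) = (0, 0, w * u) := by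
  have hgen : ∀ (i : Fin 5) (u : F5), act3 (emb (g5 i)) (0, 0, u) = (0, 0, g5 i * u) := by
    have hpy : ∀ u : F5, (py ^ (-1 : ℤ)) (0, 0, u) = (-1, 0, u) := fun u => by
      rw [py_zero]; rfl
    have hpy' : ∀ u : F5, py (-1, 0, u) = (0, 0, u) := fun u => by
      have := py_zero (-1) u 1
      simpa using this
    have hx2 : ∀ (n : ℤ) (h : n = 0 ∨ n = -1) (u : F5), (px ^ 2) (n, 0, u) =
        (n, 0, labx n * u) := fun n h u => by
      have := px_even h u 1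
      simpa using this
    intro i u
    fin_cases i
    · change act3 (emb (g5 0)) (0, 0, u) = (0, 0, g5 0 * u)
      rw [emb_0, map_pow, act3_X, hx2 0 (Or.inl rfl)]
      rfl
    · change act3 (emb (g5 1)) (0, 0, u) = (0, 0, g5 1 * u)
      have h1 := py_even u 1
      have h2 := px_inv_zero (n := 0) (Or.inl rfl) u
      rw [mul_one] at h1
      have h1' : (py ^ 2) (0, 1, u) = (0, 1, g5 1 * u) := by simpa using h1
      rw [emb_1, map_mul, map_mul, map_pow, map_inv, act3_X, act3_Y, Equiv.Perm.mul_apply,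
        Equiv.Perm.mul_apply, ← zpow_neg_one, h2, h1', px_one (Or.inl rfl)]
    · change act3 (emb (g5 2)) (0, 0, u) = (0, 0, g5 2 * u)
      have h1 := pz_zero u 1
      rw [emb_2, act3_Z]
      simpa using h1
    · change act3 (emb (g5 3)) (0, 0, u) = (0, 0, g5 3 * u)
      rw [emb_3, map_mul, map_mul, map_pow, map_inv, act3_X, act3_Y, Equiv.Perm.mul_apply,
        Equiv.Perm.mul_apply, ← zpow_neg_one, hpy, hx2 (-1) (Or.inr rfl), hpy']
      rfl
    · change act3 (emb (g5 4)) (0, 0, u) = (0, 0, g5 4 * u)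
      have h1 := pz_neg u 1
      have h1' : pz (-1, 0, u) = (-1, 0, g5 4 * u) := by simpa using h1
      rw [emb_4, map_mul, map_mul, map_inv, act3_Y, act3_Z, Equiv.Perm.mul_apply,
        Equiv.Perm.mul_apply, ← zpow_neg_one, hpy, h1', hpy']
  induction w using FreeGroup.induction_on generalizing u with
  | C1 => simp
  | of i => exact hgen i u
  | inv_of i _ =>
    rw [map_inv, map_inv, Equiv.Perm.inv_eq_iff_eq]
    have := hgen i ((g5 i)⁻¹ * u)
    rw [mul_inv_cancel_left] at this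
    exact this.symm
  | mul x y hx hy =>
    rw [map_mul, map_mul, Equiv.Perm.mul_apply, hy, hx, mul_assoc]

theorem emb_injective : Function.Injective emb := by
  intro w w' h
  have h1 := act_emb w 1
  have h2 := act_emb w' 1
  rw [h, h2] at h1
  simpa using h1.symm

theorem int_of_p2 {e : ℤ} {a : ℤ} (h : (e : ℚ) = p2 a) : ∃ A : ℕ, a = A ∧ e = 2 ^ A := by
  by_cases ha : 0 ≤ a
  · obtain ⟨A, rfl⟩ := Int.eq_ofNat_of_zero_le ha
    refine ⟨A, rfl, ?_⟩
    have : (e : ℚ) = ((2 ^ A : ℤ) : ℚ) := by rw [h]; simp [p2]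
    exact_mod_cast this
  · exfalso
    push Not at ha
    have h1 : p2 a < 1 := by
      have := zpow_lt_one_of_neg₀ (a := (2:ℚ)) (by norm_num) ha
      exact this
    have h2 : 0 < p2 a := by positivity
    rw [← h] at h1 h2
    have h3 : e < 1 := by exact_mod_cast h1
    have h4 : 0 < e := by exact_mod_cast h2
    omega

theorem int_of_neg_p2 {e : ℤ} {a : ℤ} (h : (e : ℚ) = -p2 a) : ∃ A : ℕ, a = A ∧ e = -2 ^ A := by
  obtain ⟨A, h1, h2⟩ := int_of_p2 (e := -e) (a := a) (by push_cast; rw [h]; ring)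
  exact ⟨A, h1, by omega⟩

/-- integral elements of the difference set -/
theorem DD_integral (w : F3) (h : emQ (Fin 3) w ∈ DD) : ∃ G A A' S S' : ℕ, A ≠ A' ∧
    A + S = A' + S' ∧ w = qq X3 Y3 Z3 G A A' S S' := by
  obtain ⟨γ, s, a, a', h1, -, h3, h4⟩ := DD_rep h
  obtain ⟨l0, h5, rfl⟩ := integral_of_range h3 w h4.symm
  -- destructure l0
  unfold seven castL at h5
  simp only [List.map_eq_cons_iff, List.map_eq_nil_iff] at h5
  obtain ⟨⟨i1, e1⟩, _, rfl, h1', ⟨i2, e2⟩, _, rfl, h2', ⟨i3, e3⟩, _, rfl, h3', ⟨i4, e4⟩, _, rfl, h4',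
    ⟨i5, e5⟩, _, rfl, h5', ⟨i6, e6⟩, _, rfl, h6', ⟨i7, e7⟩, _, rfl, h7', rfl⟩ := h5
  simp only [Prod.mk.injEq] at h1' h2' h3' h4' h5' h6' h7'
  obtain ⟨rfl, k1⟩ := h1'
  obtain ⟨rfl, k2⟩ := h2'
  obtain ⟨rfl, k3⟩ := h3'
  obtain ⟨rfl, k4⟩ := h4'
  obtain ⟨rfl, k5⟩ := h5'
  obtain ⟨rfl, k6⟩ := h6'
  obtain ⟨rfl, k7⟩ := h7'
  obtain ⟨G, hG, rfl⟩ := int_of_neg_p2 k1
  obtain ⟨A, hA, rfl⟩ := int_of_p2 k2
  obtain ⟨S, hS, rfl⟩ := int_of_neg_p2 k3
  obtain ⟨S', hS', rfl⟩ := int_of_p2 k5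
  obtain ⟨A', hA', rfl⟩ := int_of_neg_p2 k6
  obtain ⟨G', hG', rfl⟩ := int_of_p2 k7
  have hGG : G' = G := by omega
  subst hGG
  have he4 : e4 = 2 ^ A' - 2 ^ A := by
    have : (e4 : ℚ) = ((2 ^ A' - 2 ^ A : ℤ) : ℚ) := by
      rw [k4, hA, hA']; simp [p2]
    exact_mod_cast this
  refine ⟨G', A, A', S, S', by omega, by omega, ?_⟩
  rw [he4]
  simp only [prodZ, List.map_cons, List.map_nil, List.prod_cons, List.prod_nil, mul_one, qq]
  have e : (FreeGroup.of 0 : F3) ^ ((2:ℤ) ^ A' - 2 ^ A) = FreeGroup.of 0 ^ (-(2:ℤ) ^ A) *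
      FreeGroup.of 0 ^ ((2:ℤ) ^ A') := by
    rw [← zpow_add]; congr 1; ring
  rw [e]
  simp only [mul_assoc]

/-- first fact -/
theorem fact_a (w : F5) : emQ (Fin 3) (emb w) ∉ DD := by
  intro h
  obtain ⟨G, A, A', S, S', h1, h2, h3⟩ := DD_integral _ h
  have h4 := act_emb w 1
  rw [h3, map_qq, act3_X, act3_Y, act3_Z] at h4
  have := eval_zero (G := G) h1 h2 1
  rw [h4] at this
  exact this rfl

theorem py_neg_one (u : F5) : act3 Y3 (-1, 0, u) = (0, 0, u) := by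
  have := py_zero (-1) u 1
  rw [act3_Y]
  simpa using this

/-- second fact -/
theorem fact_b (w : F5) : emQ (Fin 3) (Y3⁻¹ * emb w * Y3) ∉ DD := by
  intro h
  obtain ⟨G, A, A', S, S', h1, h2, h3⟩ := DD_integral _ h
  have h4 : act3 (Y3⁻¹ * emb w * Y3) (-1, 0, 1) = (-1, 0, w) := by
    rw [map_mul, map_mul, map_inv, Equiv.Perm.mul_apply, Equiv.Perm.mul_apply, py_neg_one, act_emb,
      mul_one, Equiv.Perm.inv_eq_iff_eq, py_neg_one]
  rw [h3, map_qq, act3_X, act3_Y, act3_Z] at h4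
  have := (eval_neg (G := G) h1 h2 1).1
  rw [h4] at this
  exact this rfl

/-- third fact -/
theorem fact_c (w : F5) (h : emQ (Fin 3) (emb w * Y3) ∈ DD) : ∃ m k, w = wmk m k := by
  obtain ⟨G, A, A', S, S', h1, h2, h3⟩ := DD_integral _ h
  have h4 : act3 (emb w * Y3) (-1, 0, 1) = (0, 0, w) := by
    rw [map_mul, Equiv.Perm.mul_apply, py_neg_one, act_emb, mul_one]
  rw [h3, map_qq, act3_X, act3_Y, act3_Z] at h4
  obtain ⟨m, hm⟩ := (eval_neg (G := G) h1 h2 1).2 (by rw [h4])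
  rw [h4] at hm
  refine ⟨m, G, ?_⟩
  simpa using hm

theorem emb_ne (w w' : F5) : emb w ≠ emb w' * Y3 := by
  intro h
  have h1 : emb (w'⁻¹ * w) = Y3 := by rw [map_mul, map_inv, h]; group
  have h2 := act_emb (w'⁻¹ * w) 1
  rw [h1, act3_Y] at h2
  have h3 := py_zero 0 1 1
  rw [zpow_one, h2] at h3
  simp at h3

end Pool.Agent.Helper81
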