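import Pool.Agent.Helper81.RD.Chain

set_option autoImplicit false
open Classical

namespace Pool.Agent.Helper81

/-! The finitely presented group `GG n R c`. -/

section defs

variable (n : ℕ)

/-- first family of generators -/
def iA (i : Fin n) : Fin (n + n + 1) := Fin.castAdd 1 (Fin.castAdd n i)
/-- second family of generators -/
def iB (i : Fin n) : Fin (n + n + 1) := Fin.castAdd 1 (Fin.natAdd n i)
/-- the vertex generator -/
def iV : Fin (n + n + 1) := Fin.natAdd (n + n) 0

/-- case distinction on generators -/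
def gcase {X : Type*} (f g : Fin n → X) (x : X) : Fin (n + n + 1) → X :=
  Fin.addCases (Fin.addCases f g) (fun _ => x)

@[simp] theorem gcase_A {X : Type*} (f g : Fin n → X) (x : X) (i : Fin n) :
    gcase n f g x (iA n i) = f i := by
  simp only [gcase, iA, Fin.addCases_left]
@[simp] theorem gcase_B {X : Type*} (f g : Fin n → X) (x : X) (i : Fin n) :
    gcase n f g x (iB n i) = g i := by
  simp only [gcase, iB, Fin.addCases_left, Fin.addCases_right]
@[simp] theorem gcase_V {X : Type*} (f g : Fin n → X) (x : X) :
    gcase n f g x (iV n) = x := by simp only [gcase, iV, Fin.addCases_right]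

theorem gen_cases {P : Fin (n + n + 1) → Prop} (hA : ∀ i, P (iA n i)) (hB : ∀ i, P (iB n i))
    (hV : P (iV n)) : ∀ i, P i := by
  intro i
  refine Fin.addCases (fun j => ?_) (fun j => ?_) i
  · refine Fin.addCases (fun k => ?_) (fun k => ?_) j
    · exact hA k
    · exact hB k
  · have : j = 0 := Subsingleton.elim _ _
    subst this
    exact hV

/-- commutator -/
def cm {G : Type*} [Group G] (x y : G) : G := x * y * x⁻¹ * y⁻¹

theorem cm_eq_one {G : Type*} [Group G] {x y : G} : cm x y = 1 ↔ Commute x y := by
  unfold cm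
  rw [mul_inv_eq_one, mul_inv_eq_iff_eq_mul]
  rfl

theorem map_cm {G H : Type*} [Group G] [Group H] (f : G →* H) (x y : G) :
    f (cm x y) = cm (f x) (f y) := by simp [cm]

/-- the embedding of the first free factor -/
def aF : FreeGroup (Fin n) →* FreeGroup (Fin (n + n + 1)) :=
  FreeGroup.lift fun i => FreeGroup.of (iA n i)

variable (R : Finset (FreeGroup (Fin n))) (c : FreeGroup (Fin n))

/-- relators of the big group -/
noncomputable def GRels : Finset (FreeGroup (Fin (n + n + 1))) :=
  ((Finset.univ : Finset (Fin n × Fin n)).image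
      (fun p => cm (FreeGroup.of (iA n p.1)) (FreeGroup.of (iB n p.2)))) ∪
  ((Finset.univ : Finset (Fin n)).image
      (fun i => cm (FreeGroup.of (iV n)) (FreeGroup.of (iA n i) * FreeGroup.of (iB n i)))) ∪
  (R.image (fun r => cm (FreeGroup.of (iV n)) (aF n r))) ∪
  {cm (FreeGroup.of (iV n)) (aF n c * FreeGroup.of (iV n) * (aF n c)⁻¹)}

/-- the big group -/
abbrev GG := PresentedGroup (↑(GRels n R c) : Set (FreeGroup (Fin (n + n + 1))))

/-- the small group -/
abbrev KK := PresentedGroup (↑R : Set (FreeGroup (Fin n)))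

end defs

section

variable {n : ℕ} (R : Finset (FreeGroup (Fin n))) (c : FreeGroup (Fin n))

/-- projection of the free group -/
abbrev pr : FreeGroup (Fin n) →* KK n R := PresentedGroup.mk _

theorem pr_surjective : Function.Surjective (pr R) := PresentedGroup.mk_surjective _

/-- the conjugacy relation -/
def Cj (x : KK n R) : Prop := ∃ h : KK n R, x = h * pr R c * h⁻¹ ∨ x = h * (pr R c)⁻¹ * h⁻¹

theorem Cj_inv {x : KK n R} (h : Cj R c x) : Cj R c x⁻¹ := by
  obtain ⟨h, rfl | rfl⟩ := h
  · exact ⟨h, Or.inr (by group)⟩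
  · exact ⟨h, Or.inl (by group)⟩

theorem Cj_conj {x : KK n R} (h : Cj R c x) (y : KK n R) : Cj R c (y * x * y⁻¹) := by
  obtain ⟨h, rfl | rfl⟩ := h
  · exact ⟨y * h, Or.inl (by group)⟩
  · exact ⟨y * h, Or.inr (by group)⟩

/-- the graph -/
def Gam : SimpleGraph (KK n R) where
  Adj k l := k ≠ l ∧ Cj R c (k⁻¹ * l)
  symm := ⟨fun k l h => ⟨h.1.symm, by
    have := Cj_inv R c h.2
    simpa using this⟩⟩
  loopless := ⟨fun k h => h.1 rfl⟩

theorem Gam_adj (k l : KK n R) : (Gam R c).Adj k l ↔ k ≠ l ∧ Cj R c (k⁻¹ * l) := Iff.rfl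

theorem Gam_adj_mul {k l : KK n R} (h : (Gam R c).Adj k l) (x y : KK n R) :
    (Gam R c).Adj (x * k * y) (x * l * y) := by
  refine ⟨fun e => h.1 ?_, ?_⟩
  · exact mul_left_cancel (mul_right_cancel e)
  · have := Cj_conj R c h.2 y⁻¹
    have e : (x * k * y)⁻¹ * (x * l * y) = y⁻¹ * (k⁻¹ * l) * y⁻¹⁻¹ := by group
    rw [e]
    exact this

/-- action of a pair on the RAAG -/
noncomputable def actHom (x y : KK n R) : RAAG (Gam R c) →* RAAG (Gam R c) :=
  RAAG.lift (fun k => RAAG.g (x * k * y⁻¹)) (fun _ _ h => RAAG.g_comm (Gam_adj_mul R c h x y⁻¹))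

theorem actHom_g (x y k : KK n R) :
    actHom R c x y (RAAG.g k) = RAAG.g (x * k * y⁻¹) := RAAG.lift_g _ _ _

theorem actHom_mul (x y x' y' : KK n R) (z : RAAG (Gam R c)) :
    actHom R c (x * x') (y * y') z = actHom R c x y (actHom R c x' y' z) := by
  have : actHom R c (x * x') (y * y') = (actHom R c x y).comp (actHom R c x' y') := by
    apply RAAG.hom_ext
    intro v
    simp only [MonoidHom.comp_apply, actHom_g]
    congr 1
    group
  exact DFunLike.congr_fun this z

theorem actHom_one (z : RAAG (Gam R c)) : actHom R c 1 1 z = z := by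
  have : actHom R c 1 1 = MonoidHom.id _ := by
    apply RAAG.hom_ext
    intro v
    simp only [MonoidHom.id_apply, actHom_g]
    congr 1
    group
  exact DFunLike.congr_fun this z

/-- the action as a hom to automorphisms -/
noncomputable def act : FreeGroup (Fin n) × FreeGroup (Fin n) →* MulAut (RAAG (Gam R c)) where
  toFun p :=
    { toFun := actHom R c (pr R p.1) (pr R p.2)
      invFun := actHom R c (pr R p.1)⁻¹ (pr R p.2)⁻¹
      left_inv := fun z => by rw [← actHom_mul]; simp [actHom_one]
      right_inv := fun z => by rw [← actHom_mul]; simp [actHom_one]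
      map_mul' := map_mul _ }
  map_one' := by
    ext z
    simp [actHom_one]
  map_mul' p q := by
    ext z
    simp [actHom_mul]

theorem act_g (p : FreeGroup (Fin n) × FreeGroup (Fin n)) (k : KK n R) :
    act R c p (RAAG.g k) = RAAG.g (pr R p.1 * k * (pr R p.2)⁻¹) := actHom_g R c _ _ _

/-- the semidirect product model -/
abbrev Mod := RAAG (Gam R c) ⋊[act R c] (FreeGroup (Fin n) × FreeGroup (Fin n))

/-- from the presented group to the model -/
noncomputable def Phi : GG n R c →* Mod R c :=
  PresentedGroup.toGroup (f := gcase n (fun i => SemidirectProduct.inr (FreeGroup.of i, 1))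
    (fun i => SemidirectProduct.inr (1, FreeGroup.of i)) (SemidirectProduct.inl (RAAG.g 1))) (by
    set f : Fin (n + n + 1) → Mod R c := gcase n (fun i => SemidirectProduct.inr (FreeGroup.of i, 1))
      (fun i => SemidirectProduct.inr (1, FreeGroup.of i)) (SemidirectProduct.inl (RAAG.g 1)) with hf
    have hfA : ∀ i, f (iA n i) = SemidirectProduct.inr (FreeGroup.of i, 1) := fun i => by
      rw [hf, gcase_A]
    have hfB : ∀ i, f (iB n i) = SemidirectProduct.inr (1, FreeGroup.of i) := fun i => by
      rw [hf, gcase_B]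
    have hfV : f (iV n) = SemidirectProduct.inl (RAAG.g 1) := by
      rw [hf, gcase_V]
    have haF : ∀ w, FreeGroup.lift f (aF n w) = SemidirectProduct.inr (w, 1) := by
      intro w
      have : (FreeGroup.lift f).comp (aF n) =
          (SemidirectProduct.inr : _ →* Mod R c).comp (MonoidHom.inl _ _) := by
        apply FreeGroup.ext_hom
        intro i
        simp [aF, hfA]
      exact DFunLike.congr_fun this w
    have hcomm : ∀ p : FreeGroup (Fin n) × FreeGroup (Fin n), pr R p.1 = pr R p.2 →
        Commute (SemidirectProduct.inl (RAAG.g 1) : Mod R c) (SemidirectProduct.inr p) := by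
      intro p hp
      have h1 := SemidirectProduct.inl_aut (φ := act R c) p (RAAG.g 1)
      have h2 : act R c p (RAAG.g 1) = RAAG.g 1 := by
        rw [act_g, hp]
        congr 1
        group
      rw [h2] at h1
      have h3 : (SemidirectProduct.inl (RAAG.g 1) : Mod R c) * SemidirectProduct.inr p =
        SemidirectProduct.inr p * SemidirectProduct.inl (RAAG.g 1) := by
        conv_lhs => rw [h1]
        rw [map_inv]
        group
      exact h3
    intro r hr
    rw [Finset.mem_coe, GRels] at hr
    simp only [Finset.mem_union, Finset.mem_image, Finset.mem_univ, true_and,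
      Finset.mem_singleton] at hr
    rcases hr with ((⟨p, rfl⟩ | ⟨i, rfl⟩) | ⟨r, hr, rfl⟩) | rfl
    · rw [map_cm, cm_eq_one, FreeGroup.lift_apply_of, FreeGroup.lift_apply_of, hfA, hfB]
      have : Commute ((FreeGroup.of p.1, 1) : FreeGroup (Fin n) × FreeGroup (Fin n))
          (1, FreeGroup.of p.2) := by
        simp [Commute, SemiconjBy]
      exact this.map SemidirectProduct.inr
    · rw [map_cm, cm_eq_one, map_mul, FreeGroup.lift_apply_of, FreeGroup.lift_apply_of,
        FreeGroup.lift_apply_of, hfA, hfB, hfV, ← map_mul]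
      apply hcomm
      simp
    · rw [map_cm, cm_eq_one, FreeGroup.lift_apply_of, hfV, haF]
      apply hcomm
      have : pr R r = 1 := PresentedGroup.one_of_mem hr
      simp [this]
    · rw [map_cm, cm_eq_one, map_mul, map_mul, map_inv, FreeGroup.lift_apply_of, hfV, haF,
        ← map_inv, ← SemidirectProduct.inl_aut, act_g]
      simp only [mul_one, map_one, inv_one]
      by_cases h1 : pr R c = 1
      · rw [h1]
        exact Commute.refl _
      · have : (Gam R c).Adj 1 (pr R c) := by
          refine ⟨fun e => h1 e.symm, 1, Or.inl ?_⟩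
          simp
        exact (RAAG.g_comm this).map SemidirectProduct.inl)

theorem Phi_A (i : Fin n) : Phi R c (PresentedGroup.of (iA n i)) =
    SemidirectProduct.inr (FreeGroup.of i, 1) := by
  rw [Phi, PresentedGroup.toGroup.of, gcase_A]

theorem Phi_B (i : Fin n) : Phi R c (PresentedGroup.of (iB n i)) =
    SemidirectProduct.inr (1, FreeGroup.of i) := by
  rw [Phi, PresentedGroup.toGroup.of, gcase_B]

theorem Phi_V : Phi R c (PresentedGroup.of (iV n)) = SemidirectProduct.inl (RAAG.g 1) := by
  rw [Phi, PresentedGroup.toGroup.of, gcase_V]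

/-- first free factor in the big group -/
def ga : FreeGroup (Fin n) →* GG n R c := FreeGroup.lift fun i => PresentedGroup.of (iA n i)
/-- second free factor in the big group -/
def gb : FreeGroup (Fin n) →* GG n R c := FreeGroup.lift fun i => PresentedGroup.of (iB n i)
/-- the vertex generator in the big group -/
def gv : GG n R c := PresentedGroup.of (iV n)

theorem ga_eq (w : FreeGroup (Fin n)) : ga R c w = PresentedGroup.mk _ (aF n w) := by
  have : ga R c = (PresentedGroup.mk _).comp (aF n) := by
    apply FreeGroup.ext_hom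
    intro i
    simp [ga, aF]
    rfl
  exact DFunLike.congr_fun this w

theorem rel_eq_one {r : FreeGroup (Fin (n + n + 1))} (hr : r ∈ GRels n R c) :
    PresentedGroup.mk (↑(GRels n R c) : Set (FreeGroup (Fin (n + n + 1)))) r = 1 :=
  PresentedGroup.one_of_mem hr

theorem ga_gb_comm (u w : FreeGroup (Fin n)) : Commute (ga R c u) (gb R c w) := by
  have h1 : ∀ i j, Commute (ga R c (FreeGroup.of i)) (gb R c (FreeGroup.of j)) := by
    intro i j
    have := rel_eq_one R c (r := cm (FreeGroup.of (iA n i)) (FreeGroup.of (iB n j))) (by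
      unfold GRels
      simp only [Finset.mem_union, Finset.mem_image, Finset.mem_univ, true_and]
      exact Or.inl (Or.inl (Or.inl ⟨(i, j), rfl⟩)))
    rw [map_cm, cm_eq_one] at this
    simp only [ga, gb, FreeGroup.lift_apply_of]
    exact this
  have h2 : ∀ i, ∀ w, Commute (ga R c (FreeGroup.of i)) (gb R c w) := by
    intro i w
    induction w using FreeGroup.induction_on with
    | C1 => rw [map_one]; exact Commute.one_right _
    | of j => exact h1 i j
    | inv_of j _ => rw [map_inv]; exact (h1 i j).inv_right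
    | mul x y hx hy => rw [map_mul]; exact hx.mul_right hy
  induction u using FreeGroup.induction_on with
  | C1 => rw [map_one]; exact Commute.one_left _
  | of j => exact h2 j w
  | inv_of j _ => rw [map_inv]; exact (h2 j w).inv_left
  | mul x y hx hy => rw [map_mul]; exact hx.mul_left hy

theorem gv_diag (w : FreeGroup (Fin n)) : Commute (gv R c) (ga R c w * gb R c w) := by
  have h1 : ∀ i, Commute (gv R c) (ga R c (FreeGroup.of i) * gb R c (FreeGroup.of i)) := by
    intro i
    have := rel_eq_one R c (r := cm (FreeGroup.of (iV n))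
        (FreeGroup.of (iA n i) * FreeGroup.of (iB n i))) (by
      unfold GRels
      simp only [Finset.mem_union, Finset.mem_image, Finset.mem_univ, true_and]
      exact Or.inl (Or.inl (Or.inr ⟨i, rfl⟩)))
    rw [map_cm, cm_eq_one, map_mul] at this
    simp only [ga, gb, FreeGroup.lift_apply_of]
    exact this
  have hmul : ∀ x y, ga R c (x * y) * gb R c (x * y) =
      (ga R c x * gb R c x) * (ga R c y * gb R c y) := by
    intro x y
    rw [map_mul, map_mul]
    have := (ga_gb_comm R c y x).eq
    calc ga R c x * ga R c y * (gb R c x * gb R c y)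
        = ga R c x * (ga R c y * gb R c x) * gb R c y := by group
      _ = ga R c x * (gb R c x * ga R c y) * gb R c y := by rw [this]
      _ = _ := by group
  induction w using FreeGroup.induction_on with
  | C1 => simp
  | of j => exact h1 j
  | inv_of j _ =>
    have e : ga R c (FreeGroup.of j)⁻¹ * gb R c (FreeGroup.of j)⁻¹ =
        (ga R c (FreeGroup.of j) * gb R c (FreeGroup.of j))⁻¹ := by
      rw [map_inv, map_inv, mul_inv_rev]
      exact ((ga_gb_comm R c (FreeGroup.of j) (FreeGroup.of j)).inv_inv).eq
    rw [e]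
    exact (h1 j).inv_right
  | mul x y hx hy => rw [hmul]; exact hx.mul_right hy

theorem gv_ker (z : FreeGroup (Fin n)) (hz : pr R z = 1) : Commute (gv R c) (ga R c z) := by
  have hz' : z ∈ Subgroup.normalClosure (↑R : Set (FreeGroup (Fin n))) := by
    rw [← PresentedGroup.mk_eq_one_iff]
    exact hz
  have : Subgroup.normalClosure (↑R : Set (FreeGroup (Fin n))) ≤
      (Subgroup.centralizer {gv R c}).comap (ga R c) := by
    rw [Subgroup.normalClosure, Subgroup.closure_le]
    intro x hx
    rw [Group.mem_conjugatesOfSet_iff] at hx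
    obtain ⟨r, hr, hconj⟩ := hx
    rw [isConj_iff] at hconj
    obtain ⟨w, rfl⟩ := hconj
    change ga R c (w * r * w⁻¹) ∈ Subgroup.centralizer {gv R c}
    rw [Subgroup.mem_centralizer_singleton_iff]
    have h1 : Commute (gv R c) (ga R c r) := by
      have := rel_eq_one R c (r := cm (FreeGroup.of (iV n)) (aF n r)) (by
        unfold GRels
        simp only [Finset.mem_union, Finset.mem_image, Finset.mem_univ, true_and]
        exact Or.inl (Or.inr ⟨r, hr, rfl⟩))
      rw [map_cm, cm_eq_one] at this
      rw [ga_eq]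
      exact this
    have h2 : ga R c (w * r * w⁻¹) = (ga R c w * gb R c w) * ga R c r *
        (ga R c w * gb R c w)⁻¹ := by
      have := (ga_gb_comm R c r w).eq
      rw [map_mul, map_mul, map_inv, mul_inv_rev]
      calc ga R c w * ga R c r * (ga R c w)⁻¹
          = ga R c w * (ga R c r * gb R c w) * (gb R c w)⁻¹ * (ga R c w)⁻¹ := by group
        _ = _ := by rw [this]; group
    rw [h2]
    have h3 := gv_diag R c w
    exact ((h3.mul_right h1).mul_right h3.inv_right).symm.eq
  have h := this hz'
  rw [Subgroup.mem_comap, Subgroup.mem_centralizer_singleton_iff] at h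
  exact h.symm

theorem gv_stab (u w : FreeGroup (Fin n)) (h : pr R u = pr R w) :
    Commute (gv R c) (ga R c u * gb R c w) := by
  have e : ga R c u * gb R c w = ga R c (u * w⁻¹) * (ga R c w * gb R c w) := by
    rw [map_mul, map_inv]; group
  rw [e]
  refine (gv_ker R c _ ?_).mul_right (gv_diag R c w)
  rw [map_mul, map_inv, h, mul_inv_cancel]

/-- the vertex elements -/
def vv (u : FreeGroup (Fin n)) : GG n R c := ga R c u * gv R c * (ga R c u)⁻¹

theorem vv_congr {u w : FreeGroup (Fin n)} (h : pr R u = pr R w) : vv R c u = vv R c w := by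
  have h1 := gv_ker R c (w⁻¹ * u) (by rw [map_mul, map_inv, h, inv_mul_cancel])
  have h2 : ga R c u = ga R c w * ga R c (w⁻¹ * u) := by rw [← map_mul]; congr 1; group
  unfold vv
  rw [h2]
  calc ga R c w * ga R c (w⁻¹ * u) * gv R c * (ga R c w * ga R c (w⁻¹ * u))⁻¹
      = ga R c w * (ga R c (w⁻¹ * u) * gv R c) * (ga R c (w⁻¹ * u))⁻¹ * (ga R c w)⁻¹ := by group
    _ = ga R c w * (gv R c * ga R c (w⁻¹ * u)) * (ga R c (w⁻¹ * u))⁻¹ * (ga R c w)⁻¹ := by
        rw [h1.eq]
    _ = _ := by group

theorem conj_vv (x u : FreeGroup (Fin n)) :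
    ga R c x * vv R c u * (ga R c x)⁻¹ = vv R c (x * u) := by
  unfold vv
  rw [map_mul]
  group

theorem conj_gb_vv (y u : FreeGroup (Fin n)) :
    gb R c y * vv R c u * (gb R c y)⁻¹ = vv R c (u * y⁻¹) := by
  unfold vv
  have h1 := (ga_gb_comm R c u y).eq
  have h2 := (gv_diag R c y).eq
  have h3 := (ga_gb_comm R c y y).eq
  have e1 : gb R c y * gv R c * (gb R c y)⁻¹ = (ga R c y)⁻¹ * gv R c * ga R c y := by
    calc gb R c y * gv R c * (gb R c y)⁻¹
        = (ga R c y)⁻¹ * ((ga R c y * gb R c y) * gv R c) * (gb R c y)⁻¹ := by group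
      _ = (ga R c y)⁻¹ * (gv R c * (ga R c y * gb R c y)) * (gb R c y)⁻¹ := by rw [h2]
      _ = _ := by group
  calc gb R c y * (ga R c u * gv R c * (ga R c u)⁻¹) * (gb R c y)⁻¹
      = (gb R c y * ga R c u) * gv R c * (gb R c y * ga R c u)⁻¹ := by group
    _ = (ga R c u * gb R c y) * gv R c * (ga R c u * gb R c y)⁻¹ := by rw [h1]
    _ = ga R c u * (gb R c y * gv R c * (gb R c y)⁻¹) * (ga R c u)⁻¹ := by group
    _ = _ := by rw [e1, map_mul, map_inv]; group

theorem vv_comm_c : Commute (gv R c) (vv R c c) := by
  have := rel_eq_one R c (r := cm (FreeGroup.of (iV n))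
      (aF n c * FreeGroup.of (iV n) * (aF n c)⁻¹)) (by
    unfold GRels
    simp only [Finset.mem_union, Finset.mem_singleton]
    exact Or.inr trivial)
  rw [map_cm, cm_eq_one, map_mul, map_mul, map_inv, ← ga_eq] at this
  exact this

theorem gv_eq : gv R c = vv R c 1 := by simp [vv]

theorem commute_conj {G : Type*} [Group G] (g : G) {x y : G} (h : Commute x y) :
    Commute (g * x * g⁻¹) (g * y * g⁻¹) := by
  have := h.map (MulAut.conj g).toMonoidHom
  simpa using this

/-- vertex elements of adjacent vertices commute -/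
theorem vv_comm {u w : FreeGroup (Fin n)} (h : Cj R c ((pr R u)⁻¹ * pr R w)) :
    Commute (vv R c u) (vv R c w) := by
  -- the basic commutation
  have h0 : ∀ u z, Commute (vv R c 1) (vv R c z) → Commute (vv R c u) (vv R c (u * z)) := by
    intro u z h
    have := commute_conj (ga R c u) h
    rw [conj_vv, conj_vv, mul_one] at this
    exact this
  have hr : ∀ y z, Commute (vv R c 1) (vv R c z) →
      Commute (vv R c 1) (vv R c (y * z * y⁻¹)) := by
    intro y z h
    have h1 := commute_conj (gb R c y) h
    rw [conj_gb_vv, conj_gb_vv] at h1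
    have h2 := commute_conj (ga R c y) h1
    rw [conj_vv, conj_vv] at h2
    have e1 : y * (1 * y⁻¹) = 1 := by group
    have e2 : y * (z * y⁻¹) = y * z * y⁻¹ := by group
    rw [e1, e2] at h2
    exact h2
  have hc : Commute (vv R c 1) (vv R c c) := by
    rw [← gv_eq]
    exact vv_comm_c R c
  have hc' : Commute (vv R c 1) (vv R c c⁻¹) := by
    have := commute_conj (ga R c c⁻¹) hc
    rw [conj_vv, conj_vv, mul_one, inv_mul_cancel] at this
    exact this.symm
  obtain ⟨h, hh⟩ := h
  obtain ⟨y, rfl⟩ := pr_surjective R h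
  have key : ∀ z, Commute (vv R c 1) (vv R c z) →
      (pr R u)⁻¹ * pr R w = pr R y * pr R z * (pr R y)⁻¹ →
      Commute (vv R c u) (vv R c w) := by
    intro z hz he
    have h1 := h0 u _ (hr y z hz)
    rw [vv_congr R c (u := w) (w := u * (y * z * y⁻¹))]
    · exact h1
    · rw [map_mul, map_mul, map_mul, map_inv, ← he]
      group
  rcases hh with hh | hh
  · exact key c hc hh
  · exact key c⁻¹ hc' (by rw [hh, map_inv])

/-- chosen lift -/
noncomputable def sec (k : KK n R) : FreeGroup (Fin n) := Function.surjInv (pr_surjective R) k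

theorem pr_sec (k : KK n R) : pr R (sec R k) = k := Function.surjInv_eq (pr_surjective R) k

/-- the RAAG inside the big group -/
noncomputable def jj : RAAG (Gam R c) →* GG n R c :=
  RAAG.lift (fun k => vv R c (sec R k)) (by
    intro k l h
    apply vv_comm
    rw [pr_sec, pr_sec]
    exact h.2)

theorem jj_g (u : FreeGroup (Fin n)) : jj R c (RAAG.g (pr R u)) = vv R c u := by
  rw [jj, RAAG.lift_g]
  exact vv_congr R c (pr_sec R _)

/-- both free factors in the big group -/
def gab : FreeGroup (Fin n) × FreeGroup (Fin n) →* GG n R c :=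
  MonoidHom.noncommCoprod (ga R c) (gb R c) (ga_gb_comm R c)

theorem gab_apply (p : FreeGroup (Fin n) × FreeGroup (Fin n)) :
    gab R c p = ga R c p.1 * gb R c p.2 := rfl

/-- from the model to the presented group -/
noncomputable def Psi : Mod R c →* GG n R c :=
  SemidirectProduct.lift (jj R c) (gab R c) (by
    intro p
    apply RAAG.hom_ext
    intro k
    obtain ⟨u, rfl⟩ := pr_surjective R k
    simp only [MonoidHom.comp_apply, MulEquiv.coe_toMonoidHom, MulAut.conj_apply]
    have e1 : act R c p (RAAG.g (pr R u)) = RAAG.g (pr R (p.1 * u * p.2⁻¹)) := by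
      rw [act_g, map_mul, map_mul, map_inv]
    rw [e1, jj_g, jj_g, gab_apply, ← conj_gb_vv R c p.2 (p.1 * u), ← conj_vv R c p.1 u]
    have := (ga_gb_comm R c p.1 p.2).eq
    rw [this]
    group)

theorem Psi_inl (x : RAAG (Gam R c)) : Psi R c (SemidirectProduct.inl x) = jj R c x :=
  SemidirectProduct.lift_inl _ _ _ _

theorem Psi_inr (p : FreeGroup (Fin n) × FreeGroup (Fin n)) :
    Psi R c (SemidirectProduct.inr p) = gab R c p :=
  SemidirectProduct.lift_inr _ _ _ _

theorem Psi_Phi (x : GG n R c) : Psi R c (Phi R c x) = x := by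
  have : (Psi R c).comp (Phi R c) = MonoidHom.id _ := by
    apply PresentedGroup.ext
    apply gen_cases
    · intro i
      simp only [MonoidHom.comp_apply, Phi_A, Psi_inr, gab_apply, map_one, mul_one]
      simp [ga]
    · intro i
      simp only [MonoidHom.comp_apply, Phi_B, Psi_inr, gab_apply, map_one, one_mul]
      simp [gb]
    · simp only [MonoidHom.comp_apply, Phi_V, Psi_inl]
      have := jj_g R c 1
      rw [map_one] at this
      rw [this, ← gv_eq]
      rfl
  exact DFunLike.congr_fun this x

theorem Phi_ga (w : FreeGroup (Fin n)) : Phi R c (ga R c w) = SemidirectProduct.inr (w, 1) := by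
  have : (Phi R c).comp (ga R c) =
      (SemidirectProduct.inr : _ →* Mod R c).comp (MonoidHom.inl _ _) := by
    apply FreeGroup.ext_hom
    intro i
    simp [ga, Phi_A]
  exact DFunLike.congr_fun this w

theorem Phi_vv (u : FreeGroup (Fin n)) :
    Phi R c (vv R c u) = SemidirectProduct.inl (RAAG.g (pr R u)) := by
  unfold vv
  rw [map_mul, map_mul, map_inv, Phi_ga, gv, Phi_V, ← map_inv, ← SemidirectProduct.inl_aut, act_g]
  simp

theorem Phi_jj (x : RAAG (Gam R c)) : Phi R c (jj R c x) = SemidirectProduct.inl x := by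
  have : (Phi R c).comp (jj R c) = SemidirectProduct.inl := by
    apply RAAG.hom_ext
    intro k
    obtain ⟨u, rfl⟩ := pr_surjective R k
    rw [MonoidHom.comp_apply, jj_g, Phi_vv]
  exact DFunLike.congr_fun this x

theorem jj_injective : Function.Injective (jj R c) := by
  intro x y h
  have := congrArg (Phi R c) h
  rw [Phi_jj, Phi_jj] at this
  exact SemidirectProduct.inl_injective this

end

end Pool.Agent.Helper81
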