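import Pool.Agent.Helper81.RD.GrowthG

set_option autoImplicit false
open Classical

namespace Pool.Agent.Helper81

/-- exponential beats polynomial -/
theorem exp_beats (C k D : ℕ) : ∃ N : ℕ,
    (C : ℝ) * (1 + (N * (D * (N + 1)) : ℕ) : ℝ) ^ k < (4 / 3 : ℝ) ^ N := by
  have h := tendsto_pow_const_div_const_pow_of_one_lt (2 * k) (r := (4 / 3 : ℝ)) (by norm_num)
  have hc : (0 : ℝ) < 1 / (2 * (C * (D + 1) ^ k + 1)) := by positivity
  obtain ⟨N, hN⟩ := ((h.eventually (gt_mem_nhds hc)).and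
    (Filter.eventually_ge_atTop 1)).exists
  obtain ⟨h1, h2⟩ := hN
  obtain ⟨M, rfl⟩ : ∃ M, N = M + 1 := ⟨N - 1, by omega⟩
  refine ⟨M, ?_⟩
  have hp : (0 : ℝ) < (4 / 3 : ℝ) ^ (M + 1) := by positivity
  rw [div_lt_div_iff₀ hp (by positivity), one_mul] at h1
  have e1 : (1 + (M * (D * (M + 1)) : ℕ) : ℝ) ≤ (D + 1) * ((M + 1 : ℕ) : ℝ) ^ 2 := by
    push_cast
    have : (0:ℝ) ≤ M := by positivity
    have : (0:ℝ) ≤ D := by positivity
    have : (0:ℝ) ≤ (M:ℝ) * D := by positivity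
    nlinarith
  have e2 : (1 + (M * (D * (M + 1)) : ℕ) : ℝ) ^ k ≤ (D + 1) ^ k * ((M + 1 : ℕ) : ℝ) ^ (2 * k) := by
    calc (1 + (M * (D * (M + 1)) : ℕ) : ℝ) ^ k ≤ ((D + 1) * ((M + 1 : ℕ) : ℝ) ^ 2) ^ k := by
          apply pow_le_pow_left₀ (by positivity) e1
      _ = _ := by rw [mul_pow, ← pow_mul]
  have e3 : (4 / 3 : ℝ) ^ (M + 1) = (4 / 3) ^ M * (4 / 3) := pow_succ _ _
  set X : ℝ := ((M + 1 : ℕ) : ℝ) ^ (2 * k) with hX
  have hX0 : 0 ≤ X := by positivity
  have hX1 : 1 ≤ X := by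
    apply one_le_pow₀
    push_cast
    have : (0:ℝ) ≤ M := by positivity
    linarith
  have hC0 : (0 : ℝ) ≤ C := by positivity
  calc (C : ℝ) * (1 + (M * (D * (M + 1)) : ℕ) : ℝ) ^ k ≤ C * ((D + 1) ^ k * X) :=
        mul_le_mul_of_nonneg_left e2 hC0
    _ < (4 / 3 : ℝ) ^ M := by
        rw [e3] at h1
        have : C * ((D + 1) ^ k * X) = X * (C * (D + 1) ^ k) := by ring
        rw [this]
        have h4 : X * (2 * (C * (D + 1) ^ k + 1)) = 2 * (X * (C * (D + 1) ^ k)) + 2 * X := by ring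
        rw [h4] at h1
        have h5 : 0 ≤ X * (C * (D + 1) ^ k) := by positivity
        nlinarith

section

variable {m : ℕ} (rels : Set (FreeGroup (Fin m)))

/-- subset products -/
noncomputable def sx {N : ℕ} (A : Finset (Fin N)) : Fin N → Multiplicative ℤ :=
  ∏ i ∈ A, Pi.mulSingle i (Multiplicative.ofAdd (1 : ℤ))

theorem sx_apply {N : ℕ} (A : Finset (Fin N)) (j : Fin N) :
    sx A j = Multiplicative.ofAdd (if j ∈ A then (1 : ℤ) else 0) := by
  unfold sx
  rw [Finset.prod_apply]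
  have : ∀ i ∈ A, (Pi.mulSingle i (Multiplicative.ofAdd (1 : ℤ)) : Fin N → Multiplicative ℤ) j =
      if i = j then Multiplicative.ofAdd (1:ℤ) else 1 := by
    intro i _
    rw [Pi.mulSingle_apply]
    by_cases h : i = j
    · simp [h]
    · rw [if_neg h, if_neg (fun e => h e.symm)]
  rw [Finset.prod_congr rfl this, Finset.prod_ite_eq']
  split_ifs <;> rfl

theorem sx_injective {N : ℕ} : Function.Injective (sx : Finset (Fin N) → _) := by
  intro A B h
  ext j
  have := congrFun h j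
  rw [sx_apply, sx_apply] at this
  have := Multiplicative.ofAdd.injective this
  by_cases hA : j ∈ A <;> by_cases hB : j ∈ B <;> simp_all

theorem not_rd (D : ℕ) (h : ∀ N : ℕ, ∃ θ : (Fin N → Multiplicative ℤ) →* PresentedGroup rels,
      Function.Injective θ ∧
      ∀ i, θ (Pi.mulSingle i (Multiplicative.ofAdd (1 : ℤ))) ∈ wball rels (D * (N + 1))) :
    ¬ ∃ C k : ℕ, ∀ r : ℕ,
          ∀ f g : PresentedGroup rels →₀ ℂ,
            (∀ y ∈ f.support, ∃ w : FreeGroup (Fin m),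
                w.toWord.length ≤ r ∧ PresentedGroup.mk rels w = y) →
            ∑' x : PresentedGroup rels,
                ‖∑ y ∈ f.support, f y * g (y⁻¹ * x)‖ ^ 2
              ≤ (C : ℝ) * ((1 : ℝ) + (r : ℝ)) ^ k
                  * (∑ y ∈ f.support, ‖f y‖ ^ 2) * (∑ y ∈ g.support, ‖g y‖ ^ 2) := by
  rintro ⟨C, k, hRD⟩
  obtain ⟨N, hN⟩ := exp_beats C k D
  obtain ⟨θ, hinj, hball⟩ := h N
  have hB := wball_sys rels
  -- the set S
  set s : Finset (Fin N) → PresentedGroup rels := fun A => θ (sx A) with hs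
  have sinj : Function.Injective s := hinj.comp sx_injective
  set S : Finset (PresentedGroup rels) := Finset.univ.image s with hS
  have hScard : S.card = 2 ^ N := by
    rw [hS, Finset.card_image_of_injective _ sinj]
    simp
  -- ball
  have hSball : ∀ y ∈ S, y ∈ wball rels (N * (D * (N + 1))) := by
    intro y hy
    rw [hS, Finset.mem_image] at hy
    obtain ⟨A, -, rfl⟩ := hy
    have key : ∀ A : Finset (Fin N), s A ∈ wball rels (A.card * (D * (N + 1))) := by
      intro A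
      induction A using Finset.induction_on with
      | empty =>
        refine ⟨1, by simp, ?_⟩
        simp [hs, sx]
      | insert a A ha ih =>
        have e : s (insert a A) = θ (Pi.mulSingle a (Multiplicative.ofAdd (1 : ℤ))) * s A := by
          simp only [hs, sx]
          rw [Finset.prod_insert ha, map_mul]
        rw [e, Finset.card_insert_of_notMem ha]
        have := hB.mul _ _ _ _ (hball a) ih
        have e2 : D * (N + 1) + A.card * (D * (N + 1)) = (A.card + 1) * (D * (N + 1)) := by ring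
        rwa [e2] at this
    obtain ⟨w, hw, hw'⟩ := key A
    refine ⟨w, hw.trans ?_, hw'⟩
    apply Nat.mul_le_mul_right
    have := Finset.card_le_univ A
    simpa using this
  -- the set T
  set T : Finset (PresentedGroup rels) := Finset.univ.image
    (fun e : Fin N → Fin 3 => θ (fun i => Multiplicative.ofAdd ((e i : ℕ) : ℤ))) with hT
  have hTcard : T.card ≤ 3 ^ N := by
    refine Finset.card_image_le.trans ?_
    simp
  have hST : ∀ y ∈ S, ∀ z ∈ S, y * z ∈ T := by
    intro y hy z hz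
    rw [hS, Finset.mem_image] at hy hz
    obtain ⟨A, -, rfl⟩ := hy
    obtain ⟨B, -, rfl⟩ := hz
    rw [hT, Finset.mem_image]
    refine ⟨fun i => if i ∈ A then (if i ∈ B then 2 else 1) else (if i ∈ B then 1 else 0),
      Finset.mem_univ _, ?_⟩
    simp only [hs]
    rw [← map_mul]
    congr 1
    funext i
    rw [Pi.mul_apply, sx_apply, sx_apply, ← ofAdd_add]
    congr 1
    by_cases hA : i ∈ A <;> by_cases hB : i ∈ B <;> simp [hA, hB]
  -- the function
  clear_value S T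
  set f : PresentedGroup rels →₀ ℂ := Finsupp.indicator S (fun _ _ => (1 : ℂ)) with hf
  have hfval : ∀ y, f y = if y ∈ S then 1 else 0 := by
    intro y
    rw [hf, Finsupp.indicator_apply]
    split_ifs <;> rfl
  have hfsupp : f.support = S := by
    ext y
    rw [Finsupp.mem_support_iff, hfval]
    by_cases h : y ∈ S <;> simp [h]
  have hmain := hRD (N * (D * (N + 1))) f f (by
    intro y hy
    rw [hfsupp] at hy
    exact hSball y hy)
  have hnorm : (∑ y ∈ f.support, ‖f y‖ ^ 2) = 2 ^ N := by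
    rw [hfsupp]
    have : ∀ y ∈ S, ‖f y‖ ^ 2 = 1 := by
      intro y hy
      rw [hfval, if_pos hy]
      simp
    rw [Finset.sum_congr rfl this]
    simp [hScard]
  -- convolution
  set ρ : PresentedGroup rels → ℝ := fun x => ((S.filter (fun y => y⁻¹ * x ∈ S)).card : ℝ) with hρ
  have hconv : ∀ x, ‖∑ y ∈ f.support, f y * f (y⁻¹ * x)‖ ^ 2 = ρ x ^ 2 := by
    intro x
    have : ∑ y ∈ f.support, f y * f (y⁻¹ * x) = ((ρ x : ℝ) : ℂ) := by
      rw [hfsupp]
      have h1 : ∀ y ∈ S, f y * f (y⁻¹ * x) = if y⁻¹ * x ∈ S then (1 : ℂ) else 0 := by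
        intro y hy
        rw [hfval y, hfval (y⁻¹ * x), if_pos hy, one_mul]
      rw [Finset.sum_congr rfl h1, Finset.sum_boole]
      simp [hρ]
    rw [this, Complex.norm_real, Real.norm_eq_abs, sq_abs]
  have hρ0 : ∀ x ∉ T, ρ x ^ 2 = 0 := by
    intro x hx
    have : S.filter (fun y => y⁻¹ * x ∈ S) = ∅ := by
      rw [Finset.filter_eq_empty_iff]
      intro y hy hy'
      apply hx
      have := hST y hy _ hy'
      rwa [mul_inv_cancel_left] at this
    rw [hρ]
    simp only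
    rw [this]
    simp
  have htsum : ∑' x : PresentedGroup rels, ‖∑ y ∈ f.support, f y * f (y⁻¹ * x)‖ ^ 2 =
      ∑ x ∈ T, ρ x ^ 2 := by
    rw [tsum_congr hconv]
    exact tsum_eq_sum hρ0
  have hsum : ∑ x ∈ T, ρ x = (4 : ℝ) ^ N := by
    have h1 : ∑ x ∈ T, (S.filter (fun y => y⁻¹ * x ∈ S)).card = S.card * S.card := by
      have h2 : ∀ x ∈ T, (S.filter (fun y => y⁻¹ * x ∈ S)).card =
          ∑ y ∈ S, if y⁻¹ * x ∈ S then 1 else 0 := by
        intro x _
        rw [Finset.card_filter]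
      rw [Finset.sum_congr rfl h2, Finset.sum_comm]
      have h3 : ∀ y ∈ S, ∑ x ∈ T, (if y⁻¹ * x ∈ S then 1 else 0) = S.card := by
        intro y hy
        rw [← Finset.card_filter]
        have : T.filter (fun x => y⁻¹ * x ∈ S) = S.image (fun z => y * z) := by
          ext x
          rw [Finset.mem_filter, Finset.mem_image]
          constructor
          · rintro ⟨-, h⟩
            exact ⟨y⁻¹ * x, h, by group⟩
          · rintro ⟨z, hz, rfl⟩
            exact ⟨hST y hy z hz, by simpa using hz⟩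
        rw [this, Finset.card_image_of_injective _ (mul_right_injective y)]
      rw [Finset.sum_congr rfl h3, Finset.sum_const, smul_eq_mul]
    rw [hρ]
    simp only
    rw [← Nat.cast_sum, h1, hScard]
    push_cast
    rw [← mul_pow]
    norm_num
  have hCS := sq_sum_le_card_mul_sum_sq (s := T) (f := ρ)
  rw [hsum] at hCS
  rw [htsum, hnorm] at hmain
  have hT' : (T.card : ℝ) ≤ 3 ^ N := by exact_mod_cast hTcard
  have hnn : 0 ≤ ∑ x ∈ T, ρ x ^ 2 := Finset.sum_nonneg (fun x _ => sq_nonneg _)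
  have h1 : ((4 : ℝ) ^ N) ^ 2 ≤ 3 ^ N * ∑ x ∈ T, ρ x ^ 2 :=
    hCS.trans (mul_le_mul_of_nonneg_right hT' hnn)
  have h2 : ((4 : ℝ) ^ N) ^ 2 ≤ 3 ^ N * ((C : ℝ) * (1 + ((N * (D * (N + 1)) : ℕ) : ℝ)) ^ k *
      2 ^ N * 2 ^ N) := h1.trans (mul_le_mul_of_nonneg_left hmain (by positivity))
  have e4 : (2 : ℝ) ^ N * 2 ^ N = 4 ^ N := by rw [← mul_pow]; norm_num
  have e5 : (4 / 3 : ℝ) ^ N * 3 ^ N = 4 ^ N := by rw [← mul_pow]; norm_num
  have p4 : (0 : ℝ) < 4 ^ N := by positivity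
  have p3 : (0 : ℝ) < 3 ^ N := by positivity
  have h3 : (4 : ℝ) ^ N * 4 ^ N ≤ (3 ^ N * ((C : ℝ) * (1 + ((N * (D * (N + 1)) : ℕ) : ℝ)) ^ k)) *
      4 ^ N := by
    calc (4 : ℝ) ^ N * 4 ^ N = ((4 : ℝ) ^ N) ^ 2 := by ring
      _ ≤ _ := h2
      _ = 3 ^ N * ((C : ℝ) * (1 + ((N * (D * (N + 1)) : ℕ) : ℝ)) ^ k) * (2 ^ N * 2 ^ N) := by ring
      _ = _ := by rw [e4]
  have h4 := le_of_mul_le_mul_right h3 p4
  have h5 : 3 ^ N * ((C : ℝ) * (1 + ((N * (D * (N + 1)) : ℕ) : ℝ)) ^ k) < 3 ^ N * (4 / 3) ^ N :=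
    mul_lt_mul_of_pos_left hN p3
  rw [← e5] at h4
  linarith

end

end Pool.Agent.Helper81
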