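import Pool.Agent.Helper81.RD.NonRD

set_option autoImplicit false
open Classical

namespace Pool.Agent.Helper81

variable {n : ℕ} (R : Finset (FreeGroup (Fin n))) (c : FreeGroup (Fin n))

/-- arbitrarily large cliques made of short vertices -/
def BigCliques : Prop := ∃ D : ℕ, ∀ N : ℕ, ∃ w : Fin N → FreeGroup (Fin n),
  (∀ i, (w i).norm ≤ D * (N + 1)) ∧ ∀ i j, i ≠ j → (Gam R c).Adj (pr R (w i)) (pr R (w j))

theorem norm_aF_le (w : FreeGroup (Fin n)) : (aF n w).norm ≤ w.norm := by
  refine word_induction (aF n) (fun x k => x.norm ≤ k) (by simp) ?_ w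
  intro x k hx i
  have h1 : (aF n (FreeGroup.of i)).norm ≤ 1 := by
    simp [aF]
  constructor
  · exact (FreeGroup.norm_mul_le _ _).trans (Nat.add_le_add hx h1)
  · refine (FreeGroup.norm_mul_le _ _).trans (Nat.add_le_add hx ?_)
    rw [FreeGroup.norm_inv_eq]
    exact h1

theorem vv_ball (w : FreeGroup (Fin n)) (r : ℕ) (h : 2 * w.norm + 1 ≤ r) :
    vv R c w ∈ wball (↑(GRels n R c) : Set (FreeGroup (Fin (n + n + 1)))) r := by
  refine ⟨aF n w * FreeGroup.of (iV n) * (aF n w)⁻¹, ?_, ?_⟩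
  · change FreeGroup.norm _ ≤ r
    have h1 := FreeGroup.norm_mul_le (aF n w * FreeGroup.of (iV n)) (aF n w)⁻¹
    have h2 := FreeGroup.norm_mul_le (aF n w) (FreeGroup.of (iV n))
    have h3 := norm_aF_le w
    rw [FreeGroup.norm_inv_eq] at h1
    rw [FreeGroup.norm_of] at h2
    omega
  · rw [map_mul, map_mul, map_inv, ← ga_eq]
    rfl

/-- abelianization type hom of the RAAG -/
noncomputable def xi : RAAG (Gam R c) →* (KK n R → Multiplicative ℤ) :=
  RAAG.lift (fun k => Pi.mulSingle k (Multiplicative.ofAdd (1 : ℤ))) (fun _ _ _ => Commute.all _ _)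

theorem not_rd_G (h : BigCliques R c) :
    ¬ ∃ C k : ℕ, ∀ r : ℕ,
          ∀ f g : GG n R c →₀ ℂ,
            (∀ y ∈ f.support, ∃ w : FreeGroup (Fin (n + n + 1)),
                w.toWord.length ≤ r ∧
                PresentedGroup.mk (↑(GRels n R c) : Set (FreeGroup (Fin (n + n + 1)))) w = y) →
            ∑' x : GG n R c,
                ‖∑ y ∈ f.support, f y * g (y⁻¹ * x)‖ ^ 2
              ≤ (C : ℝ) * ((1 : ℝ) + (r : ℝ)) ^ k
                  * (∑ y ∈ f.support, ‖f y‖ ^ 2) * (∑ y ∈ g.support, ‖g y‖ ^ 2) := by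
  obtain ⟨D, hD⟩ := h
  apply not_rd (↑(GRels n R c) : Set (FreeGroup (Fin (n + n + 1)))) (2 * D + 1)
  intro N
  obtain ⟨w, hw, hadj⟩ := hD N
  have hpair : Pairwise fun i j => ∀ (x : Multiplicative ℤ) (y : Multiplicative ℤ),
      Commute (zpowersHom (RAAG (Gam R c)) (RAAG.g (pr R (w i))) x)
        (zpowersHom (RAAG (Gam R c)) (RAAG.g (pr R (w j))) y) := by
    intro i j hij x y
    rw [zpowersHom_apply, zpowersHom_apply]
    exact (RAAG.g_comm (hadj i j hij)).zpow_zpow _ _
  set θ' : (Fin N → Multiplicative ℤ) →* RAAG (Gam R c) :=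
    MonoidHom.noncommPiCoprod (fun i => zpowersHom (RAAG (Gam R c)) (RAAG.g (pr R (w i)))) hpair
    with hθ'
  have hsingle : ∀ i x, θ' (Pi.mulSingle i x) = RAAG.g (pr R (w i)) ^ (Multiplicative.toAdd x) := by
    intro i x
    rw [hθ', MonoidHom.noncommPiCoprod_mulSingle, zpowersHom_apply]
  have hinj : Function.Injective θ' := by
    intro x y hxy
    funext j
    have key : ((Pi.evalMonoidHom (fun _ : KK n R => Multiplicative ℤ) (pr R (w j))).comp
        (xi R c)).comp θ' = Pi.evalMonoidHom (fun _ : Fin N => Multiplicative ℤ) j := by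
      apply MonoidHom.functions_ext
      intro i z
      simp only [MonoidHom.comp_apply, hsingle, map_zpow, Pi.evalMonoidHom_apply]
      rw [xi, RAAG.lift_g]
      by_cases hij : i = j
      · subst hij
        simp only [Pi.mulSingle_eq_same]
        rw [← ofAdd_zsmul]
        simp
      · rw [Pi.mulSingle_eq_of_ne (Ne.symm hij), Pi.mulSingle_eq_of_ne, one_zpow]
        exact (hadj j i (Ne.symm hij)).1
    have h1 := DFunLike.congr_fun key x
    have h2 := DFunLike.congr_fun key y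
    simp only [MonoidHom.comp_apply, Pi.evalMonoidHom_apply] at h1 h2
    rw [← h1, ← h2, hxy]
  refine ⟨(jj R c).comp θ', (jj_injective R c).comp hinj, fun i => ?_⟩
  have e : (jj R c).comp θ' (Pi.mulSingle i (Multiplicative.ofAdd (1 : ℤ))) = vv R c (w i) := by
    rw [MonoidHom.comp_apply, hsingle]
    simp [jj_g]
  rw [e]
  apply vv_ball
  have := hw i
  nlinarith

/-- **Conditional form of the main theorem.** -/
theorem main_of (hbig : BigCliques R c) (hΓ : NoInfClique (Gam R c)) :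
    ∃ (n : ℕ) (rels : Finset (FreeGroup (Fin n))),
      (¬ ∃ C k : ℕ, ∀ r : ℕ,
          ∀ f g : PresentedGroup (↑rels : Set (FreeGroup (Fin n))) →₀ ℂ,
            (∀ y ∈ f.support, ∃ w : FreeGroup (Fin n),
                w.toWord.length ≤ r ∧ PresentedGroup.mk (↑rels : Set (FreeGroup (Fin n))) w = y) →
            ∑' x : PresentedGroup (↑rels : Set (FreeGroup (Fin n))),
                ‖∑ y ∈ f.support, f y * g (y⁻¹ * x)‖ ^ 2
              ≤ (C : ℝ) * ((1 : ℝ) + (r : ℝ)) ^ k
                  * (∑ y ∈ f.support, ‖f y‖ ^ 2) * (∑ y ∈ g.support, ‖g y‖ ^ 2)) ∧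
      ∀ H : Subgroup (PresentedGroup (↑rels : Set (FreeGroup (Fin n)))),
        (∀ F : Finset (PresentedGroup (↑rels : Set (FreeGroup (Fin n)))),
            (∀ x ∈ F, x ∈ H) → ∀ ε : ℝ, 0 < ε →
              ∃ A : Finset (PresentedGroup (↑rels : Set (FreeGroup (Fin n)))),
                A.Nonempty ∧ (∀ a ∈ A, a ∈ H) ∧
                  ∀ x ∈ F, ((((A.image (fun a => x * a)) \ A).card : ℕ) : ℝ) ≤ ε * (A.card : ℝ)) →
        ∃ C k : ℕ, ∀ r : ℕ,
          ({x : PresentedGroup (↑rels : Set (FreeGroup (Fin n))) |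
              x ∈ H ∧ ∃ w : FreeGroup (Fin n),
                w.toWord.length ≤ r ∧ PresentedGroup.mk (↑rels : Set (FreeGroup (Fin n))) w = x}).ncard
            ≤ C * (1 + r) ^ k := by
  refine ⟨n + n + 1, GRels n R c, not_rd_G R c hbig, ?_⟩
  intro H hH
  have hF : Folner H := hH
  obtain ⟨C, k, h⟩ := growth R c hΓ H hF.npp
  exact ⟨C, k, h⟩

end Pool.Agent.Helper81
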