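import Mathlib

set_option autoImplicit false
open Classical

namespace Pool.Agent.Helper81

/-- free product of copies of the rationals -/
abbrev QQ (ι : Type) := Monoid.CoprodI (fun _ : ι => Multiplicative ℚ)

variable {ι : Type}

/-- letters -/
def Lt (i : ι) (q : ℚ) : QQ ι :=
  Monoid.CoprodI.of (M := fun _ : ι => Multiplicative ℚ) (i := i) (Multiplicative.ofAdd q)

theorem Lt_add (i : ι) (p q : ℚ) : Lt i (p + q) = Lt i p * Lt i q := by
  unfold Lt
  rw [← map_mul]
  rfl

theorem Lt_zero (i : ι) : Lt i 0 = 1 := by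
  unfold Lt
  exact map_one _

theorem Lt_neg (i : ι) (q : ℚ) : Lt i (-q) = (Lt i q)⁻¹ := by
  rw [eq_inv_iff_mul_eq_one, ← Lt_add, neg_add_cancel, Lt_zero]

theorem Lt_nsmul (i : ι) (q : ℚ) (n : ℕ) : Lt i (n * q) = Lt i q ^ n := by
  induction n with
  | zero => simp [Lt_zero]
  | succ n ih =>
    rw [pow_succ, ← ih, ← Lt_add]
    congr 1
    push_cast
    ring

/-- product of a list of letters -/
def prodL (l : List (ι × ℚ)) : QQ ι := (l.map fun p => Lt p.1 p.2).prod

theorem prodL_nil : prodL ([] : List (ι × ℚ)) = 1 := rfl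

theorem prodL_cons (p : ι × ℚ) (l : List (ι × ℚ)) : prodL (p :: l) = Lt p.1 p.2 * prodL l := by
  simp [prodL]

/-- reduced lists -/
def Red (l : List (ι × ℚ)) : Prop := (∀ p ∈ l, p.2 ≠ 0) ∧ l.IsChain (fun a b => a.1 ≠ b.1)

/-- uniqueness of normal forms -/
theorem Red.unique {l l' : List (ι × ℚ)} (h : Red l) (h' : Red l') (he : prodL l = prodL l') :
    l = l' := by
  let toS : ι × ℚ → Σ _ : ι, Multiplicative ℚ := fun p => ⟨p.1, Multiplicative.ofAdd p.2⟩
  have hinj : Function.Injective toS := by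
    rintro ⟨i, q⟩ ⟨i', q'⟩ h
    simp only [toS, Sigma.mk.injEq] at h
    obtain ⟨rfl, h⟩ := h
    have := eq_of_heq h
    exact Prod.ext rfl (Multiplicative.ofAdd.injective this)
  have key : ∀ l : List (ι × ℚ), Red l →
      ∃ w : Monoid.CoprodI.Word (fun _ : ι => Multiplicative ℚ),
        w.toList = l.map toS ∧ w.prod = prodL l := by
    intro l hl
    refine ⟨⟨l.map toS, ?_, ?_⟩, rfl, ?_⟩
    · intro s hs
      rw [List.mem_map] at hs
      obtain ⟨p, hp, rfl⟩ := hs
      have := hl.1 p hp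
      intro h1
      apply this
      exact Multiplicative.ofAdd.injective h1
    · rw [List.isChain_map]
      exact hl.2
    · unfold Monoid.CoprodI.Word.prod prodL
      rw [List.map_map]
      rfl
  obtain ⟨w, h1, h2⟩ := key l h
  obtain ⟨w', h1', h2'⟩ := key l' h'
  have hw : w = w' := by
    apply (Monoid.CoprodI.Word.equiv (M := fun _ : ι => Multiplicative ℚ)).symm.injective
    change w.prod = w'.prod
    rw [h2, h2', he]
  rw [hw, h1'] at h1
  exact (List.map_injective_iff.mpr hinj h1).symm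

/-- integral words -/
def prodZ (l : List (ι × ℤ)) : FreeGroup ι := (l.map fun p => FreeGroup.of p.1 ^ p.2).prod

theorem prodZ_cons (p : ι × ℤ) (l : List (ι × ℤ)) :
    prodZ (p :: l) = FreeGroup.of p.1 ^ p.2 * prodZ l := by
  simp [prodZ]

/-- reduced integral lists -/
def RedZ (l : List (ι × ℤ)) : Prop := (∀ p ∈ l, p.2 ≠ 0) ∧ l.IsChain (fun a b => a.1 ≠ b.1)

theorem RedZ.tail {a : ι × ℤ} {l : List (ι × ℤ)} (h : RedZ (a :: l)) : RedZ l :=
  ⟨fun p hp => h.1 p (List.mem_cons_of_mem _ hp), (List.isChain_cons.1 h.2).2⟩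

theorem RedZ_mul (i : ι) (n : ℤ) (l : List (ι × ℤ)) (hl : RedZ l) :
    ∃ l', RedZ l' ∧ prodZ l' = FreeGroup.of i ^ n * prodZ l := by
  by_cases hn : n = 0
  · subst hn
    exact ⟨l, hl, by simp⟩
  cases l with
  | nil =>
    exact ⟨[(i, n)], ⟨by simpa using hn, by simp⟩, by simp [prodZ]⟩
  | cons a l =>
    obtain ⟨j, m⟩ := a
    by_cases hij : i = j
    · subst hij
      by_cases hnm : n + m = 0
      · refine ⟨l, hl.tail, ?_⟩
        rw [prodZ_cons, ← mul_assoc, ← zpow_add, hnm, zpow_zero, one_mul]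
      · refine ⟨(i, n + m) :: l, ⟨?_, ?_⟩, ?_⟩
        · intro p hp
          rw [List.mem_cons] at hp
          rcases hp with rfl | hp
          · exact hnm
          · exact hl.1 p (List.mem_cons_of_mem _ hp)
        · have := List.isChain_cons.1 hl.2
          refine List.isChain_cons.2 ⟨fun y hy => this.1 y hy, this.2⟩
        · rw [prodZ_cons, prodZ_cons, ← mul_assoc, ← zpow_add]
    · refine ⟨(i, n) :: (j, m) :: l, ⟨?_, ?_⟩, ?_⟩
      · intro p hp
        rw [List.mem_cons] at hp
        rcases hp with rfl | hp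
        · exact hn
        · exact hl.1 p hp
      · refine List.isChain_cons.2 ⟨?_, hl.2⟩
        intro y hy
        simp only [List.head?_cons, Option.mem_def, Option.some.injEq] at hy
        rw [← hy]
        exact hij
      · rw [prodZ_cons (i, n)]

theorem exists_RedZ (w : FreeGroup ι) : ∃ l, RedZ l ∧ prodZ l = w := by
  have key : ∀ w : FreeGroup ι, ∀ l, RedZ l → ∃ l', RedZ l' ∧ prodZ l' = w * prodZ l := by
    intro w
    induction w using FreeGroup.induction_on with
    | C1 => intro l hl; exact ⟨l, hl, by simp⟩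
    | of i =>
      intro l hl
      obtain ⟨l', h1, h2⟩ := RedZ_mul i 1 l hl
      exact ⟨l', h1, by rw [h2, zpow_one]⟩
    | inv_of i _ =>
      intro l hl
      obtain ⟨l', h1, h2⟩ := RedZ_mul i (-1) l hl
      exact ⟨l', h1, by rw [h2, zpow_neg_one]⟩
    | mul x y hx hy =>
      intro l hl
      obtain ⟨l1, h1, h2⟩ := hy l hl
      obtain ⟨l2, h3, h4⟩ := hx l1 h1
      exact ⟨l2, h3, by rw [h4, h2, mul_assoc]⟩
  obtain ⟨l', h1, h2⟩ := key w [] ⟨by simp, by simp⟩
  exact ⟨l', h1, by rw [h2]; simp [prodZ]⟩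

/-- the embedding of the free group -/
def emQ (ι : Type) : FreeGroup ι →* QQ ι := FreeGroup.lift fun i => Lt i 1

theorem emQ_zpow (i : ι) (n : ℤ) : emQ ι (FreeGroup.of i ^ n) = Lt i n := by
  have h1 : ∀ n : ℕ, emQ ι (FreeGroup.of i ^ n) = Lt i n := by
    intro n
    have := Lt_nsmul i 1 n
    rw [mul_one] at this
    rw [this, map_pow]
    simp [emQ]
  rcases Int.eq_nat_or_neg n with ⟨m, rfl | rfl⟩
  · have := h1 m
    simpa using this
  · rw [zpow_neg, map_inv, zpow_natCast, h1 m]
    push_cast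
    rw [Lt_neg]

/-- cast of an integral list -/
def castL (l : List (ι × ℤ)) : List (ι × ℚ) := l.map fun p => (p.1, (p.2 : ℚ))

theorem emQ_prodZ (l : List (ι × ℤ)) : emQ ι (prodZ l) = prodL (castL l) := by
  induction l with
  | nil => simp [prodZ, castL, prodL]
  | cons a l ih =>
    rw [prodZ_cons, map_mul, ih, emQ_zpow]
    simp [castL, prodL]

theorem castL_injective : Function.Injective (castL : List (ι × ℤ) → List (ι × ℚ)) := by
  unfold castL
  rw [List.map_injective_iff]
  rintro ⟨i, m⟩ ⟨j, n⟩ h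
  simp only [Prod.mk.injEq, Int.cast_inj] at h
  exact Prod.ext h.1 h.2

theorem RedZ.cast {l : List (ι × ℤ)} (h : RedZ l) : Red (castL l) := by
  refine ⟨?_, ?_⟩
  · intro p hp
    unfold castL at hp
    rw [List.mem_map] at hp
    obtain ⟨q, hq, rfl⟩ := hp
    have := h.1 q hq
    simpa using this
  · unfold castL
    rw [List.isChain_map]
    exact h.2

theorem emQ_injective : Function.Injective (emQ ι) := by
  rw [injective_iff_map_eq_one]
  intro w hw
  obtain ⟨l, hl, rfl⟩ := exists_RedZ w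
  rw [emQ_prodZ] at hw
  have h1 : castL l = [] := hl.cast.unique ⟨by simp, by simp⟩ (by rw [hw, prodL_nil])
  have h2 : l = [] := by
    unfold castL at h1
    simpa using h1
  subst h2
  simp [prodZ]

/-- a reduced list whose product is integral has integral entries -/
theorem integral_of_range {l : List (ι × ℚ)} (hl : Red l) (w : FreeGroup ι)
    (h : emQ ι w = prodL l) : ∃ l0 : List (ι × ℤ), castL l0 = l ∧ prodZ l0 = w := by
  obtain ⟨l0, h0, rfl⟩ := exists_RedZ w
  rw [emQ_prodZ] at h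
  exact ⟨l0, h0.cast.unique hl h, rfl⟩

/-- scaling endomorphism -/
def scl (c : ι → ℚ) : QQ ι →* QQ ι :=
  Monoid.CoprodI.lift fun i => (Monoid.CoprodI.of (M := fun _ : ι => Multiplicative ℚ)
    (i := i)).comp (AddMonoidHom.toMultiplicative (AddMonoidHom.mulLeft (c i)))

theorem scl_Lt (c : ι → ℚ) (i : ι) (q : ℚ) : scl c (Lt i q) = Lt i (c i * q) := by
  unfold scl Lt
  rw [Monoid.CoprodI.lift_of]
  rfl

theorem QQ_hom_ext {H : Type*} [Monoid H] {f g : QQ ι →* H} (h : ∀ i q, f (Lt i q) = g (Lt i q)) :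
    f = g := by
  apply Monoid.CoprodI.ext_hom
  intro i
  ext q
  exact h i (Multiplicative.toAdd q)

theorem scl_scl (c c' : ι → ℚ) (h : ∀ i, c i * c' i = 1) (x : QQ ι) : scl c (scl c' x) = x := by
  have : (scl c).comp (scl c') = MonoidHom.id _ := by
    apply QQ_hom_ext
    intro i q
    rw [MonoidHom.comp_apply, scl_Lt, scl_Lt, ← mul_assoc, h, one_mul]
    rfl
  exact DFunLike.congr_fun this x

/-- scaling automorphism -/
def sclE (c c' : ι → ℚ) (h : ∀ i, c i * c' i = 1) : QQ ι ≃* QQ ι where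
  toFun := scl c
  invFun := scl c'
  left_inv := scl_scl c' c (fun i => by rw [mul_comm]; exact h i)
  right_inv := scl_scl c c' h
  map_mul' := map_mul _

end Pool.Agent.Helper81
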