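import Mathlib

set_option autoImplicit false
open Classical

namespace Pool.Agent.Helper81

/-- A ping-pong pair for a group acting on itself from the left. -/
def PP {G : Type*} [Group G] (a b : G) : Prop :=
  ∃ Ap Am Bp Bm : Set G,
    Disjoint Ap Am ∧ Disjoint Bp Bm ∧ Disjoint Ap Bp ∧ Disjoint Ap Bm ∧ Disjoint Am Bp ∧
      Disjoint Am Bm ∧ (∀ x, x ∉ Am → a * x ∈ Ap) ∧ (∀ x, x ∉ Bm → b * x ∈ Bp)

/-- No ping-pong pair inside a subgroup. -/
def NPP {G : Type*} [Group G] (H : Subgroup G) : Prop :=
  ∀ a ∈ H, ∀ b ∈ H, ¬ PP a b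

/-- Folner condition as in the frozen statement. -/
def Folner {G : Type*} [Group G] (H : Subgroup G) : Prop :=
  ∀ F : Finset G, (∀ x ∈ F, x ∈ H) → ∀ ε : ℝ, 0 < ε →
    ∃ A : Finset G, A.Nonempty ∧ (∀ a ∈ A, a ∈ H) ∧
      ∀ x ∈ F, ((((A.image (fun a => x * a)) \ A).card : ℕ) : ℝ) ≤ ε * (A.card : ℝ)

theorem NPP.mono {G : Type*} [Group G] {H K : Subgroup G} (h : K ≤ H) (hH : NPP H) : NPP K :=
  fun a ha b hb => hH a (h ha) b (h hb)

/-- counting: if `a` maps the complement of `Am` into `Ap`, then `Ap ∪ Am` has almost full density -/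
theorem density_bound {G : Type*} [Group G] (A : Finset G) (a : G) (Ap Am : Set G)
    (hA : ∀ x, x ∉ Am → a * x ∈ Ap) :
    A.card ≤ (A.filter (· ∈ Ap)).card + (A.filter (· ∈ Am)).card +
      ((A.image (fun x => a * x)) \ A).card := by
  have h1 : (A.filter (· ∉ Am)).card ≤ (A.filter (· ∈ Ap)).card +
      ((A.image (fun x => a * x)) \ A).card := by
    calc (A.filter (· ∉ Am)).card = ((A.filter (· ∉ Am)).image (fun x => a * x)).card := by
          rw [Finset.card_image_of_injective]
          exact mul_right_injective a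
      _ ≤ ((A.filter (· ∈ Ap)) ∪ ((A.image (fun x => a * x)) \ A)).card := by
          apply Finset.card_le_card
          intro y hy
          rw [Finset.mem_image] at hy
          obtain ⟨x, hx, rfl⟩ := hy
          rw [Finset.mem_filter] at hx
          rw [Finset.mem_union]
          by_cases h : a * x ∈ A
          · left
            rw [Finset.mem_filter]
            exact ⟨h, hA x hx.2⟩
          · right
            rw [Finset.mem_sdiff]
            exact ⟨Finset.mem_image_of_mem _ hx.1, h⟩
      _ ≤ _ := Finset.card_union_le _ _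
  have h2 := Finset.card_filter_add_card_filter_not (s := A) (· ∈ Am)
  omega

theorem Folner.npp {G : Type*} [Group G] {H : Subgroup G} (hH : Folner H) : NPP H := by
  rintro a ha b hb ⟨Ap, Am, Bp, Bm, h1, h2, h3, h4, h5, h6, hA, hB⟩
  obtain ⟨A, hne, hAH, hF⟩ := hH {a, b} (by
    intro x hx
    simp only [Finset.mem_insert, Finset.mem_singleton] at hx
    rcases hx with rfl | rfl
    · exact ha
    · exact hb) (1/8) (by norm_num)
  have ha' := hF a (by simp)
  have hb' := hF b (by simp)
  have da := density_bound A a Ap Am hA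
  have db := density_bound A b Bp Bm hB
  have hcard : (A.filter (· ∈ Ap)).card + (A.filter (· ∈ Am)).card +
      ((A.filter (· ∈ Bp)).card + (A.filter (· ∈ Bm)).card) ≤ A.card := by
    rw [← Finset.card_union_of_disjoint, ← Finset.card_union_of_disjoint,
      ← Finset.card_union_of_disjoint]
    · apply Finset.card_le_card
      intro x hx
      simp only [Finset.mem_union, Finset.mem_filter] at hx
      tauto
    · rw [Finset.disjoint_left]
      intro x hx hx'
      simp only [Finset.mem_union, Finset.mem_filter] at hx hx'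
      rw [Set.disjoint_left] at h3 h4 h5 h6
      rcases hx with hx | hx <;> rcases hx' with hx' | hx'
      · exact h3 hx.2 hx'.2
      · exact h4 hx.2 hx'.2
      · exact h5 hx.2 hx'.2
      · exact h6 hx.2 hx'.2
    · rw [Finset.disjoint_left]
      intro x hx hx'
      simp only [Finset.mem_filter] at hx hx'
      rw [Set.disjoint_left] at h2
      exact h2 hx.2 hx'.2
    · rw [Finset.disjoint_left]
      intro x hx hx'
      simp only [Finset.mem_filter] at hx hx'
      rw [Set.disjoint_left] at h1
      exact h1 hx.2 hx'.2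
  have hpos : 0 < (A.card : ℝ) := by
    exact_mod_cast Finset.card_pos.mpr hne
  have da' : (A.card : ℝ) ≤ (A.filter (· ∈ Ap)).card + (A.filter (· ∈ Am)).card +
      ((A.image (fun x => a * x)) \ A).card := by exact_mod_cast da
  have db' : (A.card : ℝ) ≤ (A.filter (· ∈ Bp)).card + (A.filter (· ∈ Bm)).card +
      ((A.image (fun x => b * x)) \ A).card := by exact_mod_cast db
  have hc' : ((A.filter (· ∈ Ap)).card : ℝ) + (A.filter (· ∈ Am)).card +
      ((A.filter (· ∈ Bp)).card + (A.filter (· ∈ Bm)).card) ≤ A.card := by exact_mod_cast hcard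
  linarith

/-- pull back ping-pong along a hom `φ : N → G` that has an equivariant retraction `f : G → N`. -/
theorem PP.pullback {N G : Type*} [Group N] [Group G] (φ : N →* G) (f : G → N)
    (hf : ∀ n g, f (φ n * g) = n * f g) {a b : N} (h : PP a b) : PP (φ a) (φ b) := by
  obtain ⟨Ap, Am, Bp, Bm, h1, h2, h3, h4, h5, h6, hA, hB⟩ := h
  refine ⟨f ⁻¹' Ap, f ⁻¹' Am, f ⁻¹' Bp, f ⁻¹' Bm, h1.preimage f, h2.preimage f, h3.preimage f,
    h4.preimage f, h5.preimage f, h6.preimage f, ?_, ?_⟩
  · intro x hx
    rw [Set.mem_preimage, hf]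
    exact hA _ hx
  · intro x hx
    rw [Set.mem_preimage, hf]
    exact hB _ hx

end Pool.Agent.Helper81
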