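import Pool.Agent.Helper81.RD.HNN2

set_option autoImplicit false
open Classical HNNExtension

namespace Pool.Agent.Helper81

variable {V : Type*}

/-- relators of a right-angled Artin group -/
def raagRels (Γ : SimpleGraph V) : Set (FreeGroup V) :=
  {r | ∃ v w, Γ.Adj v w ∧ r = FreeGroup.of v * FreeGroup.of w * (FreeGroup.of v)⁻¹ *
    (FreeGroup.of w)⁻¹}

/-- right-angled Artin group -/
abbrev RAAG (Γ : SimpleGraph V) := PresentedGroup (raagRels Γ)

namespace RAAG

variable {Γ : SimpleGraph V}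

/-- generator -/
def g (v : V) : RAAG Γ := PresentedGroup.of v

theorem g_comm {v w : V} (h : Γ.Adj v w) : Commute (g v : RAAG Γ) (g w) := by
  have h1 : (PresentedGroup.mk (raagRels Γ)) (FreeGroup.of v * FreeGroup.of w *
      (FreeGroup.of v)⁻¹ * (FreeGroup.of w)⁻¹) = 1 :=
    PresentedGroup.one_of_mem ⟨v, w, h, rfl⟩
  rw [map_mul, map_mul, map_mul, map_inv, map_inv] at h1
  change g v * g w * (g v)⁻¹ * (g w)⁻¹ = 1 at h1
  rw [mul_inv_eq_one, mul_inv_eq_iff_eq_mul] at h1
  exact h1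

/-- universal property -/
def lift {H : Type*} [Group H] (f : V → H) (hf : ∀ v w, Γ.Adj v w → Commute (f v) (f w)) :
    RAAG Γ →* H :=
  PresentedGroup.toGroup (f := f) (by
    rintro r ⟨v, w, h, rfl⟩
    simp only [map_mul, map_inv, FreeGroup.lift_apply_of]
    rw [(hf v w h).eq]
    group)

@[simp] theorem lift_g {H : Type*} [Group H] (f : V → H)
    (hf : ∀ v w, Γ.Adj v w → Commute (f v) (f w)) (v : V) : lift f hf (g v) = f v :=
  PresentedGroup.toGroup.of _

theorem hom_ext {H : Type*} [Group H] {f f' : RAAG Γ →* H} (h : ∀ v, f (g v) = f' (g v)) :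
    f = f' := by
  apply PresentedGroup.ext
  exact h

/-- closure of a set of vertices -/
def cl (Γ : SimpleGraph V) (S : Set V) : Subgroup (RAAG Γ) := Subgroup.closure (g '' S)

theorem cl_mono {S T : Set V} (h : S ⊆ T) : cl Γ S ≤ cl Γ T :=
  Subgroup.closure_mono (Set.image_mono h)

theorem g_mem_cl {S : Set V} {v : V} (hv : v ∈ S) : (g v : RAAG Γ) ∈ cl Γ S :=
  Subgroup.subset_closure ⟨v, hv, rfl⟩

theorem exists_finite_support (x : RAAG Γ) : ∃ S : Finset V, x ∈ cl Γ (S : Set V) := by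
  induction x using PresentedGroup.induction_on with
  | _ z =>
    induction z using FreeGroup.induction_on with
    | C1 => exact ⟨∅, by rw [map_one]; exact Subgroup.one_mem _⟩
    | of v => exact ⟨{v}, g_mem_cl (by simp)⟩
    | inv_of v _ => exact ⟨{v}, by rw [map_inv]; exact Subgroup.inv_mem _ (g_mem_cl (by simp))⟩
    | mul x y hx hy =>
      obtain ⟨S, hS⟩ := hx
      obtain ⟨T, hT⟩ := hy
      refine ⟨S ∪ T, ?_⟩
      rw [map_mul]
      refine Subgroup.mul_mem _ (cl_mono ?_ hS) (cl_mono ?_ hT)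
      · simp
      · simp

section retract

/-- retraction onto a set of vertices -/
noncomputable def ret (Γ : SimpleGraph V) (S : Set V) : RAAG Γ →* RAAG Γ :=
  lift (fun v => if v ∈ S then g v else 1) (by
    intro v w h
    by_cases hv : v ∈ S <;> by_cases hw : w ∈ S <;> simp [hv, hw, g_comm h])

theorem ret_g (S : Set V) (v : V) : ret Γ S (g v) = if v ∈ S then g v else 1 := lift_g _ _ _

theorem ret_of_mem {S : Set V} {x : RAAG Γ} (hx : x ∈ cl Γ S) : ret Γ S x = x := by
  have : cl Γ S ≤ MonoidHom.eqLocus (ret Γ S) (MonoidHom.id _) := by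
    rw [cl, Subgroup.closure_le]
    rintro _ ⟨v, hv, rfl⟩
    change ret Γ S (g v) = g v
    rw [ret_g, if_pos hv]
  exact this hx

theorem ret_mem {S T : Set V} {x : RAAG Γ} (hx : x ∈ cl Γ T) : ret Γ S x ∈ cl Γ (S ∩ T) := by
  have : cl Γ T ≤ (cl Γ (S ∩ T)).comap (ret Γ S) := by
    rw [cl, Subgroup.closure_le]
    rintro _ ⟨v, hv, rfl⟩
    change ret Γ S (g v) ∈ cl Γ (S ∩ T)
    rw [ret_g]
    split_ifs with h
    · exact g_mem_cl ⟨h, hv⟩
    · exact Subgroup.one_mem _
  exact this hx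

end retract

section tree

variable (Γ) (v : V)

/-- the induced graph on the other vertices -/
abbrev Γd : SimpleGraph {w : V // w ≠ v} := Γ.comap Subtype.val

/-- the link subgroup -/
def Lk : Subgroup (RAAG (Γd Γ v)) := cl (Γd Γ v) {w | Γ.Adj v w}

/-- the HNN extension associated with a vertex -/
abbrev HV := HNNExtension (RAAG (Γd Γ v)) (Lk Γ v) (Lk Γ v) (MulEquiv.refl _)

/-- inclusion of the base -/
def inc : RAAG (Γd Γ v) →* RAAG Γ :=
  lift (fun w => g w.1) (fun _ _ h => g_comm h)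

theorem inc_g (w : {w : V // w ≠ v}) : inc Γ v (g w) = g w.1 := lift_g _ _ _

theorem t_comm_Lk (a : RAAG (Γd Γ v)) (ha : a ∈ Lk Γ v) :
    Commute (t : HV Γ v) (of a) := by
  have := t_mul_of (φ := MulEquiv.refl (Lk Γ v)) ⟨a, ha⟩
  exact this

/-- map to the HNN extension -/
noncomputable def toHV : RAAG Γ →* HV Γ v :=
  lift (fun w => if h : w = v then t else of (g ⟨w, h⟩)) (by
    intro w w' h
    by_cases hw : w = v
    · have hw' : w' ≠ v := by
        rintro rfl
        exact Γ.ne_of_adj h hw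
      simp only [hw, hw', dif_pos, dif_neg, not_false_iff]
      subst hw
      exact t_comm_Lk Γ w _ (g_mem_cl (by exact h))
    · by_cases hw' : w' = v
      · simp only [hw, hw', dif_pos, dif_neg, not_false_iff]
        subst hw'
        exact (t_comm_Lk Γ w' _ (g_mem_cl (by exact h.symm))).symm
      · simp only [hw, hw', dif_neg, not_false_iff]
        have : Commute (g ⟨w, hw⟩ : RAAG (Γd Γ v)) (g ⟨w', hw'⟩) := g_comm h
        exact this.map of)

theorem toHV_self : toHV Γ v (g v) = t := by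
  rw [toHV, lift_g, dif_pos rfl]

theorem toHV_other (w : V) (h : w ≠ v) : toHV Γ v (g w) = of (g ⟨w, h⟩) := by
  rw [toHV, lift_g, dif_neg h]

/-- the inverse map -/
def ofHV : HV Γ v →* RAAG Γ :=
  HNNExtension.lift (inc Γ v) (g v) (by
    rintro ⟨a, ha⟩
    change g v * inc Γ v a = inc Γ v a * g v
    have : Lk Γ v ≤ (Subgroup.centralizer {(g v : RAAG Γ)}).comap (inc Γ v) := by
      rw [Lk, cl, Subgroup.closure_le]
      rintro _ ⟨w, hw, rfl⟩
      change inc Γ v (g w) ∈ Subgroup.centralizer _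
      rw [inc_g, Subgroup.mem_centralizer_singleton_iff]
      exact (g_comm hw).symm.eq
    have h2 := this ha
    rw [Subgroup.mem_comap, Subgroup.mem_centralizer_singleton_iff] at h2
    exact h2.symm)

theorem ofHV_t : ofHV Γ v t = g v := HNNExtension.lift_t _ _ _

theorem ofHV_of (a : RAAG (Γd Γ v)) : ofHV Γ v (of a) = inc Γ v a := HNNExtension.lift_of _ _ _ _

theorem ofHV_toHV (x : RAAG Γ) : ofHV Γ v (toHV Γ v x) = x := by
  have : (ofHV Γ v).comp (toHV Γ v) = MonoidHom.id _ := by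
    apply hom_ext
    intro w
    by_cases hw : w = v
    · subst hw
      simp [toHV_self, ofHV_t]
    · simp [toHV_other _ _ _ hw, ofHV_of, inc_g]
  exact DFunLike.congr_fun this x

theorem toHV_ofHV (x : HV Γ v) : toHV Γ v (ofHV Γ v x) = x := by
  have : (toHV Γ v).comp (ofHV Γ v) = MonoidHom.id _ := by
    apply HNNExtension.hom_ext
    · apply hom_ext
      intro w
      simp only [MonoidHom.comp_apply, ofHV_of, inc_g, MonoidHom.id_apply]
      rw [toHV_other _ _ _ w.2]
    · simp [toHV_self, ofHV_t]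
  exact DFunLike.congr_fun this x

/-- length with respect to a vertex -/
noncomputable def len : TreeLen (RAAG Γ) := (HNN.treeLen (MulEquiv.refl (Lk Γ v))).comap (toHV Γ v)

theorem len_def (x : RAAG Γ) : (len Γ v).len x = HNN.hl (toHV Γ v x) := rfl

theorem hl_t_le : HNN.hl (t : HV Γ v) ≤ 1 := by
  have := HNN.hl_P (φ := MulEquiv.refl (Lk Γ v)) (h := 1) (l := [(1, 1)]) (by simp)
  rw [HNN.P_cons, HNN.P_nil] at this
  simp only [map_one, one_mul, mul_one, Units.val_one, zpow_one, List.length_cons,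
    List.length_nil, zero_add] at this
  exact this.le

theorem len_g_le (w : V) : (len Γ v).len (g w) ≤ 1 := by
  rw [len_def]
  by_cases hw : w = v
  · subst hw
    rw [toHV_self]
    exact hl_t_le Γ w
  · rw [toHV_other _ _ _ hw, HNN.hl_of]
    exact Nat.zero_le _

theorem len_eq_zero_of_mem {x : RAAG Γ} (hx : x ∈ cl Γ {w | w ≠ v}) : (len Γ v).len x = 0 := by
  rw [len_def, HNN.hl_eq_zero]
  have : cl Γ {w | w ≠ v} ≤ ((of : RAAG (Γd Γ v) →* HV Γ v).range).comap (toHV Γ v) := by
    rw [cl, Subgroup.closure_le]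
    rintro _ ⟨w, hw, rfl⟩
    exact ⟨g ⟨w, hw⟩, (toHV_other _ _ _ hw).symm⟩
  obtain ⟨y, hy⟩ := this hx
  exact ⟨y, hy⟩

theorem inc_mem (a : RAAG (Γd Γ v)) : inc Γ v a ∈ cl Γ {w | w ≠ v} := by
  obtain ⟨S, hS⟩ := exists_finite_support a
  have : cl (Γd Γ v) (S : Set _) ≤ (cl Γ {w | w ≠ v}).comap (inc Γ v) := by
    rw [cl, Subgroup.closure_le]
    rintro _ ⟨w, hw, rfl⟩
    change inc Γ v (g w) ∈ cl Γ {w | w ≠ v}
    rw [inc_g]
    exact g_mem_cl w.2
  exact this hS

theorem inc_Lk_mem (a : RAAG (Γd Γ v)) (ha : a ∈ Lk Γ v) : inc Γ v a ∈ cl Γ {w | Γ.Adj v w} := by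
  have : Lk Γ v ≤ (cl Γ {w | Γ.Adj v w}).comap (inc Γ v) := by
    rw [Lk, cl, Subgroup.closure_le]
    rintro _ ⟨w, hw, rfl⟩
    change inc Γ v (g w) ∈ cl Γ {w | Γ.Adj v w}
    rw [inc_g]
    exact g_mem_cl hw
  exact this ha

theorem mem_of_len_eq_zero {x : RAAG Γ} (hx : (len Γ v).len x = 0) : x ∈ cl Γ {w | w ≠ v} := by
  rw [len_def, HNN.hl_eq_zero] at hx
  obtain ⟨a, ha⟩ := hx
  rw [← ofHV_toHV Γ v x, ← ha, ofHV_of]
  exact inc_mem Γ v a

/-- elements fixing two distinct vertices of the tree of `v` are elliptic for vertices outside the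
link of `v` -/
theorem elliptic_of_fix {k p q : RAAG Γ} (hp : (len Γ v).d p (k * p) = 0)
    (hq : (len Γ v).d q (k * q) = 0) (hpq : 1 ≤ (len Γ v).d p q) (w : V) (hw : ¬ Γ.Adj v w) :
    ∃ z, (len Γ w).len (z⁻¹ * k * z) = 0 := by
  unfold TreeLen.d at hp hq hpq
  rw [len_def, map_mul, map_mul, map_inv] at hp hq
  rw [len_def, map_mul, map_inv] at hpq
  set P := toHV Γ v p
  set Q := toHV Γ v q
  set K := toHV Γ v k with hK
  obtain ⟨h, b, u, hb, hw', -, -⟩ := HNN.edge_of_fix (P⁻¹ * K * P) (P⁻¹ * Q)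
    (by rw [mul_assoc]; exact_mod_cast hp) (by omega)
    (by
      have e : (P⁻¹ * Q)⁻¹ * (P⁻¹ * K * P) * (P⁻¹ * Q) = Q⁻¹ * (K * Q) := by group
      rw [e]
      exact_mod_cast hq)
  have hb' : b ∈ Lk Γ v := by
    rcases Int.units_eq_one_or u with rfl | rfl
    · exact hb
    · exact hb
  have hKe : K = (P * of h) * of b * (P * of h)⁻¹ := by
    have : K = P * (P⁻¹ * K * P) * P⁻¹ := by group
    rw [this, hw']
    group
  refine ⟨ofHV Γ v (P * of h), ?_⟩
  have hk : k = ofHV Γ v (P * of h) * inc Γ v b * (ofHV Γ v (P * of h))⁻¹ := by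
    rw [← ofHV_toHV Γ v k, ← hK, hKe, map_mul, map_mul, map_inv, ofHV_of]
  have e : (ofHV Γ v (P * of h))⁻¹ * k * ofHV Γ v (P * of h) = inc Γ v b := by
    rw [hk]; group
  rw [e]
  apply len_eq_zero_of_mem
  refine cl_mono ?_ (inc_Lk_mem Γ v b hb')
  rintro u hu rfl
  exact hw hu

end tree

/-- every nontrivial element is a translation for some vertex -/
theorem exists_translation (x : RAAG Γ) (hx : x ≠ 1) :
    ∃ (v : V) (y : RAAG Γ) (τ : ℕ), 1 ≤ τ ∧ (len Γ v).Axis x y τ := by
  by_contra hcon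
  push Not at hcon
  have hell : ∀ v, ∃ z, (len Γ v).len (z⁻¹ * x * z) = 0 := by
    intro v
    by_contra h
    push Not at h
    obtain ⟨y, τ, h1, h2⟩ := HNN.exists_axis (toHV Γ v x) (by
      intro y
      have := h (ofHV Γ v y)
      rw [len_def, map_mul, map_mul, map_inv, toHV_ofHV] at this
      exact this)
    refine hcon v (ofHV Γ v y) τ h1 ?_
    intro n
    have := h2 n
    rw [len_def, map_mul, map_mul, map_inv, map_pow, toHV_ofHV]
    exact this
  -- induction on the support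
  have key : ∀ n : ℕ, ∀ S : Finset V, S.card = n → ∀ x : RAAG Γ, x ∈ cl Γ (S : Set V) →
      (∀ v, ∃ z, (len Γ v).len (z⁻¹ * x * z) = 0) → x = 1 := by
    intro n
    induction n with
    | zero =>
      intro S hS x hx _
      rw [Finset.card_eq_zero] at hS
      subst hS
      simpa [cl] using hx
    | succ n ih =>
      intro S hS x hx hell
      obtain ⟨v, hv⟩ : S.Nonempty := by rw [← Finset.card_pos]; omega
      obtain ⟨z, hz⟩ := hell v
      have h1 := mem_of_len_eq_zero Γ v hz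
      have h2 := ret_mem (S := (S : Set V)) h1
      rw [map_mul, map_mul, map_inv, ret_of_mem hx] at h2
      set z' := ret Γ (S : Set V) z
      have h3 : z'⁻¹ * x * z' = 1 := by
        apply ih (S.erase v) (by rw [Finset.card_erase_of_mem hv]; omega) _ _ _
        · refine cl_mono ?_ h2
          rintro w ⟨hw1, hw2⟩
          rw [Finset.coe_erase]
          exact ⟨hw1, hw2⟩
        · intro w
          obtain ⟨z2, hz2⟩ := hell w
          refine ⟨z'⁻¹ * z2, ?_⟩
          have e : (z'⁻¹ * z2)⁻¹ * (z'⁻¹ * x * z') * (z'⁻¹ * z2) = z2⁻¹ * x * z2 := by group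
          rw [e, hz2]
      have h4 : x = z' * (z'⁻¹ * x * z') * z'⁻¹ := by group
      rw [h4, h3]
      simp
  obtain ⟨S, hS⟩ := exists_finite_support x
  exact hx (key _ S rfl x hS hell)

end RAAG

end Pool.Agent.Helper81
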