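import Pool.Agent.Helper81.RD.Normal

set_option autoImplicit false
open Classical

namespace Pool.Agent.Helper81

/-- the ambient free product -/
abbrev Q3 := QQ (Fin 3)

/-- powers of two -/
abbrev p2 (a : ℤ) : ℚ := (2 : ℚ) ^ a

theorem p2_ne (a : ℤ) : p2 a ≠ 0 := zpow_ne_zero _ (by norm_num)

theorem p2_inj {a b : ℤ} (h : p2 a = p2 b) : a = b :=
  zpow_right_injective₀ (by norm_num : (0:ℚ) < 2) (by norm_num) h

/-- the vertices -/
def vv3 (γ s a : ℤ) : Q3 :=
  Lt 0 (p2 a) * Lt 1 (p2 (s - a)) * Lt 0 (-p2 a) * Lt 2 (p2 γ)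

/-- the difference set -/
def DD : Set Q3 := {x | ∃ γ s a a' : ℤ, a ≠ a' ∧ |a - a'| ≤ s + γ ∧ x = (vv3 γ s a)⁻¹ * vv3 γ s a'}

/-- the seven letter word -/
def seven (γ s a a' : ℤ) : List (Fin 3 × ℚ) :=
  [(2, -p2 γ), (0, p2 a), (1, -p2 (s - a)), (0, p2 a' - p2 a), (1, p2 (s - a')), (0, -p2 a'),
    (2, p2 γ)]

theorem Lt_sub (i : Fin 3) (p q : ℚ) : Lt i (p - q) = Lt i p * (Lt i q)⁻¹ := by
  rw [sub_eq_add_neg, Lt_add, Lt_neg]

theorem Lt_sub' (i : Fin 3) (p q : ℚ) : Lt i (p - q) = (Lt i q)⁻¹ * Lt i p := by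
  rw [sub_eq_neg_add, Lt_add, Lt_neg]

theorem prodL_seven (γ s a a' : ℤ) : prodL (seven γ s a a') = (vv3 γ s a)⁻¹ * vv3 γ s a' := by
  simp only [seven, prodL_cons, prodL_nil, vv3, Lt_neg, Lt_sub']
  group

theorem red_seven {γ s a a' : ℤ} (h : a ≠ a') : Red (seven γ s a a') := by
  have h1 : p2 a' - p2 a ≠ 0 := by
    rw [sub_ne_zero]
    exact fun e => h (p2_inj e).symm
  refine ⟨?_, ?_⟩
  · intro p hp
    simp only [seven, List.mem_cons, List.not_mem_nil, or_false] at hp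
    rcases hp with rfl | rfl | rfl | rfl | rfl | rfl | rfl
    · exact neg_ne_zero.mpr (p2_ne _)
    · exact p2_ne _
    · exact neg_ne_zero.mpr (p2_ne _)
    · exact h1
    · exact p2_ne _
    · exact neg_ne_zero.mpr (p2_ne _)
    · exact p2_ne _
  · simp [seven]

theorem DD_rep {x : Q3} (h : x ∈ DD) : ∃ γ s a a' : ℤ, a ≠ a' ∧ |a - a'| ≤ s + γ ∧
    Red (seven γ s a a') ∧ prodL (seven γ s a a') = x := by
  obtain ⟨γ, s, a, a', h1, h2, rfl⟩ := h
  exact ⟨γ, s, a, a', h1, h2, red_seven h1, prodL_seven _ _ _ _⟩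

theorem DD_one : (1 : Q3) ∉ DD := by
  intro h
  obtain ⟨γ, s, a, a', -, -, h3, h4⟩ := DD_rep h
  have := h3.unique (l' := []) ⟨by simp, by simp⟩ (by rw [h4, prodL_nil])
  simp [seven] at this

theorem DD_inv {x : Q3} (h : x ∈ DD) : x⁻¹ ∈ DD := by
  obtain ⟨γ, s, a, a', h1, h2, rfl⟩ := h
  exact ⟨γ, s, a', a, h1.symm, by rwa [abs_sub_comm], by group⟩

/-- differences of two elements of the difference set based at different words are too long -/
theorem DD_diff {γ s a a' γ' s' b b' : ℤ} (h1 : a ≠ a') (h2 : b ≠ b')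
    (h : ((vv3 γ s a)⁻¹ * vv3 γ s a')⁻¹ * ((vv3 γ' s' b)⁻¹ * vv3 γ' s' b') ∈ DD) :
    γ = γ' ∧ s = s' ∧ a = b := by
  obtain ⟨γ₀, s₀, a₀, a₀', -, -, h3, h4⟩ := DD_rep h
  have n1 : p2 a - p2 a' ≠ 0 := by
    rw [sub_ne_zero]
    exact fun e => h1 (p2_inj e)
  have n2 : p2 b' - p2 b ≠ 0 := by
    rw [sub_ne_zero]
    exact fun e => h2 (p2_inj e).symm
  by_cases hγ : γ = γ'
  · subst hγ
    by_cases hab : a = b
    · subst hab
      by_cases hs : s = s'
      · exact ⟨rfl, hs, rfl⟩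
      · exfalso
        -- nine letters
        have n3 : p2 (s - a) - p2 (s' - a) ≠ 0 := by
          rw [sub_ne_zero]
          intro e
          have := p2_inj e
          omega
        have hred : Red ([(2, -p2 γ), (0, p2 a'), (1, -p2 (s - a')), (0, p2 a - p2 a'),
            (1, p2 (s - a) - p2 (s' - a)), (0, p2 b' - p2 a), (1, p2 (s' - b')), (0, -p2 b'),
            (2, p2 γ)] : List (Fin 3 × ℚ)) := by
          refine ⟨?_, ?_⟩
          · intro p hp
            simp only [List.mem_cons, List.not_mem_nil, or_false] at hp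
            rcases hp with rfl | rfl | rfl | rfl | rfl | rfl | rfl | rfl | rfl
            · exact neg_ne_zero.mpr (p2_ne _)
            · exact p2_ne _
            · exact neg_ne_zero.mpr (p2_ne _)
            · exact n1
            · exact n3
            · exact n2
            · exact p2_ne _
            · exact neg_ne_zero.mpr (p2_ne _)
            · exact p2_ne _
          · simp
        have := h3.unique hred (by
          rw [h4]
          simp only [prodL_cons, prodL_nil, vv3, Lt_neg, Lt_sub' 0 (p2 a) (p2 a'),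
            Lt_sub 1 (p2 (s - a)) (p2 (s' - a)), Lt_sub' 0 (p2 b') (p2 a)]
          group)
        simp [seven] at this
    · exfalso
      -- eleven letters
      have n3 : p2 b - p2 a ≠ 0 := by
        rw [sub_ne_zero]
        exact fun e => hab (p2_inj e).symm
      have hred : Red ([(2, -p2 γ), (0, p2 a'), (1, -p2 (s - a')), (0, p2 a - p2 a'),
          (1, p2 (s - a)), (0, p2 b - p2 a), (1, -p2 (s' - b)), (0, p2 b' - p2 b),
          (1, p2 (s' - b')), (0, -p2 b'), (2, p2 γ)] : List (Fin 3 × ℚ)) := by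
        refine ⟨?_, ?_⟩
        · intro p hp
          simp only [List.mem_cons, List.not_mem_nil, or_false] at hp
          rcases hp with rfl | rfl | rfl | rfl | rfl | rfl | rfl | rfl | rfl | rfl | rfl
          · exact neg_ne_zero.mpr (p2_ne _)
          · exact p2_ne _
          · exact neg_ne_zero.mpr (p2_ne _)
          · exact n1
          · exact p2_ne _
          · exact n3
          · exact neg_ne_zero.mpr (p2_ne _)
          · exact n2
          · exact p2_ne _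
          · exact neg_ne_zero.mpr (p2_ne _)
          · exact p2_ne _
        · simp
      have := h3.unique hred (by
        rw [h4]
        simp only [prodL_cons, prodL_nil, vv3, Lt_neg, Lt_sub' 0 (p2 b) (p2 a),
          Lt_sub' 0 (p2 a) (p2 a'), Lt_sub' 0 (p2 b') (p2 b)]
        group)
      simp [seven] at this
  · exfalso
    -- thirteen letters
    have n3 : p2 γ - p2 γ' ≠ 0 := by
      rw [sub_ne_zero]
      exact fun e => hγ (p2_inj e)
    have hred : Red ([(2, -p2 γ), (0, p2 a'), (1, -p2 (s - a')), (0, p2 a - p2 a'),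
        (1, p2 (s - a)), (0, -p2 a), (2, p2 γ - p2 γ'), (0, p2 b), (1, -p2 (s' - b)),
        (0, p2 b' - p2 b), (1, p2 (s' - b')), (0, -p2 b'), (2, p2 γ')] : List (Fin 3 × ℚ)) := by
      refine ⟨?_, ?_⟩
      · intro p hp
        simp only [List.mem_cons, List.not_mem_nil, or_false] at hp
        rcases hp with rfl | rfl | rfl | rfl | rfl | rfl | rfl | rfl | rfl | rfl | rfl | rfl | rfl
        · exact neg_ne_zero.mpr (p2_ne _)
        · exact p2_ne _
        · exact neg_ne_zero.mpr (p2_ne _)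
        · exact n1
        · exact p2_ne _
        · exact neg_ne_zero.mpr (p2_ne _)
        · exact n3
        · exact p2_ne _
        · exact neg_ne_zero.mpr (p2_ne _)
        · exact n2
        · exact p2_ne _
        · exact neg_ne_zero.mpr (p2_ne _)
        · exact p2_ne _
      · simp
    have := h3.unique hred (by
      rw [h4]
      simp only [prodL_cons, prodL_nil, vv3, Lt_neg, Lt_sub 2 (p2 γ) (p2 γ'),
        Lt_sub' 0 (p2 a) (p2 a'), Lt_sub' 0 (p2 b') (p2 b)]
      group)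
    simp [seven] at this

/-- no infinite cliques -/
theorem DD_nic : ¬ ∃ f : ℕ → Q3, ∀ i j, i < j → (f i)⁻¹ * f j ∈ DD := by
  rintro ⟨f, hf⟩
  have h0 : ∀ n : ℕ, ∃ p : ℤ × ℤ × ℤ × ℤ, p.2.2.1 ≠ p.2.2.2 ∧ |p.2.2.1 - p.2.2.2| ≤ p.2.1 + p.1 ∧
      (f 0)⁻¹ * f (n + 1) = (vv3 p.1 p.2.1 p.2.2.1)⁻¹ * vv3 p.1 p.2.1 p.2.2.2 := by
    intro n
    obtain ⟨γ, s, a, a', h1, h2, h3⟩ := hf 0 (n + 1) (by omega)
    exact ⟨(γ, s, a, a'), h1, h2, h3⟩
  choose p hp1 hp2 hp3 using h0
  have hmn : ∀ m n, m < n → ((f 0)⁻¹ * f (m + 1))⁻¹ * ((f 0)⁻¹ * f (n + 1)) ∈ DD := by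
    intro m n hmn
    have e : ((f 0)⁻¹ * f (m + 1))⁻¹ * ((f 0)⁻¹ * f (n + 1)) = (f (m + 1))⁻¹ * f (n + 1) := by
      group
    rw [e]
    exact hf _ _ (by omega)
  have heq : ∀ n, (p n).1 = (p 0).1 ∧ (p n).2.1 = (p 0).2.1 ∧ (p n).2.2.1 = (p 0).2.2.1 := by
    intro n
    rcases Nat.eq_zero_or_pos n with rfl | hn
    · exact ⟨rfl, rfl, rfl⟩
    · have := hmn 0 n hn
      rw [hp3, hp3] at this
      obtain ⟨h1, h2, h3⟩ := DD_diff (hp1 0) (hp1 n) this
      exact ⟨h1.symm, h2.symm, h3.symm⟩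
  have hinj : Function.Injective (fun n => (p n).2.2.2) := by
    have key : ∀ m n, m < n → (p m).2.2.2 ≠ (p n).2.2.2 := by
      intro m n hlt he
      have := hmn m n hlt
      rw [hp3, hp3, he, (heq m).1, (heq n).1, (heq m).2.1, (heq n).2.1, (heq m).2.2, (heq n).2.2,
        inv_mul_cancel] at this
      exact DD_one this
    intro m n he
    rcases lt_trichotomy m n with h | h | h
    · exact absurd he (key m n h)
    · exact h
    · exact absurd he.symm (key n m h)
  have hfin : (Set.range (fun n => (p n).2.2.2)).Finite := by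
    apply (Set.finite_Icc ((p 0).2.2.1 - ((p 0).2.1 + (p 0).1))
      ((p 0).2.2.1 + ((p 0).2.1 + (p 0).1))).subset
    rintro _ ⟨n, rfl⟩
    have h2 := hp2 n
    rw [(heq n).1, (heq n).2.1, (heq n).2.2, abs_le] at h2
    simp only [Set.mem_Icc]
    constructor <;> linarith [h2.1, h2.2]
  exact Set.infinite_range_of_injective hinj hfin

/-- invariance under scalings -/
theorem DD_scl1 {x : Q3} (h : x ∈ DD) : scl ![2, 1, 1/2] x ∈ DD := by
  obtain ⟨γ, s, a, a', h1, h2, rfl⟩ := h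
  have key : ∀ a, scl ![2, 1, 1/2] (vv3 γ s a) = vv3 (γ - 1) (s + 1) (a + 1) := by
    intro a
    unfold vv3
    rw [map_mul, map_mul, map_mul, scl_Lt, scl_Lt, scl_Lt, scl_Lt]
    have e1 : (2 : ℚ) * p2 a = p2 (a + 1) := by
      rw [p2, p2, zpow_add₀ (by norm_num), zpow_one, mul_comm]
    have e2 : s + 1 - (a + 1) = s - a := by ring
    have e3 : (1/2 : ℚ) * p2 γ = p2 (γ - 1) := by
      rw [p2, p2, zpow_sub₀ (by norm_num), zpow_one]; ring
    simp only [Matrix.cons_val_zero, Matrix.cons_val_one, Matrix.cons_val, one_mul]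
    rw [mul_neg, e1, e2, e3]
  refine ⟨γ - 1, s + 1, a + 1, a' + 1, by omega, ?_, ?_⟩
  · have : a + 1 - (a' + 1) = a - a' := by ring
    rw [this]
    linarith
  · rw [map_mul, map_inv, key, key]

theorem DD_scl1' {x : Q3} (h : x ∈ DD) : scl ![1/2, 1, 2] x ∈ DD := by
  obtain ⟨γ, s, a, a', h1, h2, rfl⟩ := h
  have key : ∀ a, scl ![1/2, 1, 2] (vv3 γ s a) = vv3 (γ + 1) (s - 1) (a - 1) := by
    intro a
    unfold vv3
    rw [map_mul, map_mul, map_mul, scl_Lt, scl_Lt, scl_Lt, scl_Lt]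
    have e1 : (2 : ℚ) * p2 γ = p2 (γ + 1) := by
      rw [p2, p2, zpow_add₀ (by norm_num), zpow_one, mul_comm]
    have e2 : s - 1 - (a - 1) = s - a := by ring
    have e3 : (1/2 : ℚ) * p2 a = p2 (a - 1) := by
      rw [p2, p2, zpow_sub₀ (by norm_num), zpow_one]; ring
    simp only [Matrix.cons_val_zero, Matrix.cons_val_one, Matrix.cons_val, one_mul]
    rw [mul_neg, e1, e2, e3]
  refine ⟨γ + 1, s - 1, a - 1, a' - 1, by omega, ?_, ?_⟩
  · have : a - 1 - (a' - 1) = a - a' := by ring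
    rw [this]
    linarith
  · rw [map_mul, map_inv, key, key]

theorem DD_scl2 {x : Q3} (h : x ∈ DD) : scl ![1, 2, 1/2] x ∈ DD := by
  obtain ⟨γ, s, a, a', h1, h2, rfl⟩ := h
  have key : ∀ a, scl ![1, 2, 1/2] (vv3 γ s a) = vv3 (γ - 1) (s + 1) a := by
    intro a
    unfold vv3
    rw [map_mul, map_mul, map_mul, scl_Lt, scl_Lt, scl_Lt, scl_Lt]
    have e1 : (2 : ℚ) * p2 (s - a) = p2 (s + 1 - a) := by
      have : s + 1 - a = s - a + 1 := by ring
      rw [this, p2, p2, zpow_add₀ (by norm_num : (2:ℚ) ≠ 0) (s - a) 1, zpow_one, mul_comm]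
    have e3 : (1/2 : ℚ) * p2 γ = p2 (γ - 1) := by
      rw [p2, p2, zpow_sub₀ (by norm_num), zpow_one]; ring
    simp only [Matrix.cons_val_zero, Matrix.cons_val_one, Matrix.cons_val, one_mul]
    rw [e1, e3]
  refine ⟨γ - 1, s + 1, a, a', h1, by linarith, ?_⟩
  rw [map_mul, map_inv, key, key]

theorem DD_scl2' {x : Q3} (h : x ∈ DD) : scl ![1, 1/2, 2] x ∈ DD := by
  obtain ⟨γ, s, a, a', h1, h2, rfl⟩ := h
  have key : ∀ a, scl ![1, 1/2, 2] (vv3 γ s a) = vv3 (γ + 1) (s - 1) a := by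
    intro a
    unfold vv3
    rw [map_mul, map_mul, map_mul, scl_Lt, scl_Lt, scl_Lt, scl_Lt]
    have e1 : (2 : ℚ) * p2 γ = p2 (γ + 1) := by
      rw [p2, p2, zpow_add₀ (by norm_num), zpow_one, mul_comm]
    have e3 : (1/2 : ℚ) * p2 (s - a) = p2 (s - 1 - a) := by
      have : s - 1 - a = s - a - 1 := by ring
      rw [this, p2, p2, zpow_sub₀ (by norm_num : (2:ℚ) ≠ 0) (s - a) 1, zpow_one]; ring
    simp only [Matrix.cons_val_zero, Matrix.cons_val_one, Matrix.cons_val, one_mul]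
    rw [e1, e3]
  refine ⟨γ + 1, s - 1, a, a', h1, by linarith, ?_⟩
  rw [map_mul, map_inv, key, key]

end Pool.Agent.Helper81
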